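import Pool.Agent.Helper36.DL.Moebius
import Pool.Agent.Helper11.ZP.RatCurve

/-! # The images of the diagonal -/

open MvPolynomial Finset

namespace Pool.Agent.Helper36.DL
open Pool.Agent.Helper11.ZP Pool.Agent.Helper11.ZU Pool.Agent.Helper11.LC Pool.Agent.Helper20.ZD

variable {n : ℕ}

/-- the diagonal -/
def diag (n : ℕ) : Set (Fin n → ℂ) := {z | ∃ t : ℂ, ∀ i, z i = t}

lemma diag_eq (n : ℕ) : diag n = ratCurve (fun _ : Fin n => (Polynomial.X : Polynomial ℚ)) (fun _ => 1) := by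
  ext z
  constructor
  · rintro ⟨t, ht⟩
    refine ⟨t, fun i => by simp, fun i => ?_⟩
    rw [ht i]
    simp
  · rintro ⟨t, -, ht⟩
    refine ⟨t, fun i => ?_⟩
    rw [ht i]
    simp

lemma diag_facts (hn : 0 < n) : IsSubvariety (diag n) ∧ dim (diag n) = 1 ∧ NonConst (diag n) := by
  have h1 : DD (fun _ : Fin n => (1 : Polynomial ℚ)) ≠ 0 := DD_ne_zero _ fun _ => one_ne_zero
  have h2 := isIntegral_xR (fun _ : Fin n => (Polynomial.X : Polynomial ℚ)) (fun _ => 1) ⟨0, hn⟩ (by simp)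
    (fun i => by simpa using isCoprime_one_right)
  refine ⟨?_, ?_, fun i c => ⟨fun _ => c + 1, ⟨c + 1, fun _ => rfl⟩, by simp⟩⟩
  · rw [diag_eq, ratCurve_eq]
    exact isSubvariety_curveOf _ h1 h2
  · rw [diag_eq, ratCurve_eq]
    exact dim_curveOf _ h1 h2

lemma cornerPos_diag {γ δ : Fin n → ℂ} (hγ : ∀ i, IsAlgebraic ℚ (γ i)) (hδ : ∀ i, IsAlgebraic ℚ (δ i))
    (hinj : Function.Injective (Sum.elim γ δ)) : CornerPos 1 (moebius γ δ (diag n)) := by
  classical
  intro J hJ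
  obtain ⟨i, j, hij, rfl⟩ := Finset.card_eq_two.1 hJ
  have hγδ : ∀ i j, γ i ≠ δ j := fun i j h => by
    have := hinj (show Sum.elim γ δ (Sum.inl i) = Sum.elim γ δ (Sum.inr j) from h)
    exact absurd this (by simp)
  have hvars : (X i - X j : MvPolynomial (Fin n) ℂ).vars ⊆ {i, j} := by
    intro k hk
    have h := vars_sub_subset _ hk
    rw [vars_X, vars_X] at h
    simpa using h
  have halg : ∀ m, IsAlgebraic ℚ ((X i - X j : MvPolynomial (Fin n) ℂ).coeff m) := by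
    intro m
    rw [coeff_sub, coeff_X, coeff_X]
    refine IsAlgebraic.sub ?_ ?_ <;> split_ifs <;> first | exact isAlgebraic_one | exact isAlgebraic_zero
  obtain ⟨h1, h2, h3⟩ := push_spec hvars halg hγ hδ fun I _ => by
    rw [map_sub, eval_X, eval_X, sub_ne_zero]
    split_ifs with hi hj hj
    · exact fun h => hij (Sum.inr_injective (hinj (show Sum.elim γ δ (Sum.inr i) = Sum.elim γ δ (Sum.inr j) from h)))
    · exact (hγδ j i).symm
    · exact hγδ i j
    · exact fun h => hij (Sum.inl_injective (hinj (show Sum.elim γ δ (Sum.inl i) = Sum.elim γ δ (Sum.inl j) from h)))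
  refine ⟨push γ δ (X i - X j), h1, h2, h3, push_mem (fun i => hγδ i i) ?_⟩
  rintro z ⟨t, ht⟩
  rw [map_sub, eval_X, eval_X, ht i, ht j, sub_self]

/-- the parameter -/
lemma finite_param {γ δ : Fin n → ℂ} (hn : 0 < n) (hγδ : ∀ i, γ i ≠ δ i) {lam : Fin n → ℂ} (hl : ∀ i, lam i ≠ 0)
    {T : Set (Fin n → ℂ)} (hT : (dilate lam (moebius γ δ (diag n)) ∩ T).Finite) :
    {t : ℂ | (fun i => lam i * ((t - γ i) / (t - δ i))) ∈ T}.Finite := by
  set i₀ : Fin n := ⟨0, hn⟩
  set x : ℂ → Fin n → ℂ := fun t i => lam i * ((t - γ i) / (t - δ i)) with hx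
  have h1 : ({t : ℂ | ∃ i, t = δ i}).Finite := (Set.finite_range δ).subset fun t ⟨i, hi⟩ => ⟨i, hi.symm⟩
  have h2 : ({t : ℂ | (∀ i, t ≠ δ i) ∧ x t ∈ dilate lam (moebius γ δ (diag n)) ∩ T}).Finite := by
    refine Set.Finite.of_finite_image (f := x) (hT.subset ?_) ?_
    · rintro _ ⟨t, ⟨-, ht⟩, rfl⟩
      exact ht
    · rintro s ⟨hs, -⟩ t ⟨ht, -⟩ hst
      have h3 := congrFun hst i₀
      simp only [hx] at h3
      have h4 := mul_left_cancel₀ (hl i₀) h3
      rw [div_eq_div_iff (sub_ne_zero.2 (hs i₀)) (sub_ne_zero.2 (ht i₀))] at h4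
      have h5 : (γ i₀ - δ i₀) * (s - t) = 0 := by linear_combination h4
      rcases mul_eq_zero.1 h5 with h6 | h6
      · exact absurd (sub_eq_zero.1 h6) (hγδ i₀)
      · exact sub_eq_zero.1 h6
  refine (h1.union h2).subset ?_
  intro t ht
  by_cases hd : ∃ i, t = δ i
  · exact Or.inl hd
  · push Not at hd
    refine Or.inr ⟨hd, ?_, ht⟩
    change (fun i => lam i * ((t - γ i) / (t - δ i)) / lam i) ∈ moebius γ δ (diag n)
    have h3 : (fun i => lam i * ((t - γ i) / (t - δ i)) / lam i) = fun i => (t - γ i) / (t - δ i) := by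
      funext i
      rw [mul_comm, mul_div_assoc, div_self (hl i), mul_one]
    rw [h3]
    exact zeroLocus_vanishingIdeal_le _ ⟨fun _ => t, ⟨t, fun _ => rfl⟩, fun i => ⟨hd i, rfl⟩⟩

end Pool.Agent.Helper36.DL
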