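import Pool.Agent.Helper36.DL.Affine
import Pool.Agent.Helper36.DL.Line

/-! # Affine images of the diagonal, and `n = 0` -/

open MvPolynomial

namespace Pool.Agent.Helper36.DL
open Pool.Agent.Helper11.ZP

variable {n : ℕ}

lemma dim_zero (Z : Set (Fin 0 → ℂ)) : dim Z = 0 := by
  have h1 : Function.Surjective (algebraMap ℂ (MvPolynomial (Fin 0) ℂ ⧸ vanishingIdeal ℂ Z)) := by
    intro x
    obtain ⟨f, rfl⟩ := Ideal.Quotient.mk_surjective x
    exact ⟨f.coeff 0, by rw [eq_C_of_isEmpty f]; simp; rfl⟩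
  have h2 : Algebra.IsIntegral ℂ (MvPolynomial (Fin 0) ℂ ⧸ vanishingIdeal ℂ Z) :=
    ⟨fun x => by obtain ⟨c, rfl⟩ := h1 x; exact isIntegral_algebraMap⟩
  rw [dim]
  by_cases hnt : Nontrivial (MvPolynomial (Fin 0) ℂ ⧸ vanishingIdeal ℂ Z)
  · have h3 : Algebra.IsAlgebraic ℂ (MvPolynomial (Fin 0) ℂ ⧸ vanishingIdeal ℂ Z) :=
      Algebra.IsIntegral.isAlgebraic
    rw [trdeg_eq_zero, map_zero]
  · rw [not_nontrivial_iff_subsingleton] at hnt
    rw [trdeg_eq_zero_of_not_injective, map_zero]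
    intro hinj
    exact zero_ne_one (hinj (Subsingleton.elim (algebraMap ℂ _ 0) (algebraMap ℂ _ 1)))

/-- the parameter -/
lemma finite_param_aff {γ δ : Fin n → ℂ} (hn : 0 < n) (hγδ : ∀ i, γ i ≠ δ i) {lam : Fin n → ℂ}
    (hl : ∀ i, lam i ≠ 0) (a : Fin n → ℂ) {T : Set (Fin n → ℂ)}
    (hT : (affine lam a (moebius γ δ (diag n)) ∩ T).Finite) :
    {t : ℂ | (fun i => lam i * ((t - γ i) / (t - δ i)) + a i) ∈ T}.Finite := by
  refine finite_param hn hγδ hl (T := {x | (fun i => x i + a i) ∈ T}) ?_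
  refine Set.Finite.of_finite_image (f := fun x i => x i + a i) (hT.subset ?_) ?_
  · rintro _ ⟨x, ⟨hx1, hx2⟩, rfl⟩
    refine ⟨?_, hx2⟩
    change (fun i => (x i + a i - a i) / lam i) ∈ moebius γ δ (diag n)
    have h1 : (fun i => (x i + a i - a i) / lam i) = fun i => x i / lam i := by
      funext i
      rw [add_sub_cancel_right]
    rw [h1]
    exact hx1
  · intro x _ y _ hxy
    funext i
    exact add_right_cancel (congrFun hxy i)

end Pool.Agent.Helper36.DL
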