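import Pool.Agent.Helper36.DL.Moebius
import Pool.Agent.Helper20.ZT.Moeb

/-! # Subvarieties defined over the algebraic numbers -/

open MvPolynomial Finset

namespace Pool.Agent.Helper36.DL
open Pool.Agent.Helper11.ZP Pool.Agent.Helper11.ZU Pool.Agent.Helper11.LC Pool.Agent.Helper20.ZD
  Pool.Agent.Helper20.ZT

variable {n : ℕ}

/-- `V` is given by equations with algebraic coefficients -/
def OverAlg (V : Set (Fin n → ℂ)) : Prop :=
  ∃ s : Set (MvPolynomial (Fin n) ℂ), (∀ f ∈ s, ∀ m, IsAlgebraic ℚ (f.coeff m)) ∧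
    V = {z | ∀ f ∈ s, eval z f = 0}

/-- a map of the coefficients -/
noncomputable def mapC (φ : ℂ →ₗ[algebraicClosure ℚ ℂ] algebraicClosure ℚ ℂ) (f : MvPolynomial (Fin n) ℂ) :
    MvPolynomial (Fin n) ℂ := ∑ m ∈ f.support, monomial m ((φ (f.coeff m) : algebraicClosure ℚ ℂ) : ℂ)

variable (φ : ℂ →ₗ[algebraicClosure ℚ ℂ] algebraicClosure ℚ ℂ)

lemma coeff_mapC (f : MvPolynomial (Fin n) ℂ) (m : Fin n →₀ ℕ) :
    (mapC φ f).coeff m = ((φ (f.coeff m) : algebraicClosure ℚ ℂ) : ℂ) := by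
  classical
  rw [mapC, coeff_sum]
  simp only [coeff_monomial]
  rw [Finset.sum_ite_eq' f.support m]
  split_ifs with h
  · rfl
  · rw [notMem_support_iff.1 h, map_zero]
    rfl

lemma mapC_add (f g : MvPolynomial (Fin n) ℂ) : mapC φ (f + g) = mapC φ f + mapC φ g := by
  ext m
  rw [coeff_add, coeff_mapC, coeff_mapC, coeff_mapC, coeff_add, map_add]
  rfl

lemma mapC_zero : mapC φ (0 : MvPolynomial (Fin n) ℂ) = 0 := by
  ext m
  rw [coeff_mapC, coeff_zero, map_zero]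
  rfl

lemma mapC_mul (a f : MvPolynomial (Fin n) ℂ) (hf : ∀ m, IsAlgebraic ℚ (f.coeff m)) :
    mapC φ (a * f) = mapC φ a * f := by
  classical
  ext m
  rw [coeff_mapC, coeff_mul, coeff_mul, map_sum]
  rw [show ((∑ x ∈ antidiagonal m, φ (a.coeff x.1 * f.coeff x.2) : algebraicClosure ℚ ℂ) : ℂ) =
    ∑ x ∈ antidiagonal m, ((φ (a.coeff x.1 * f.coeff x.2) : algebraicClosure ℚ ℂ) : ℂ) by
      push_cast; rfl]
  refine Finset.sum_congr rfl fun x _ => ?_
  rw [coeff_mapC]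
  have h2 : a.coeff x.1 * f.coeff x.2 = (⟨f.coeff x.2, mem_algebraicClosure_iff.2 (hf x.2)⟩ :
      algebraicClosure ℚ ℂ) • a.coeff x.1 := by
    rw [mul_comm]; rfl
  rw [h2, map_smul]
  change f.coeff x.2 * _ = _
  rw [mul_comm]

lemma mapC_mem {s : Set (MvPolynomial (Fin n) ℂ)} (hs : ∀ f ∈ s, ∀ m, IsAlgebraic ℚ (f.coeff m))
    {g : MvPolynomial (Fin n) ℂ} (hg : g ∈ Ideal.span s) : mapC φ g ∈ Ideal.span s := by
  suffices h : ∀ a, mapC φ (a * g) ∈ Ideal.span s by simpa using h 1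
  induction hg using Submodule.span_induction with
  | mem f hf =>
    intro a
    rw [mapC_mul φ a f (hs f hf)]
    exact Ideal.mul_mem_left _ _ (Ideal.subset_span hf)
  | zero =>
    intro a
    rw [mul_zero, mapC_zero]
    exact zero_mem _
  | add x y _ _ hx hy =>
    intro a
    rw [mul_add, mapC_add]
    exact add_mem (hx a) (hy a)
  | smul b x _ hx =>
    intro a
    rw [smul_eq_mul, ← mul_assoc]
    exact hx (a * b)

/-- **descent of the algebraic dependence** -/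
theorem algDependent_of_overAlg {V : Set (Fin n → ℂ)} (hV : IsSubvariety V) (hs : OverAlg V) :
    AlgDependent (dim V) V := by
  classical
  intro J hJ
  obtain ⟨g, hg0, hgJ, hgV⟩ := exists_dep hV (J := J) (by omega)
  obtain ⟨s, hs, hVs⟩ := hs
  have h1 : V = zeroLocus ℂ (Ideal.span s) := by
    rw [zeroLocus_span, hVs]
    rfl
  have h2 : g ∈ vanishingIdeal ℂ (zeroLocus ℂ (Ideal.span s)) := by
    rw [← h1]
    exact mem_van.2 hgV
  rw [vanishingIdeal_zeroLocus_eq_radical] at h2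
  obtain ⟨k, hk⟩ := h2
  have hk0 : g ^ k ≠ 0 := pow_ne_zero _ hg0
  obtain ⟨m₀, hm₀⟩ := support_nonempty.2 hk0
  rw [mem_support_iff] at hm₀
  -- a functional
  let L : algebraicClosure ℚ ℂ →ₗ[algebraicClosure ℚ ℂ] ℂ := LinearMap.toSpanSingleton _ _ ((g ^ k).coeff m₀)
  have hL : LinearMap.ker L = ⊥ := by
    rw [LinearMap.ker_eq_bot']
    intro a ha
    have h3 : a • (g ^ k).coeff m₀ = 0 := ha
    exact (smul_eq_zero.1 h3).resolve_right hm₀
  obtain ⟨φ, hφ⟩ := L.exists_leftInverse_of_injective hL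
  have hφ1 : φ ((g ^ k).coeff m₀) = 1 := by
    have h3 := LinearMap.congr_fun hφ 1
    have h4 : L 1 = (g ^ k).coeff m₀ := by
      change (1 : algebraicClosure ℚ ℂ) • (g ^ k).coeff m₀ = _
      rw [one_smul]
    rw [LinearMap.comp_apply, h4] at h3
    exact h3
  refine ⟨mapC φ (g ^ k), ?_, ?_, ?_, ?_⟩
  · intro h0
    have h3 := coeff_mapC φ (g ^ k) m₀
    rw [h0, hφ1, coeff_zero] at h3
    exact zero_ne_one h3
  · intro i hi
    obtain ⟨m, hm, hmi⟩ := (mem_vars_iff_mem_support i).1 hi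
    rw [mem_support_iff, coeff_mapC] at hm
    have h3 : (g ^ k).coeff m ≠ 0 := by
      intro h0
      rw [h0, map_zero] at hm
      exact hm rfl
    exact hgJ (vars_pow g k ((mem_vars_iff_mem_support i).2 ⟨m, mem_support_iff.2 h3, hmi⟩))
  · intro m
    rw [coeff_mapC]
    exact mem_algebraicClosure_iff.1 (φ ((g ^ k).coeff m)).2
  · have h3 := mapC_mem φ hs hk
    have h4 : mapC φ (g ^ k) ∈ vanishingIdeal ℂ V := by
      rw [h1]
      exact le_vanishingIdeal_zeroLocus _ h3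
    exact mem_van.1 h4

/-- **general position after a Möbius transformation**, for subvarieties over the algebraic numbers -/
theorem general_moebius {V : Set (Fin n → ℂ)} (hV : IsSubvariety V) (hs : OverAlg V) (hc : NonConst V) :
    ∃ P : MvPolynomial (Fin n ⊕ Fin n) ℂ, P ≠ 0 ∧ ∀ γ δ : Fin n → ℂ, (∀ i, IsAlgebraic ℚ (γ i)) →
      (∀ i, IsAlgebraic ℚ (δ i)) → eval (Sum.elim γ δ) P ≠ 0 →
        IsSubvariety (moebius γ δ V) ∧ dim (moebius γ δ V) = dim V ∧ NonConst (moebius γ δ V) ∧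
          CornerPos (dim V) (moebius γ δ V) := by
  obtain ⟨P, hP0, hP⟩ := cornerPos_moebius (algDependent_of_overAlg hV hs)
  refine ⟨P, hP0, fun γ δ hγ hδ h => ?_⟩
  obtain ⟨h1, h2⟩ := hP γ δ hγ hδ h
  exact ⟨isSubvariety_moebius hV hc γ δ, dim_moebius hV hc h1, nonConst_moebius hV hc h1, h2⟩

end Pool.Agent.Helper36.DL
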