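import Pool.Agent.Helper36.DL.UnifLoc
import Pool.Agent.Helper36.ZU.Rat

/-! # Images of curves under polynomial maps -/

open MvPolynomial Finset

namespace Pool.Agent.Helper36.DL
open Pool.Agent.Helper11.ZP Pool.Agent.Helper11.ZU Pool.Agent.Helper20.ZD

variable {r n : ℕ}

/-- the image of `V` under the polynomial map `L` -/
def pImage (L : Fin n → MvPolynomial (Fin r) ℂ) (V : Set (Fin r → ℂ)) : Set (Fin n → ℂ) :=
  {x | ∃ w ∈ V, x = fun i => eval w (L i)}

/-- its Zariski closure -/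
def pClosure (L : Fin n → MvPolynomial (Fin r) ℂ) (V : Set (Fin r → ℂ)) : Set (Fin n → ℂ) :=
  zeroLocus ℂ (vanishingIdeal ℂ (pImage L V))

variable {L : Fin n → MvPolynomial (Fin r) ℂ} {V : Set (Fin r → ℂ)}

lemma eval_aeval (L : Fin n → MvPolynomial (Fin r) ℂ) (w : Fin r → ℂ) (f : MvPolynomial (Fin n) ℂ) :
    eval w (aeval L f) = eval (fun i => eval w (L i)) f := by
  have h2 : ((aeval w : MvPolynomial (Fin r) ℂ →ₐ[ℂ] ℂ).comp (aeval L)) = aeval fun i => eval w (L i) := by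
    ext i
    simp [aeval_eq_eval]
  have h3 := DFunLike.congr_fun h2 f
  simpa [aeval_eq_eval] using h3

lemma van_pImage (L : Fin n → MvPolynomial (Fin r) ℂ) (V : Set (Fin r → ℂ)) :
    vanishingIdeal ℂ (pImage L V) =
      (vanishingIdeal ℂ V).comap (aeval L : MvPolynomial (Fin n) ℂ →ₐ[ℂ] MvPolynomial (Fin r) ℂ) := by
  ext f
  rw [Ideal.mem_comap, mem_van, mem_van]
  constructor
  · intro h w hw
    change eval w (aeval L f) = 0
    rw [eval_aeval]
    exact h _ ⟨w, hw, rfl⟩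
  · rintro h _ ⟨w, hw, rfl⟩
    rw [← eval_aeval]
    exact h w hw

lemma pImage_subset : pImage L V ⊆ pClosure L V := zeroLocus_vanishingIdeal_le _

lemma van_pClosure (L : Fin n → MvPolynomial (Fin r) ℂ) (V : Set (Fin r → ℂ)) :
    vanishingIdeal ℂ (pClosure L V) = vanishingIdeal ℂ (pImage L V) := by
  apply le_antisymm
  · exact vanishingIdeal_anti_mono (zeroLocus_vanishingIdeal_le _)
  · exact le_vanishingIdeal_zeroLocus _

theorem isSubvariety_pClosure (hV : IsSubvariety V) : IsSubvariety (pClosure L V) := by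
  have := van_prime hV
  exact ⟨_, Ideal.comap_isPrime _ _, by rw [pClosure, van_pImage]⟩

theorem dim_pClosure_le (hV : IsSubvariety V) (L : Fin n → MvPolynomial (Fin r) ℂ) :
    dim (pClosure L V) ≤ dim V := by
  have hI := van_prime hV
  have h1 : vanishingIdeal ℂ (pClosure L V) =
      (vanishingIdeal ℂ V).comap (aeval L : MvPolynomial (Fin n) ℂ →ₐ[ℂ] MvPolynomial (Fin r) ℂ) := by
    rw [van_pClosure, van_pImage]
  have h2 := trdeg_le_of_injective (Ideal.quotientMapₐ (vanishingIdeal ℂ V)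
    (aeval L : MvPolynomial (Fin n) ℂ →ₐ[ℂ] MvPolynomial (Fin r) ℂ) h1.le)
    (Ideal.quotientMap_injective' (H := h1.le) h1.ge)
  have hdom : IsDomain (MvPolynomial (Fin r) ℂ ⧸ vanishingIdeal ℂ V) := Ideal.Quotient.isDomain _
  rw [dim, dim]
  exact Cardinal.toNat_le_toNat h2 trdeg_lt_aleph0_of_finiteType

theorem nonConst_pClosure (h : ∀ i, ∃ w ∈ V, ∃ w' ∈ V, eval w (L i) ≠ eval w' (L i)) (i : Fin n) (c : ℂ) :
    ∃ x ∈ pClosure L V, x i ≠ c := by
  obtain ⟨w, hw, w', hw', hne⟩ := h i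
  by_cases hc : eval w (L i) = c
  · exact ⟨_, pImage_subset ⟨w', hw', rfl⟩, fun h => hne (hc.trans h.symm)⟩
  · exact ⟨_, pImage_subset ⟨w, hw, rfl⟩, hc⟩

theorem dim_pClosure (hV : IsSubvariety V) (h1 : dim V = 1) (hn : 0 < n)
    (h : ∀ i, ∃ w ∈ V, ∃ w' ∈ V, eval w (L i) ≠ eval w' (L i)) : dim (pClosure L V) = 1 := by
  have h2 := dim_pClosure_le hV L
  rw [h1] at h2
  rcases Nat.eq_zero_or_pos (dim (pClosure L V)) with h0 | h0
  · exfalso
    obtain ⟨c, hc⟩ := Pool.Agent.Helper36.ZU.eq_point (isSubvariety_pClosure hV) h0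
    obtain ⟨x, hx, hne⟩ := nonConst_pClosure h ⟨0, hn⟩ (c ⟨0, hn⟩)
    rw [hc, Set.mem_singleton_iff] at hx
    rw [hx] at hne
    exact hne rfl
  · omega

end Pool.Agent.Helper36.DL
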