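import Mathlib

/-! # The `p`-adic absolute value extends to `ℂ` -/

open Cardinal

namespace Pool.Agent.Helper36.DL

lemma mk_padic_le (p : ℕ) [Fact p.Prime] : #(ℚ_[p]) ≤ 𝔠 := by
  have h1 : #(CauSeq ℚ (padicNorm p)) ≤ #(ℕ → ℚ) := by
    refine Cardinal.mk_le_of_injective (f := fun x => (x : ℕ → ℚ)) ?_
    intro x y h
    exact CauSeq.ext fun i => congrFun h i
  have h2 : #(ℕ → ℚ) = 𝔠 := by
    rw [← Cardinal.power_def, Cardinal.mk_nat, Cardinal.mkRat, Cardinal.aleph0_power_aleph0]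
  have h3 : #(ℚ_[p]) ≤ #(CauSeq ℚ (padicNorm p)) :=
    Cardinal.mk_le_of_surjective (f := fun x => (Quotient.mk _ x : CauSeq.Completion.Cauchy (padicNorm p)))
      (Quotient.mk_surjective)
  exact h3.trans (h1.trans h2.le)

lemma mk_padic (p : ℕ) [Fact p.Prime] : #(ℚ_[p]) = 𝔠 :=
  le_antisymm (mk_padic_le p) (continuum_le_cardinal_of_nontriviallyNormedField ℚ_[p])

lemma mk_padicAlgCl (p : ℕ) [Fact p.Prime] : #(PadicAlgCl p) = 𝔠 := by
  refine le_antisymm ?_ ?_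
  · have h := Algebra.IsAlgebraic.cardinalMk_le_max ℚ_[p] (PadicAlgCl p)
    rw [mk_padic] at h
    exact h.trans (max_le le_rfl Cardinal.aleph0_le_continuum)
  · rw [← mk_padic p]
    exact Cardinal.mk_le_of_injective (algebraMap ℚ_[p] (PadicAlgCl p)).injective

/-- **the `p`-adic absolute value extends to `ℂ`** -/
theorem exists_place {p : ℕ} (hp : p.Prime) : ∃ v : AbsoluteValue ℂ ℝ, IsNonarchimedean v ∧
    v (p : ℂ) = (p : ℝ)⁻¹ := by
  have := Fact.mk hp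
  obtain ⟨e⟩ := IsAlgClosed.ringEquiv_of_equiv_of_charZero (K := ℂ) (L := PadicAlgCl p)
    (by rw [Cardinal.mk_complex]; exact Cardinal.aleph0_lt_continuum)
    (Cardinal.eq.1 (by rw [Cardinal.mk_complex, mk_padicAlgCl]))
  refine ⟨⟨⟨fun x => ‖e x‖, fun x y => ?_⟩, fun x => norm_nonneg _, fun x => ?_, fun x y => ?_⟩, ?_, ?_⟩
  · rw [map_mul, norm_mul]
  · change ‖e x‖ = 0 ↔ x = 0
    rw [norm_eq_zero, EmbeddingLike.map_eq_zero_iff]
  · change ‖e (x + y)‖ ≤ ‖e x‖ + ‖e y‖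
    rw [map_add]
    exact norm_add_le _ _
  · intro x y
    change ‖e (x + y)‖ ≤ max ‖e x‖ ‖e y‖
    rw [map_add]
    exact PadicAlgCl.isNonarchimedean p _ _
  · change ‖e (p : ℂ)‖ = _
    rw [map_natCast]
    have h := PadicAlgCl.norm_extends p (p : ℚ_[p])
    rw [Padic.norm_p] at h
    rw [← h]
    congr 1

end Pool.Agent.Helper36.DL
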