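import Pool.Agent.Helper36.DL.Final

/-! # Affine images: the conclusion from the three cases -/

open MvPolynomial Finset

namespace Pool.Agent.Helper36.DL
open Pool.Agent.Helper11.ZP Pool.Agent.Helper11.ZU Pool.Agent.Helper11.LC Pool.Agent.Helper20.ZD
  Pool.Agent.Helper20.ZT Pool.Agent.Helper20.ZT.Prim

variable {n : ℕ} {v : AbsoluteValue ℂ ℝ}

/-- the affine image `lam · Z + a` -/
def affine (lam a : Fin n → ℂ) (Z : Set (Fin n → ℂ)) : Set (Fin n → ℂ) := {x | (fun i => (x i - a i) / lam i) ∈ Z}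

/-- the automorphism `X_i ↦ (X_i - a_i) / lam_i` -/
noncomputable def affEquiv (lam a : Fin n → ℂ) (h : ∀ i, lam i ≠ 0) :
    MvPolynomial (Fin n) ℂ ≃ₐ[ℂ] MvPolynomial (Fin n) ℂ :=
  AlgEquiv.ofAlgHom (aeval fun i => C (lam i)⁻¹ * (X i - C (a i))) (aeval fun i => C (lam i) * X i + C (a i))
    (by
      ext i
      simp only [AlgHom.comp_apply, aeval_X, map_mul, map_add, aeval_C, algebraMap_eq, AlgHom.id_apply]
      rw [← mul_assoc, ← C_mul, mul_inv_cancel₀ (h i), C_1, one_mul, sub_add_cancel])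
    (by
      ext i
      simp only [AlgHom.comp_apply, aeval_X, map_mul, map_sub, aeval_C, algebraMap_eq, AlgHom.id_apply]
      rw [add_sub_cancel_right, ← mul_assoc, ← C_mul, inv_mul_cancel₀ (h i), C_1, one_mul])

lemma eval_aff (lam a : Fin n → ℂ) (h : ∀ i, lam i ≠ 0) (x : Fin n → ℂ) (f : MvPolynomial (Fin n) ℂ) :
    eval x (affEquiv lam a h f) = eval (fun i => (x i - a i) / lam i) f := by
  change eval x (aeval (fun i => C (lam i)⁻¹ * (X i - C (a i))) f) = _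
  have h2 : ((aeval x : MvPolynomial (Fin n) ℂ →ₐ[ℂ] ℂ).comp
      (aeval fun i => C (lam i)⁻¹ * (X i - C (a i)))) = aeval fun i => (x i - a i) / lam i := by
    ext i
    simp [div_eq_inv_mul]
  have h3 := DFunLike.congr_fun h2 f
  simpa [aeval_eq_eval] using h3

lemma aff_inv {lam : Fin n → ℂ} (h : ∀ i, lam i ≠ 0) (a x : Fin n → ℂ) :
    (fun i => (lam i * x i + a i - a i) / lam i) = x := by
  funext i
  rw [add_sub_cancel_right, mul_comm, mul_div_assoc, div_self (h i), mul_one]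

lemma van_affine (lam a : Fin n → ℂ) (h : ∀ i, lam i ≠ 0) (Z : Set (Fin n → ℂ)) :
    vanishingIdeal ℂ Z = (vanishingIdeal ℂ (affine lam a Z)).comap (affEquiv lam a h) := by
  ext f
  rw [Ideal.mem_comap, mem_van, mem_van]
  constructor
  · intro hf x hx
    rw [eval_aff]
    exact hf _ hx
  · intro hf x hx
    have h1 := hf (fun i => lam i * x i + a i) (by
      change (fun i => (lam i * x i + a i - a i) / lam i) ∈ Z
      rw [aff_inv h]
      exact hx)
    rw [eval_aff, aff_inv h] at h1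
    exact h1

theorem isSubvariety_affine {lam : Fin n → ℂ} (h : ∀ i, lam i ≠ 0) (a : Fin n → ℂ) {Z : Set (Fin n → ℂ)}
    (hZ : IsSubvariety Z) : IsSubvariety (affine lam a Z) := by
  obtain ⟨I, hI, rfl⟩ := hZ
  refine ⟨I.comap (affEquiv lam a h).symm, hI.comap _, ?_⟩
  ext x
  change (fun i => (x i - a i) / lam i) ∈ zeroLocus ℂ I ↔ _
  rw [mem_zeroLocus_iff, mem_zeroLocus_iff]
  constructor
  · intro hx f hf
    rw [aeval_eq_eval]
    have h1 := hx _ (Ideal.mem_comap.1 hf)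
    rw [aeval_eq_eval] at h1
    change eval (fun i => (x i - a i) / lam i) ((affEquiv lam a h).symm f) = 0 at h1
    rw [← eval_aff lam a h, AlgEquiv.apply_symm_apply] at h1
    exact h1
  · intro hx f hf
    have h1 := hx (affEquiv lam a h f) (by
      rw [Ideal.mem_comap]
      change (affEquiv lam a h).symm (affEquiv lam a h f) ∈ I
      rwa [AlgEquiv.symm_apply_apply])
    rw [aeval_eq_eval] at h1 ⊢
    change eval x (affEquiv lam a h f) = 0 at h1
    rw [eval_aff] at h1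
    exact h1

theorem dim_affine {lam : Fin n → ℂ} (h : ∀ i, lam i ≠ 0) (a : Fin n → ℂ) (Z : Set (Fin n → ℂ)) :
    dim (affine lam a Z) = dim Z := by
  have h1 : Ideal.map (affEquiv lam a h) (vanishingIdeal ℂ Z) = vanishingIdeal ℂ (affine lam a Z) := by
    rw [van_affine lam a h Z, Ideal.map_comap_of_surjective _ (affEquiv lam a h).surjective]
  rw [dim, dim, (Ideal.quotientEquivAlg _ _ (affEquiv lam a h) h1.symm).trdeg_eq]

/-- **case A**: a special coordinate (here only `v (lam_i z_i + a_i) ≤ 1` is used) and an isogeny -/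
def AffA (v : AbsoluteValue ℂ ℝ) (Z : Set (Fin n → ℂ)) (lam a : Fin n → ℚ) : Prop :=
  ∃ B : ℕ, ∀ z ∈ Z, ∀ (i k l : Fin n) (N : ℕ), v (lam i * z i + a i) ≤ 1 → v (z k) = 1 → v (z l) = 1 →
    i ≠ k → i ≠ l → k ≠ l → CyclicIsog N (lam k * z k + a k) (lam l * z l + a l) → N ≤ B

/-- **case B**: two isogenies between coordinates of absolute value `1`; `k = i` and `k = j` are allowed -/
def AffB (v : AbsoluteValue ℂ ℝ) (Z : Set (Fin n → ℂ)) (lam a : Fin n → ℚ) : Prop :=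
  ∃ B : ℕ, ∀ z ∈ Z, ∀ (i j k l : Fin n) (N N' : ℕ), v (z i) = 1 → v (z j) = 1 → v (z k) = 1 → v (z l) = 1 →
    i ≠ j → k ≠ l → l ≠ i → l ≠ j → CyclicIsog N (lam i * z i + a i) (lam j * z j + a j) →
      CyclicIsog N' (lam k * z k + a k) (lam l * z l + a l) → N' ≤ B

/-- **case C**: the coordinate `e` is not of absolute value `1`, `k = j` is allowed -/
def AffC (v : AbsoluteValue ℂ ℝ) (Z : Set (Fin n → ℂ)) (lam a : Fin n → ℚ) : Prop :=
  ∃ B : ℕ, ∀ z ∈ Z, ∀ (e j k l : Fin n) (N N' : ℕ), v (z e) ≠ 1 → v (z j) = 1 → v (z k) = 1 → v (z l) = 1 →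
    1 < v (lam e * z e + a e) → e ≠ j → e ≠ k → e ≠ l → k ≠ l → l ≠ j →
      CyclicIsog N (lam e * z e + a e) (lam j * z j + a j) →
        CyclicIsog N' (lam k * z k + a k) (lam l * z l + a l) → N' ≤ B

/-- the three cases at a point -/
lemma pointData_aff (hv : IsNonarchimedean v) {Z : Set (Fin n → ℂ)} {lam a : Fin n → ℚ}
    (hlam : ∀ i, 1 < v (lam i : ℂ)) (ha : ∀ i, v (a i : ℂ) < v (lam i : ℂ))
    (hcor : Corners v 1 (fun i => (lam i : ℂ)) (dilate (fun i => (lam i : ℂ)) Z)) {B : ℕ}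
    (hA : ∀ z ∈ Z, ∀ (i k l : Fin n) (N : ℕ), v (lam i * z i + a i) ≤ 1 → v (z k) = 1 → v (z l) = 1 →
      i ≠ k → i ≠ l → k ≠ l → CyclicIsog N (lam k * z k + a k) (lam l * z l + a l) → N ≤ B)
    (hB : ∀ z ∈ Z, ∀ (i j k l : Fin n) (N N' : ℕ), v (z i) = 1 → v (z j) = 1 → v (z k) = 1 → v (z l) = 1 →
      i ≠ j → k ≠ l → l ≠ i → l ≠ j → CyclicIsog N (lam i * z i + a i) (lam j * z j + a j) →
        CyclicIsog N' (lam k * z k + a k) (lam l * z l + a l) → N' ≤ B)
    (hC : ∀ z ∈ Z, ∀ (e j k l : Fin n) (N N' : ℕ), v (z e) ≠ 1 → v (z j) = 1 → v (z k) = 1 → v (z l) = 1 →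
      1 < v (lam e * z e + a e) → e ≠ j → e ≠ k → e ≠ l → k ≠ l → l ≠ j →
        CyclicIsog N (lam e * z e + a e) (lam j * z j + a j) →
          CyclicIsog N' (lam k * z k + a k) (lam l * z l + a l) → N' ≤ B)
    {x : Fin n → ℂ} (hx : x ∈ affine (fun i => (lam i : ℂ)) (fun i => (a i : ℂ)) Z) :
    ∃ E : Set (Fin n), PointData B E x := by
  classical
  set z : Fin n → ℂ := fun i => (x i - a i) / lam i with hz
  have hzZ : z ∈ Z := hx
  have hl0 : ∀ i, (lam i : ℂ) ≠ 0 := fun i h => by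
    have := hlam i
    rw [h, map_zero] at this
    exact absurd this (by norm_num)
  have hxz : ∀ i, x i = lam i * z i + a i := fun i => by
    rw [hz]
    change x i = lam i * ((x i - a i) / lam i) + a i
    rw [mul_div_cancel₀ _ (hl0 i), sub_add_cancel]
  have hunit : ∀ i, i ∉ {i | v (z i) ≠ 1} → v (z i) = 1 := fun i hi => by
    simpa using hi
  have hbig : ∀ i, v (z i) = 1 → 1 < v (x i) := fun i hi => by
    have h1 : v (lam i * z i) = v (lam i : ℂ) := by rw [map_mul, hi, mul_one]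
    rw [hxz, v_add_eq hv (by rw [h1]; exact ha i), h1]
    exact hlam i
  have hyd : (fun i => lam i * z i) ∈ dilate (fun i => (lam i : ℂ)) Z := by
    change (fun i => lam i * z i / lam i) ∈ Z
    have : (fun i => lam i * z i / lam i) = z := by
      funext i
      rw [mul_comm, mul_div_assoc, div_self (hl0 i), mul_one]
    rwa [this]
  have hatM : ∀ i ∈ {i | v (z i) ≠ 1}, ∀ j ∈ {i | v (z i) ≠ 1}, i = j := by
    intro i hi j hj
    by_contra hij
    have h1 := card_le_of_corners hv hcor hyd (J := {i, j}) (by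
      intro k hk hk2
      have h2 : v (z k) = 1 := by
        have h3 : v (lam k : ℂ) * v (z k) = v (lam k : ℂ) := by rw [← map_mul]; exact hk2
        have h4 : v (lam k : ℂ) ≠ 0 := (AbsoluteValue.ne_zero_iff v).2 (hl0 k)
        exact (mul_eq_left₀ h4).1 h3
      rw [mem_insert, mem_singleton] at hk
      rcases hk with rfl | rfl
      · exact hi h2
      · exact hj h2)
    rw [card_pair hij] at h1
    omega
  have hsp : ∀ i, IsSpecialPoint (x i) → v (x i) ≤ 1 := fun i hi =>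
    mem_vring.1 (mem_of_isIntegral_int (vring v hv) hi.isIntegral)
  refine ⟨{i | v (z i) ≠ 1}, hatM, fun i hi h => not_lt.2 (hsp i hi) (hbig i h), ?_, ?_, ?_⟩
  · intro i k l N hi hki hli hkl hN
    have hiE : v (z i) ≠ 1 := fun h => not_lt.2 (hsp i hi) (hbig i h)
    rw [hxz k, hxz l] at hN
    refine hA z hzZ i k l N (by rw [← hxz]; exact hsp i hi) (hunit k fun h => hki (hatM k h i hiE))
      (hunit l fun h => hli (hatM l h i hiE)) hki.symm hli.symm hkl hN
  · intro i j k l N N' hi hj hk hl hij hkl hli hlj hN hN'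
    rw [hxz i, hxz j] at hN
    rw [hxz k, hxz l] at hN'
    exact hB z hzZ i j k l N N' (hunit i hi) (hunit j hj) (hunit k hk) (hunit l hl) hij hkl hli hlj hN hN'
  · intro e j k l N N' he hej hek hel hkl hlj hN hN'
    have hj1 := hunit j fun h => hej (hatM e he j h)
    have hN0 : 0 < N := by
      rcases Nat.eq_zero_or_pos N with rfl | h
      · obtain ⟨τ, τ', h, -, -⟩ := hN
        rw [Nat.cast_zero, zero_mul] at h
        exact absurd h τ'.ne_zero
      · exact h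
    have hbe := one_lt_of_isog hv hN hN0 (hbig j hj1)
    rw [hxz e] at hbe
    rw [hxz e, hxz j] at hN
    rw [hxz k, hxz l] at hN'
    exact hC z hzZ e j k l N N' he hj1 (hunit k fun h => hek (hatM e he k h))
      (hunit l fun h => hel (hatM e he l h)) hbe hej hek hel hkl hlj hN hN'

/-- the absolute value of a rational number -/
lemma v_rat_zpow (hv : IsNonarchimedean v) {p : ℕ} (hp : p.Prime) (hvp : v (p : ℂ) < 1) {q : ℚ} (hq0 : q ≠ 0) :
    v (q : ℂ) = v (p : ℂ) ^ padicValRat p q := by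
  have := Fact.mk hp
  have hp0 : (p : ℚ) ≠ 0 := by exact_mod_cast hp.ne_zero
  have hpC : (p : ℂ) ≠ 0 := by exact_mod_cast hp.ne_zero
  have hvp0 : v (p : ℂ) ≠ 0 := (AbsoluteValue.ne_zero_iff v).2 hpC
  set k := padicValRat p q with hk
  -- multiply by a power of `p` to get valuation `-1`
  set r : ℚ := q * (p : ℚ) ^ (-1 - k) with hr
  have hr0 : r ≠ 0 := mul_ne_zero hq0 (zpow_ne_zero _ hp0)
  have h1 : padicValRat p r = -((1 : ℕ) : ℤ) := by
    rw [hr, padicValRat.mul hq0 (zpow_ne_zero _ hp0), padicValRat.zpow, padicValRat.self hp.one_lt, ← hk]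
    push_cast
    ring
  have h2 := v_rat hv hp hvp h1 one_pos
  rw [pow_one, hr] at h2
  push_cast at h2
  rw [map_mul, map_zpow₀, mul_assoc, ← zpow_add_one₀ hvp0, show -1 - k + 1 = -k by ring, zpow_neg] at h2
  exact (eq_of_div_eq_one (by rw [div_eq_mul_inv]; exact h2))

/-- **the theorem on affine images from the three cases** -/
theorem affine_of_cases {Z : Set (Fin n → ℂ)} (hZ : IsSubvariety Z) (h1 : dim Z = 1)
    (hc : ∀ (i : Fin n) (c : ℂ), ∃ z ∈ Z, z i ≠ c) (hcor : CornerPos 1 Z)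
    (hcases : ∃ M : ℕ, 0 < M ∧ ∀ p : ℕ, p.Prime → ¬ p ∣ M → ∀ v : AbsoluteValue ℂ ℝ, IsNonarchimedean v →
      v (p : ℂ) < 1 → ∀ m : ℕ, 1 ≤ m → ∀ lam a : Fin n → ℚ, (∀ i, v (lam i : ℂ) * v (p : ℂ) ^ m = 1) →
        (∀ i, v (a i : ℂ) * v (p : ℂ) ^ m ≤ v (p : ℂ)) → AffA v Z lam a ∧ AffB v Z lam a ∧ AffC v Z lam a) :
    ∃ M : ℕ, 0 < M ∧ ∀ p : ℕ, p.Prime → ¬ p ∣ M → ∀ m : ℕ, 1 ≤ m → ∀ lam a : Fin n → ℚ,
      (∀ i, padicValRat p (lam i) = -(m : ℤ)) → (∀ i, a i = 0 ∨ -(m : ℤ) < padicValRat p (a i)) →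
        {x ∈ affine (fun i => (lam i : ℂ)) (fun i => (a i : ℂ)) Z |
          ∃ S : SpecialData n, dim S.carrier + 2 ≤ n ∧ x ∈ S.carrier}.Finite ∧
        {A | IsAtypical (affine (fun i => (lam i : ℂ)) (fun i => (a i : ℂ)) Z) A ∧
          ∀ B, IsAtypical (affine (fun i => (lam i : ℂ)) (fun i => (a i : ℂ)) Z) B → A ⊆ B → B = A}.Finite ∧
        ∀ S : SpecialData n, dim S.carrier < n →
          ¬ affine (fun i => (lam i : ℂ)) (fun i => (a i : ℂ)) Z ⊆ S.carrier := by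
  obtain ⟨M, hM, hcases⟩ := hcases
  obtain ⟨M', hM', hcor'⟩ := corners_dilate hcor
  refine ⟨M * M', Nat.mul_pos hM hM', fun p hp hpM m hm lam a hlam ha => ?_⟩
  obtain ⟨v, hv, hvp⟩ := exists_place hp
  have hvp1 : v (p : ℂ) < 1 := by
    rw [hvp]
    exact inv_lt_one_of_one_lt₀ (by exact_mod_cast hp.one_lt)
  have hvp0 : 0 < v (p : ℂ) := by
    rw [hvp]
    exact inv_pos.2 (by exact_mod_cast hp.pos)
  have hlam1 : ∀ i, v (lam i : ℂ) * v (p : ℂ) ^ m = 1 := fun i => v_rat hv hp hvp1 (hlam i) (by omega)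
  have hpm : v (p : ℂ) ^ m < 1 := pow_lt_one₀ hvp0.le hvp1 (by omega)
  have hpm0 : 0 < v (p : ℂ) ^ m := pow_pos hvp0 m
  have hlam2 : ∀ i, 1 < v (lam i : ℂ) := by
    intro i
    have h3 := hlam1 i
    by_contra hcon
    push Not at hcon
    have h4 : v (lam i : ℂ) * v (p : ℂ) ^ m < 1 :=
      mul_lt_one_of_nonneg_of_lt_one_right hcon hpm0.le hpm
    rw [h3] at h4
    exact lt_irrefl _ h4
  have ha1 : ∀ i, v (a i : ℂ) * v (p : ℂ) ^ m ≤ v (p : ℂ) := by
    intro i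
    by_cases h0 : a i = 0
    · rw [h0, Rat.cast_zero, map_zero, zero_mul]
      exact hvp0.le
    · have h3 := (ha i).resolve_left h0
      rw [v_rat_zpow hv hp hvp1 h0, ← zpow_natCast, ← zpow_add₀ hvp0.ne']
      calc v (p : ℂ) ^ (padicValRat p (a i) + (m : ℤ)) ≤ v (p : ℂ) ^ (1 : ℤ) :=
            zpow_le_zpow_right_of_le_one₀ hvp0 hvp1.le (by omega)
        _ = v (p : ℂ) := zpow_one _
  have ha2 : ∀ i, v (a i : ℂ) < v (lam i : ℂ) := by
    intro i
    have h3 : v (a i : ℂ) * v (p : ℂ) ^ m < v (lam i : ℂ) * v (p : ℂ) ^ m := by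
      rw [hlam1 i]
      exact lt_of_le_of_lt (ha1 i) hvp1
    exact lt_of_mul_lt_mul_right h3 hpm0.le
  have hl0 : ∀ i, (lam i : ℂ) ≠ 0 := fun i h => by
    have := hlam2 i
    rw [h, map_zero] at this
    exact absurd this (by norm_num)
  obtain ⟨⟨B₁, hA⟩, ⟨B₂, hB⟩, ⟨B₃, hC⟩⟩ :=
    hcases p hp (fun h => hpM (h.mul_right _)) v hv hvp1 m hm lam a hlam1 ha1
  have hcorv := hcor' v hv (v_nat_eq_one hv hp hvp1 fun h => hpM (h.mul_left _)) (fun i => (lam i : ℂ))
  refine conclude (isSubvariety_affine hl0 _ hZ) (by rw [dim_affine hl0, h1]) (fun i c => ?_)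
    (M := max B₁ (max B₂ B₃)) fun x hx => pointData_aff hv hlam2 ha2 hcorv ?_ ?_ ?_ hx
  · obtain ⟨z, hz, hzc⟩ := hc i ((c - a i) / lam i)
    refine ⟨fun j => lam j * z j + a j, ?_, fun h => hzc ?_⟩
    · change (fun j => (lam j * z j + a j - a j) / lam j) ∈ Z
      rw [aff_inv hl0]
      exact hz
    · rw [eq_div_iff (hl0 i), ← h]
      ring
  · exact fun z hz i k l N h1 h2 h3 h4 h5 h6 h7 => (hA z hz i k l N h1 h2 h3 h4 h5 h6 h7).trans (le_max_left _ _)
  · exact fun z hz i j k l N N' h1 h2 h3 h4 h5 h6 h7 h8 h9 h10 =>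
      (hB z hz i j k l N N' h1 h2 h3 h4 h5 h6 h7 h8 h9 h10).trans ((le_max_left _ _).trans (le_max_right _ _))
  · exact fun z hz e j k l N N' h1 h2 h3 h4 h5 h6 h7 h8 h9 h10 h11 h12 =>
      (hC z hz e j k l N N' h1 h2 h3 h4 h5 h6 h7 h8 h9 h10 h11 h12).trans
        ((le_max_right _ _).trans (le_max_right _ _))

end Pool.Agent.Helper36.DL
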