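import Pool.Agent.Helper36.DL.Assemble
import Pool.Agent.Helper36.DL.Place
import Pool.Agent.Helper11.LC.Dil

/-! # Dilates: the conclusion from the three cases -/

open MvPolynomial Finset

namespace Pool.Agent.Helper36.DL
open Pool.Agent.Helper11.ZP Pool.Agent.Helper11.ZU Pool.Agent.Helper11.LC Pool.Agent.Helper20.ZD
  Pool.Agent.Helper20.ZT Pool.Agent.Helper20.ZT.Prim

variable {n : ℕ} {v : AbsoluteValue ℂ ℝ}

/-- an integer which is not divisible by `p` is a unit -/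
lemma v_nat_eq_one (hv : IsNonarchimedean v) {p : ℕ} (hp : p.Prime) (hvp : v (p : ℂ) < 1) {k : ℕ}
    (hk : ¬ p ∣ k) : v (k : ℂ) = 1 := by
  refine le_antisymm (v_nat_le hv k) ?_
  by_contra hcon
  push Not at hcon
  have hcop : IsCoprime (k : ℤ) (p : ℤ) := by
    rw [Int.isCoprime_iff_gcd_eq_one, Int.gcd_natCast_natCast]
    exact (Nat.Coprime.symm ((Nat.Prime.coprime_iff_not_dvd hp).2 hk))
  obtain ⟨a, b, hab⟩ := hcop
  have h1 : ((a : ℤ) : ℂ) * (k : ℂ) + ((b : ℤ) : ℂ) * (p : ℂ) = 1 := by exact_mod_cast hab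
  have h2 : v (((a : ℤ) : ℂ) * (k : ℂ) + ((b : ℤ) : ℂ) * (p : ℂ)) < 1 := by
    refine (hv _ _).trans_lt (max_lt ?_ ?_)
    · rw [map_mul]
      exact mul_lt_one_of_nonneg_of_lt_one_right hv.apply_intCast_le_one (AbsoluteValue.nonneg v _) hcon
    · rw [map_mul]
      exact mul_lt_one_of_nonneg_of_lt_one_right hv.apply_intCast_le_one (AbsoluteValue.nonneg v _) hvp
  rw [h1, map_one] at h2
  exact lt_irrefl _ h2

/-- the absolute value of a rational number -/
lemma v_rat (hv : IsNonarchimedean v) {p : ℕ} (hp : p.Prime) (hvp : v (p : ℂ) < 1) {m : ℕ} {q : ℚ}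
    (hq : padicValRat p q = -(m : ℤ)) (hm : 0 < m) : v (q : ℂ) * v (p : ℂ) ^ m = 1 := by
  have := Fact.mk hp
  have hq0 : q ≠ 0 := by
    rintro rfl
    rw [padicValRat.zero] at hq
    omega
  have hp0 : (p : ℚ) ≠ 0 := by exact_mod_cast hp.ne_zero
  set r : ℚ := q * (p : ℚ) ^ m with hr
  have hr0 : r ≠ 0 := mul_ne_zero hq0 (pow_ne_zero _ hp0)
  have h1 : padicValRat p r = 0 := by
    rw [hr, padicValRat.mul hq0 (pow_ne_zero _ hp0), padicValRat.pow, padicValRat.self hp.one_lt, hq]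
    ring
  have h2 : ¬ p ∣ r.num.natAbs ∧ ¬ p ∣ r.den := by
    rw [padicValRat_def] at h1
    have hnum : r.num.natAbs ≠ 0 := by
      rw [Int.natAbs_ne_zero]; exact Rat.num_ne_zero.2 hr0
    by_cases hd : p ∣ r.den
    · have h3 : ¬ p ∣ r.num.natAbs := by
        intro h
        have h4 := Nat.dvd_gcd h hd
        rw [r.reduced] at h4
        exact hp.one_lt.ne' (Nat.dvd_one.1 h4)
      have h5 : padicValInt p r.num = 0 := by
        rw [padicValInt]; exact padicValNat.eq_zero_of_not_dvd h3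
      have h6 : 0 < padicValNat p r.den := by
        have := one_le_padicValNat_of_dvd r.den_ne_zero hd
        omega
      rw [h5] at h1
      omega
    · refine ⟨fun h => ?_, hd⟩
      have h5 : padicValNat p r.den = 0 := padicValNat.eq_zero_of_not_dvd hd
      have h6 : 0 < padicValInt p r.num := by
        rw [padicValInt]
        have := one_le_padicValNat_of_dvd hnum h
        omega
      rw [h5] at h1
      omega
  have h3 : v (r : ℂ) = 1 := by
    have h4 : (r : ℂ) = (r.num : ℂ) / (r.den : ℂ) := by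
      exact_mod_cast (congrArg (fun x : ℚ => (x : ℂ)) (Rat.num_div_den r)).symm
    rw [h4, map_div₀, v_nat_eq_one hv hp hvp h2.2, div_one]
    rcases Int.natAbs_eq r.num with h | h
    · rw [h, Int.cast_natCast]; exact v_nat_eq_one hv hp hvp h2.1
    · rw [h, Int.cast_neg, Int.cast_natCast, map_neg_eq_map]; exact v_nat_eq_one hv hp hvp h2.1
  rw [← h3, hr]
  push_cast
  rw [map_mul, map_pow]

/-- **case A**: a special coordinate (here only `v (lam_i z_i) ≤ 1` is used) and an isogeny -/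
def CaseA (v : AbsoluteValue ℂ ℝ) (Z : Set (Fin n → ℂ)) (lam : Fin n → ℚ) : Prop :=
  ∃ B : ℕ, ∀ z ∈ Z, ∀ (i k l : Fin n) (N : ℕ), v (lam i * z i) ≤ 1 → v (z k) = 1 → v (z l) = 1 →
    i ≠ k → i ≠ l → k ≠ l → CyclicIsog N (lam k * z k) (lam l * z l) → N ≤ B

/-- **case B**: two isogenies between coordinates of absolute value `1`; `k = i` and `k = j` are allowed -/
def CaseB (v : AbsoluteValue ℂ ℝ) (Z : Set (Fin n → ℂ)) (lam : Fin n → ℚ) : Prop :=
  ∃ B : ℕ, ∀ z ∈ Z, ∀ (i j k l : Fin n) (N N' : ℕ), v (z i) = 1 → v (z j) = 1 → v (z k) = 1 → v (z l) = 1 →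
    i ≠ j → k ≠ l → l ≠ i → l ≠ j → CyclicIsog N (lam i * z i) (lam j * z j) →
      CyclicIsog N' (lam k * z k) (lam l * z l) → N' ≤ B

/-- **case C**: the coordinate `e` is not of absolute value `1`, `k = j` is allowed -/
def CaseC (v : AbsoluteValue ℂ ℝ) (Z : Set (Fin n → ℂ)) (lam : Fin n → ℚ) : Prop :=
  ∃ B : ℕ, ∀ z ∈ Z, ∀ (e j k l : Fin n) (N N' : ℕ), v (z e) ≠ 1 → v (z j) = 1 → v (z k) = 1 → v (z l) = 1 →
    1 < v (lam e * z e) → e ≠ j → e ≠ k → e ≠ l → k ≠ l → l ≠ j →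
      CyclicIsog N (lam e * z e) (lam j * z j) → CyclicIsog N' (lam k * z k) (lam l * z l) → N' ≤ B

/-- isogenous elements are integral at the same time -/
lemma one_lt_of_isog (hv : IsNonarchimedean v) {N : ℕ} {x y : ℂ} (h : CyclicIsog N x y) (hN : 0 < N)
    (hy : 1 < v y) : 1 < v x := by
  by_contra hcon
  push Not at hcon
  have hm : Fact (0 < (N : ℤ)) := ⟨by exact_mod_cast hN⟩
  have h1 := mem_of_rel (K := ℂ) (vring v hv) (primPoly_monic (N : ℤ)) (mem_vring.2 hcon)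
    ((cyclicIsog_iff hN).1 h)
  exact not_lt.2 (mem_vring.1 h1) hy

/-- the three cases at a point -/
lemma pointData (hv : IsNonarchimedean v) {Z : Set (Fin n → ℂ)} {lam : Fin n → ℚ} (hlam : ∀ i, 1 < v (lam i : ℂ))
    (hcor : Corners v 1 (fun i => (lam i : ℂ)) (dilate (fun i => (lam i : ℂ)) Z)) {B : ℕ}
    (hA : ∀ z ∈ Z, ∀ (i k l : Fin n) (N : ℕ), v (lam i * z i) ≤ 1 → v (z k) = 1 → v (z l) = 1 →
      i ≠ k → i ≠ l → k ≠ l → CyclicIsog N (lam k * z k) (lam l * z l) → N ≤ B)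
    (hB : ∀ z ∈ Z, ∀ (i j k l : Fin n) (N N' : ℕ), v (z i) = 1 → v (z j) = 1 → v (z k) = 1 → v (z l) = 1 →
      i ≠ j → k ≠ l → l ≠ i → l ≠ j → CyclicIsog N (lam i * z i) (lam j * z j) →
        CyclicIsog N' (lam k * z k) (lam l * z l) → N' ≤ B)
    (hC : ∀ z ∈ Z, ∀ (e j k l : Fin n) (N N' : ℕ), v (z e) ≠ 1 → v (z j) = 1 → v (z k) = 1 → v (z l) = 1 →
      1 < v (lam e * z e) → e ≠ j → e ≠ k → e ≠ l → k ≠ l → l ≠ j →
        CyclicIsog N (lam e * z e) (lam j * z j) → CyclicIsog N' (lam k * z k) (lam l * z l) → N' ≤ B)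
    {x : Fin n → ℂ} (hx : x ∈ dilate (fun i => (lam i : ℂ)) Z) :
    ∃ E : Set (Fin n), PointData B E x := by
  classical
  set z : Fin n → ℂ := fun i => x i / lam i with hz
  have hzZ : z ∈ Z := hx
  have hl0 : ∀ i, (lam i : ℂ) ≠ 0 := fun i h => by
    have := hlam i
    rw [h, map_zero] at this
    exact absurd this (by norm_num)
  have hxz : ∀ i, x i = lam i * z i := fun i => by
    rw [hz]
    change x i = lam i * (x i / lam i)
    rw [mul_div_cancel₀ _ (hl0 i)]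
  have hunit : ∀ i, i ∉ {i | v (z i) ≠ 1} → v (z i) = 1 := fun i hi => by
    simpa using hi
  have hbig : ∀ i, v (z i) = 1 → 1 < v (x i) := fun i hi => by
    rw [hxz, map_mul, hi, mul_one]
    exact hlam i
  have hatM : ∀ i ∈ {i | v (z i) ≠ 1}, ∀ j ∈ {i | v (z i) ≠ 1}, i = j := by
    intro i hi j hj
    by_contra hij
    have h1 := card_le_of_corners hv hcor hx (J := {i, j}) (by
      intro k hk hk2
      have h2 : v (z k) = 1 := by
        rw [hz]
        change v (x k / lam k) = 1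
        rw [map_div₀, hk2, div_self ((AbsoluteValue.ne_zero_iff v).2 (hl0 k))]
      rw [mem_insert, mem_singleton] at hk
      rcases hk with rfl | rfl
      · exact hi h2
      · exact hj h2)
    rw [card_pair hij] at h1
    omega
  have hsp : ∀ i, IsSpecialPoint (x i) → v (x i) ≤ 1 := fun i hi =>
    mem_vring.1 (mem_of_isIntegral_int (vring v hv) hi.isIntegral)
  refine ⟨{i | v (z i) ≠ 1}, hatM, fun i hi h => not_lt.2 (hsp i hi) (hbig i h), ?_, ?_, ?_⟩
  · intro i k l N hi hki hli hkl hN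
    have hiE : v (z i) ≠ 1 := fun h => not_lt.2 (hsp i hi) (hbig i h)
    rw [hxz k, hxz l] at hN
    refine hA z hzZ i k l N (by rw [← hxz]; exact hsp i hi) (hunit k fun h => hki (hatM k h i hiE))
      (hunit l fun h => hli (hatM l h i hiE)) hki.symm hli.symm hkl hN
  · intro i j k l N N' hi hj hk hl hij hkl hli hlj hN hN'
    rw [hxz i, hxz j] at hN
    rw [hxz k, hxz l] at hN'
    exact hB z hzZ i j k l N N' (hunit i hi) (hunit j hj) (hunit k hk) (hunit l hl) hij hkl hli hlj hN hN'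
  · intro e j k l N N' he hej hek hel hkl hlj hN hN'
    have hj1 := hunit j fun h => hej (hatM e he j h)
    have hN0 : 0 < N := by
      rcases Nat.eq_zero_or_pos N with rfl | h
      · obtain ⟨τ, τ', h, -, -⟩ := hN
        rw [Nat.cast_zero, zero_mul] at h
        exact absurd h τ'.ne_zero
      · exact h
    have hbe := one_lt_of_isog hv hN hN0 (hbig j hj1)
    rw [hxz e] at hbe
    rw [hxz e, hxz j] at hN
    rw [hxz k, hxz l] at hN'
    exact hC z hzZ e j k l N N' he hj1 (hunit k fun h => hek (hatM e he k h))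
      (hunit l fun h => hel (hatM e he l h)) hbe hej hek hel hkl hlj hN hN'

/-- **the theorem on dilates from the three cases** -/
theorem dilates_of_cases {Z : Set (Fin n → ℂ)} (hZ : IsSubvariety Z) (h1 : dim Z = 1)
    (hc : ∀ (i : Fin n) (c : ℂ), ∃ z ∈ Z, z i ≠ c) (hcor : CornerPos 1 Z)
    (hcases : ∃ M : ℕ, 0 < M ∧ ∀ p : ℕ, p.Prime → ¬ p ∣ M → ∀ v : AbsoluteValue ℂ ℝ, IsNonarchimedean v →
      v (p : ℂ) < 1 → ∀ m : ℕ, 2 ≤ m → ∀ lam : Fin n → ℚ, (∀ i, v (lam i : ℂ) * v (p : ℂ) ^ m = 1) →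
        CaseA v Z lam ∧ CaseB v Z lam ∧ CaseC v Z lam) :
    ∃ M : ℕ, 0 < M ∧ ∀ p : ℕ, p.Prime → ¬ p ∣ M → ∀ m : ℕ, 2 ≤ m → ∀ lam : Fin n → ℚ,
      (∀ i, padicValRat p (lam i) = -(m : ℤ)) →
        {x ∈ dilate (fun i => (lam i : ℂ)) Z | ∃ S : SpecialData n, dim S.carrier + 2 ≤ n ∧ x ∈ S.carrier}.Finite ∧
        {A | IsAtypical (dilate (fun i => (lam i : ℂ)) Z) A ∧
          ∀ B, IsAtypical (dilate (fun i => (lam i : ℂ)) Z) B → A ⊆ B → B = A}.Finite ∧
        ∀ S : SpecialData n, dim S.carrier < n → ¬ dilate (fun i => (lam i : ℂ)) Z ⊆ S.carrier := by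
  obtain ⟨M, hM, hcases⟩ := hcases
  obtain ⟨M', hM', hcor'⟩ := corners_dilate hcor
  refine ⟨M * M', Nat.mul_pos hM hM', fun p hp hpM m hm lam hlam => ?_⟩
  obtain ⟨v, hv, hvp⟩ := exists_place hp
  have hvp1 : v (p : ℂ) < 1 := by
    rw [hvp]
    exact inv_lt_one_of_one_lt₀ (by exact_mod_cast hp.one_lt)
  have hvp0 : 0 < v (p : ℂ) := by
    rw [hvp]
    exact inv_pos.2 (by exact_mod_cast hp.pos)
  have hlam1 : ∀ i, v (lam i : ℂ) * v (p : ℂ) ^ m = 1 := fun i => v_rat hv hp hvp1 (hlam i) (by omega)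
  have hlam2 : ∀ i, 1 < v (lam i : ℂ) := by
    intro i
    have h2 : v (p : ℂ) ^ m < 1 := pow_lt_one₀ hvp0.le hvp1 (by omega)
    have h3 := hlam1 i
    by_contra hcon
    push Not at hcon
    have h4 : v (lam i : ℂ) * v (p : ℂ) ^ m < 1 :=
      mul_lt_one_of_nonneg_of_lt_one_right hcon (pow_nonneg hvp0.le _) h2
    rw [h3] at h4
    exact lt_irrefl _ h4
  have hl0 : ∀ i, (lam i : ℂ) ≠ 0 := fun i h => by
    have := hlam2 i
    rw [h, map_zero] at this
    exact absurd this (by norm_num)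
  obtain ⟨⟨B₁, hA⟩, ⟨B₂, hB⟩, ⟨B₃, hC⟩⟩ := hcases p hp (fun h => hpM (h.mul_right _)) v hv hvp1 m hm lam hlam1
  have hcorv := hcor' v hv (v_nat_eq_one hv hp hvp1 fun h => hpM (h.mul_left _)) (fun i => (lam i : ℂ))
  refine conclude (isSubvariety_dilate hl0 hZ) (by rw [dim_dilate hl0, h1]) (fun i c => ?_)
    (M := max B₁ (max B₂ B₃)) fun x hx => pointData hv hlam2 hcorv ?_ ?_ ?_ hx
  · obtain ⟨z, hz, hzc⟩ := hc i (c / lam i)
    refine ⟨fun j => lam j * z j, ?_, fun h => hzc ?_⟩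
    · change (fun j => lam j * z j / lam j) ∈ Z
      have : (fun j => lam j * z j / lam j) = z := by
        funext j
        rw [mul_comm, mul_div_assoc, div_self (hl0 j), mul_one]
      rwa [this]
    · rw [eq_div_iff (hl0 i), ← h, mul_comm]
  · exact fun z hz i k l N h1 h2 h3 h4 h5 h6 h7 => (hA z hz i k l N h1 h2 h3 h4 h5 h6 h7).trans (le_max_left _ _)
  · exact fun z hz i j k l N N' h1 h2 h3 h4 h5 h6 h7 h8 h9 h10 =>
      (hB z hz i j k l N N' h1 h2 h3 h4 h5 h6 h7 h8 h9 h10).trans ((le_max_left _ _).trans (le_max_right _ _))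
  · exact fun z hz e j k l N N' h1 h2 h3 h4 h5 h6 h7 h8 h9 h10 h11 h12 =>
      (hC z hz e j k l N N' h1 h2 h3 h4 h5 h6 h7 h8 h9 h10 h11 h12).trans
        ((le_max_right _ _).trans (le_max_right _ _))

end Pool.Agent.Helper36.DL
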