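import Pool.Agent.Helper36.DL.Affine
import Pool.Agent.Helper69.DL.Defs

/-! # Affine images, uniformly: interfaces -/

open MvPolynomial

namespace Pool.Agent.Helper36.DL
open Pool.Agent.Helper11.ZP Pool.Agent.Helper11.ZU Pool.Agent.Helper20.DL Pool.Agent.Helper69.DL

variable {n : ℕ}

/-- `x` is a `p`-adic integer: an element of the closure of `ℤ` in `(ℂ, v)` -/
def Zp (v : AbsoluteValue ℂ ℝ) (p : ℕ) (x : ℂ) : Prop := ∀ k : ℕ, ∃ q : ℤ, v (x - q) ≤ v (p : ℂ) ^ k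

/-- the coefficients of the affine maps: `lam_i` of valuation exactly `-m`, `a_i` of larger valuation,
all in the closure of `ℚ` -/
structure AffAt (v : AbsoluteValue ℂ ℝ) (p m : ℕ) (lam a : Fin n → ℂ) : Prop where
  /-- `m` is positive -/
  one_le : 1 ≤ m
  /-- `p ^ m lam_i` is a `p`-adic integer -/
  lam_mem : ∀ i, Zp v p ((p : ℂ) ^ m * lam i)
  /-- of absolute value one -/
  lam_one : ∀ i, v ((p : ℂ) ^ m * lam i) = 1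
  /-- `p ^ m a_i` is a `p`-adic integer -/
  a_mem : ∀ i, Zp v p ((p : ℂ) ^ m * a i)
  /-- and not a unit -/
  a_le : ∀ i, v ((p : ℂ) ^ m * a i) ≤ v (p : ℂ)

/-- **case A**, uniformly -/
def UnifA (v : AbsoluteValue ℂ ℝ) (p : ℕ) (Z : Set (Fin n → ℂ)) : Prop :=
  ∃ B : ℕ, ∀ (m : ℕ) (lam a : Fin n → ℂ), AffAt v p m lam a → ∀ z ∈ Z, ∀ (i k l : Fin n) (N : ℕ),
    v (lam i * z i + a i) ≤ 1 → v (z k) = 1 → v (z l) = 1 → i ≠ k → i ≠ l → k ≠ l →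
      CyclicIsog N (lam k * z k + a k) (lam l * z l + a l) → N ≤ B

/-- **case B**, uniformly; `k = i` and `k = j` are allowed -/
def UnifB (v : AbsoluteValue ℂ ℝ) (p : ℕ) (Z : Set (Fin n → ℂ)) : Prop :=
  ∃ B : ℕ, ∀ (m : ℕ) (lam a : Fin n → ℂ), AffAt v p m lam a → ∀ z ∈ Z, ∀ (i j k l : Fin n) (N N' : ℕ),
    v (z i) = 1 → v (z j) = 1 → v (z k) = 1 → v (z l) = 1 → i ≠ j → k ≠ l → l ≠ i → l ≠ j →
      CyclicIsog N (lam i * z i + a i) (lam j * z j + a j) →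
        CyclicIsog N' (lam k * z k + a k) (lam l * z l + a l) → N' ≤ B

/-- **case C**, uniformly: the coordinate `e` is not of absolute value `1`, `k = j` is allowed -/
def UnifC (v : AbsoluteValue ℂ ℝ) (p : ℕ) (Z : Set (Fin n → ℂ)) : Prop :=
  ∃ B : ℕ, ∀ (m : ℕ) (lam a : Fin n → ℂ), AffAt v p m lam a → ∀ z ∈ Z, ∀ (e j k l : Fin n) (N N' : ℕ),
    v (z e) ≠ 1 → v (z j) = 1 → v (z k) = 1 → v (z l) = 1 → 1 < v (lam e * z e + a e) →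
      e ≠ j → e ≠ k → e ≠ l → k ≠ l → l ≠ j → CyclicIsog N (lam e * z e + a e) (lam j * z j + a j) →
        CyclicIsog N' (lam k * z k + a k) (lam l * z l + a l) → N' ≤ B

/-- torsion points modulo `p ^ 2`, uniformly in the constants -/
def TorsionRelU : Prop :=
  ∀ (v : AbsoluteValue ℂ ℝ) (_ : IsNonarchimedean v) (p : ℕ) (_ : p.Prime) (_ : v (p : ℂ) < 1)
    (H : MvPolynomial (Fin 2) ℤ) (_ : GoodRel v p H) (G : Fin 4 → MvPolynomial (Fin 2) ℤ)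
    (_ : ∀ i, GoodRel v p (G i)), ∃ B : ℕ, ∀ (μ₁ μ₂ : ℂ) (_ : Zp v p μ₁) (_ : Zp v p μ₂) (_ : v μ₁ = 1)
    (_ : v μ₂ = 1) (c : Fin 4 → ℂ) (_ : ∀ i, Zp v p (c i))
    (x y : ℂ) (u : Fin 4 → ℂ) (ζ₁ ζ₂ : ℂ) (g₁ g₂ : ℕ), 0 < g₁ → 0 < g₂ →
      IsPrimitiveRoot ζ₁ g₁ → IsPrimitiveRoot ζ₂ g₂ → (∀ i, v (u i) ≤ 1) → ev H x y = 0 →
      ev (G 0) (u 0) x = 0 → ev (G 1) (u 1) x = 0 → ev (G 2) (u 2) y = 0 → ev (G 3) (u 3) y = 0 →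
      v (x - μ₁ * ζ₁ * (1 + p * (c 0 * u 0 + c 1 * u 1))) < v (p : ℂ) →
      v (y - μ₂ * ζ₂ * (1 + p * (c 2 * u 2 + c 3 * u 3))) < v (p : ℂ) → g₁ ≤ B ∧ g₂ ≤ B

end Pool.Agent.Helper36.DL
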