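import Pool.Agent.Helper36.DL.Unif
import Pool.Agent.Helper69.DL.Scale

/-! # `p`-adic integers in `(ℂ, v)` -/

namespace Pool.Agent.Helper36.DL
open Pool.Agent.Helper11.ZP Pool.Agent.Helper20.ZD Pool.Agent.Helper20.DL Pool.Agent.Helper69.DL

variable {v : AbsoluteValue ℂ ℝ} {p : ℕ}

namespace Zp

lemma int (q : ℤ) : Zp v p (q : ℂ) := fun k => ⟨q, by
  rw [sub_self, map_zero]
  exact pow_nonneg (v.nonneg _) _⟩

lemma nat (q : ℕ) : Zp v p (q : ℂ) := by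
  have := int (v := v) (p := p) (q : ℤ)
  rwa [Int.cast_natCast] at this

lemma le_one (hv : IsNonarchimedean v) {x : ℂ} (hx : Zp v p x) : v x ≤ 1 := by
  obtain ⟨q, hq⟩ := hx 0
  rw [pow_zero] at hq
  have h1 : x = (x - q) + q := by ring
  rw [h1]
  exact (hv _ _).trans (max_le hq (v_int_le hv q))

lemma add (hv : IsNonarchimedean v) {x y : ℂ} (hx : Zp v p x) (hy : Zp v p y) : Zp v p (x + y) := by
  intro k
  obtain ⟨q, hq⟩ := hx k
  obtain ⟨r, hr⟩ := hy k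
  refine ⟨q + r, ?_⟩
  have h1 : x + y - ((q + r : ℤ) : ℂ) = (x - q) + (y - r) := by push_cast; ring
  rw [h1]
  exact (hv _ _).trans (max_le hq hr)

lemma neg {x : ℂ} (hx : Zp v p x) : Zp v p (-x) := by
  intro k
  obtain ⟨q, hq⟩ := hx k
  refine ⟨-q, ?_⟩
  have h1 : -x - ((-q : ℤ) : ℂ) = -(x - q) := by push_cast; ring
  rw [h1, map_neg_eq_map]
  exact hq

lemma sub (hv : IsNonarchimedean v) {x y : ℂ} (hx : Zp v p x) (hy : Zp v p y) : Zp v p (x - y) := by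
  rw [sub_eq_add_neg]
  exact hx.add hv hy.neg

lemma mul (hv : IsNonarchimedean v) {x y : ℂ} (hx : Zp v p x) (hy : Zp v p y) : Zp v p (x * y) := by
  intro k
  obtain ⟨q, hq⟩ := hx k
  obtain ⟨r, hr⟩ := hy k
  refine ⟨q * r, ?_⟩
  have h1 : x * y - ((q * r : ℤ) : ℂ) = (x - q) * y + q * (y - r) := by push_cast; ring
  have h0 : 0 ≤ v (p : ℂ) ^ k := pow_nonneg (v.nonneg _) _
  rw [h1]
  refine (hv _ _).trans (max_le ?_ ?_)
  · rw [map_mul]
    exact (mul_le_of_le_one_right (v.nonneg _) (hy.le_one hv)).trans hq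
  · rw [map_mul]
    exact (mul_le_of_le_one_left (v.nonneg _) (v_int_le hv q)).trans hr

lemma pow (hv : IsNonarchimedean v) {x : ℂ} (hx : Zp v p x) (k : ℕ) : Zp v p (x ^ k) := by
  induction k with
  | zero => simpa using int (v := v) (p := p) 1
  | succ k ih => rw [pow_succ]; exact ih.mul hv hx

/-- an integer whose absolute value is one has an inverse modulo `p ^ k` -/
lemma inv_int (hv : IsNonarchimedean v) (hp : p.Prime) {q : ℤ} (hq : ¬ (p : ℤ) ∣ q) (k : ℕ) :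
    ∃ r : ℤ, v (q * r - 1 : ℂ) ≤ v (p : ℂ) ^ k := by
  have hco : IsCoprime ((p : ℤ) ^ k) q :=
    (((Nat.prime_iff_prime_int.1 hp).coprime_iff_not_dvd.2 hq).pow_left)
  obtain ⟨a, b, hab⟩ := hco
  refine ⟨b, ?_⟩
  have h1 : (q : ℂ) * b - 1 = -((a : ℂ) * (p : ℂ) ^ k) := by
    have h2 : ((a * (p : ℤ) ^ k + b * q : ℤ) : ℂ) = ((1 : ℤ) : ℂ) := by rw [hab]
    push_cast at h2
    linear_combination h2
  rw [h1, map_neg_eq_map, map_mul, map_pow]
  exact mul_le_of_le_one_left (pow_nonneg (v.nonneg _) _) (v_int_le hv a)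

lemma inv (hv : IsNonarchimedean v) (hp : p.Prime) (hvp : v (p : ℂ) < 1) {x : ℂ} (hx : Zp v p x) (h1 : v x = 1) :
    Zp v p x⁻¹ := by
  intro k
  have hx0 : x ≠ 0 := by
    rintro rfl
    rw [map_zero] at h1
    exact zero_ne_one h1
  obtain ⟨q, hq⟩ := hx (k + 1)
  have hp0 : 0 < v (p : ℂ) := (AbsoluteValue.pos_iff v).2 (by exact_mod_cast hp.ne_zero)
  have hq1 : v (x - q) < 1 := hq.trans_lt (pow_lt_one₀ (v.nonneg _) hvp k.succ_ne_zero)
  have hqv : v (q : ℂ) = 1 := by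
    have h2 : (q : ℂ) = x - (x - q) := by ring
    rw [h2, sub_eq_add_neg, v_add_eq hv (by rw [map_neg_eq_map, h1]; exact hq1), h1]
  have hqp : ¬ (p : ℤ) ∣ q := fun hd => by
    have := (v_int_lt_iff hv hp hvp).2 hd
    rw [hqv] at this
    exact lt_irrefl _ this
  obtain ⟨r, hr⟩ := inv_int hv hp hqp (k + 1)
  refine ⟨r, ?_⟩
  have h2 : x⁻¹ - r = -(x⁻¹ * ((q * r - 1) + (x - q) * r)) := by
    field_simp
    ring
  have h3 : v (p : ℂ) ^ (k + 1) ≤ v (p : ℂ) ^ k := pow_le_pow_of_le_one hp0.le hvp.le (Nat.le_succ k)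
  rw [h2, map_neg_eq_map, map_mul, map_inv₀, h1, inv_one, one_mul]
  refine (hv _ _).trans (max_le (hr.trans h3) ?_)
  rw [map_mul]
  exact ((mul_le_of_le_one_right (v.nonneg _) (v_int_le hv r)).trans hq).trans h3

lemma div (hv : IsNonarchimedean v) (hp : p.Prime) (hvp : v (p : ℂ) < 1) {x y : ℂ} (hx : Zp v p x)
    (hy : Zp v p y) (h1 : v y = 1) : Zp v p (x / y) := by
  rw [div_eq_mul_inv]
  exact hx.mul hv (hy.inv hv hp hvp h1)

lemma rat (hv : IsNonarchimedean v) (hp : p.Prime) (hvp : v (p : ℂ) < 1) {q : ℚ} (hq : v (q : ℂ) ≤ 1) :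
    Zp v p (q : ℂ) := by
  have h1 := rat_den hv hp hvp hq
  have h2 : v ((q.den : ℕ) : ℂ) = 1 := v_nat_eq_one hv hp hvp h1
  have h3 : (q : ℂ) = ((q.num : ℤ) : ℂ) / ((q.den : ℕ) : ℂ) := by
    exact_mod_cast congrArg (fun x : ℚ => (x : ℂ)) (Rat.num_div_den q).symm
  rw [h3]
  exact (int _).div hv hp hvp (nat _) h2

lemma le_of_lt (hv : IsNonarchimedean v) (hp : p.Prime) (hvp : v (p : ℂ) < 1) {x : ℂ} (hx : Zp v p x)
    (h : v x < 1) : v x ≤ v (p : ℂ) := by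
  obtain ⟨q, hq⟩ := hx 1
  rw [pow_one] at hq
  have h1 : v (q : ℂ) < 1 := by
    have h2 : (q : ℂ) = x - (x - q) := by ring
    rw [h2]
    exact (v_sub_le hv _ _).trans_lt (max_lt h (hq.trans_lt hvp))
  obtain ⟨r, rfl⟩ := (v_int_lt_iff hv hp hvp).1 h1
  have h2 : x = (x - ((p * r : ℤ) : ℂ)) + p * r := by push_cast; ring
  rw [h2]
  refine (hv _ _).trans (max_le hq ?_)
  rw [map_mul]
  exact mul_le_of_le_one_right (v.nonneg _) (v_int_le hv r)

/-- the class modulo `p ^ k` -/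
lemma exists_lt (hv : IsNonarchimedean v) (hp : p.Prime) {x : ℂ} (hx : Zp v p x) (k : ℕ) :
    ∃ q : ℕ, q < p ^ k ∧ v (x - q) ≤ v (p : ℂ) ^ k := by
  obtain ⟨q, hq⟩ := hx k
  have hpk : (0 : ℤ) < (p : ℤ) ^ k := pow_pos (by exact_mod_cast hp.pos) k
  obtain ⟨r, hr⟩ := Int.eq_ofNat_of_zero_le (Int.emod_nonneg q hpk.ne')
  refine ⟨r, ?_, ?_⟩
  · have := Int.emod_lt_of_pos q hpk
    rw [hr] at this
    exact_mod_cast this
  · have h1 : (q : ℂ) = r + (p : ℂ) ^ k * ((q / (p : ℤ) ^ k : ℤ) : ℂ) := by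
      have h2 := Int.emod_add_mul_ediv q ((p : ℤ) ^ k)
      rw [hr] at h2
      have h3 := congrArg (fun x : ℤ => (x : ℂ)) h2
      push_cast at h3
      exact h3.symm
    have h2 : x - r = (x - q) + (p : ℂ) ^ k * ((q / (p : ℤ) ^ k : ℤ) : ℂ) := by
      linear_combination h1
    rw [h2]
    refine (hv _ _).trans (max_le hq ?_)
    rw [map_mul, map_pow]
    exact mul_le_of_le_one_right (pow_nonneg (v.nonneg _) _) (v_int_le hv _)

end Zp

end Pool.Agent.Helper36.DL
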