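import Pool.Agent.Helper36.DL.ZpLem

/-! # Affine images, uniformly: the assembly -/

open MvPolynomial Finset

namespace Pool.Agent.Helper36.DL
open Pool.Agent.Helper11.ZP Pool.Agent.Helper11.ZU Pool.Agent.Helper20.ZD Pool.Agent.Helper20.ZT
  Pool.Agent.Helper20.ZT.Prim Pool.Agent.Helper11.LC

variable {n : ℕ} {v : AbsoluteValue ℂ ℝ} {p m : ℕ}

/-- the number of zeros of a polynomial of bounded degree in two coordinates of the curve `Z` -/
def Count (Z : Set (Fin n → ℂ)) : Prop :=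
  ∀ (k l : Fin n) (D : ℕ), k ≠ l → ∃ B : ℕ, ∀ g : MvPolynomial (Fin 2) ℂ, g.degreeOf 0 ≤ D → g.degreeOf 1 ≤ D →
    (∃ z ∈ Z, eval ![z k, z l] g ≠ 0) →
      {z ∈ Z | eval ![z k, z l] g = 0}.Finite ∧ {z ∈ Z | eval ![z k, z l] g = 0}.ncard ≤ B

namespace AffAt

variable {lam a : Fin n → ℂ}

lemma v_lam (h : AffAt v p m lam a) (i : Fin n) : v (p : ℂ) ^ m * v (lam i) = 1 := by
  rw [← map_pow, ← map_mul]
  exact h.lam_one i

lemma lam_ne (h : AffAt v p m lam a) (i : Fin n) : lam i ≠ 0 := by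
  intro h0
  have h1 := h.v_lam i
  rw [h0, map_zero, mul_zero] at h1
  exact zero_ne_one h1

lemma one_lt (h : AffAt v p m lam a) (hvp0 : 0 < v (p : ℂ)) (hvp : v (p : ℂ) < 1) (i : Fin n) : 1 < v (lam i) := by
  by_contra hcon
  push Not at hcon
  have h1 := h.v_lam i
  have h2 : v (p : ℂ) ^ m < 1 := pow_lt_one₀ hvp0.le hvp (by have := h.one_le; omega)
  have h3 : v (p : ℂ) ^ m * v (lam i) < 1 := by
    calc v (p : ℂ) ^ m * v (lam i) ≤ v (p : ℂ) ^ m * 1 :=
          mul_le_mul_of_nonneg_left hcon (pow_nonneg hvp0.le m)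
      _ < 1 := by rw [mul_one]; exact h2
  rw [h1] at h3
  exact lt_irrefl _ h3

lemma a_lt (h : AffAt v p m lam a) (hvp0 : 0 < v (p : ℂ)) (hvp : v (p : ℂ) < 1) (i : Fin n) :
    v (a i) < v (lam i) := by
  have h1 := h.v_lam i
  have h2 : v (p : ℂ) ^ m * v (a i) < v (p : ℂ) ^ m * v (lam i) := by
    rw [h1, ← map_pow, ← map_mul]
    exact (h.a_le i).trans_lt hvp
  exact lt_of_mul_lt_mul_left h2 (pow_nonneg hvp0.le m)

end AffAt

/-- the three cases at a point -/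
lemma pointData_unif (hv : IsNonarchimedean v) {Z : Set (Fin n → ℂ)} {lam a : Fin n → ℂ}
    (hlam : ∀ i, 1 < v (lam i)) (ha : ∀ i, v (a i) < v (lam i))
    (hcor : Corners v 1 lam (dilate lam Z)) {B : ℕ}
    (hA : ∀ z ∈ Z, ∀ (i k l : Fin n) (N : ℕ), v (lam i * z i + a i) ≤ 1 → v (z k) = 1 → v (z l) = 1 →
      i ≠ k → i ≠ l → k ≠ l → CyclicIsog N (lam k * z k + a k) (lam l * z l + a l) → N ≤ B)
    (hB : ∀ z ∈ Z, ∀ (i j k l : Fin n) (N N' : ℕ), v (z i) = 1 → v (z j) = 1 → v (z k) = 1 → v (z l) = 1 →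
      i ≠ j → k ≠ l → l ≠ i → l ≠ j → CyclicIsog N (lam i * z i + a i) (lam j * z j + a j) →
        CyclicIsog N' (lam k * z k + a k) (lam l * z l + a l) → N' ≤ B)
    (hC : ∀ z ∈ Z, ∀ (e j k l : Fin n) (N N' : ℕ), v (z e) ≠ 1 → v (z j) = 1 → v (z k) = 1 → v (z l) = 1 →
      1 < v (lam e * z e + a e) → e ≠ j → e ≠ k → e ≠ l → k ≠ l → l ≠ j →
        CyclicIsog N (lam e * z e + a e) (lam j * z j + a j) →
          CyclicIsog N' (lam k * z k + a k) (lam l * z l + a l) → N' ≤ B)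
    {x : Fin n → ℂ} (hx : x ∈ affine lam a Z) :
    ∃ E : Set (Fin n), PointData B E x := by
  classical
  set z : Fin n → ℂ := fun i => (x i - a i) / lam i with hz
  have hzZ : z ∈ Z := hx
  have hl0 : ∀ i, lam i ≠ 0 := fun i h => by
    have := hlam i
    rw [h, map_zero] at this
    exact absurd this (by norm_num)
  have hxz : ∀ i, x i = lam i * z i + a i := fun i => by
    rw [hz]
    change x i = lam i * ((x i - a i) / lam i) + a i
    rw [mul_div_cancel₀ _ (hl0 i), sub_add_cancel]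
  have hunit : ∀ i, i ∉ {i | v (z i) ≠ 1} → v (z i) = 1 := fun i hi => by
    simpa using hi
  have hbig : ∀ i, v (z i) = 1 → 1 < v (x i) := fun i hi => by
    have h1 : v (lam i * z i) = v (lam i) := by rw [map_mul, hi, mul_one]
    rw [hxz, v_add_eq hv (by rw [h1]; exact ha i), h1]
    exact hlam i
  have hyd : (fun i => lam i * z i) ∈ dilate lam Z := by
    change (fun i => lam i * z i / lam i) ∈ Z
    have : (fun i => lam i * z i / lam i) = z := by
      funext i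
      rw [mul_comm, mul_div_assoc, div_self (hl0 i), mul_one]
    rwa [this]
  have hatM : ∀ i ∈ {i | v (z i) ≠ 1}, ∀ j ∈ {i | v (z i) ≠ 1}, i = j := by
    intro i hi j hj
    by_contra hij
    have h1 := card_le_of_corners hv hcor hyd (J := {i, j}) (by
      intro k hk hk2
      have h2 : v (z k) = 1 := by
        have h3 : v (lam k) * v (z k) = v (lam k) := by rw [← map_mul]; exact hk2
        have h4 : v (lam k) ≠ 0 := (AbsoluteValue.ne_zero_iff v).2 (hl0 k)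
        exact (mul_eq_left₀ h4).1 h3
      rw [mem_insert, mem_singleton] at hk
      rcases hk with rfl | rfl
      · exact hi h2
      · exact hj h2)
    rw [card_pair hij] at h1
    omega
  have hsp : ∀ i, IsSpecialPoint (x i) → v (x i) ≤ 1 := fun i hi =>
    mem_vring.1 (mem_of_isIntegral_int (vring v hv) hi.isIntegral)
  refine ⟨{i | v (z i) ≠ 1}, hatM, fun i hi h => not_lt.2 (hsp i hi) (hbig i h), ?_, ?_, ?_⟩
  · intro i k l N hi hki hli hkl hN
    have hiE : v (z i) ≠ 1 := fun h => not_lt.2 (hsp i hi) (hbig i h)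
    rw [hxz k, hxz l] at hN
    refine hA z hzZ i k l N (by rw [← hxz]; exact hsp i hi) (hunit k fun h => hki (hatM k h i hiE))
      (hunit l fun h => hli (hatM l h i hiE)) hki.symm hli.symm hkl hN
  · intro i j k l N N' hi hj hk hl hij hkl hli hlj hN hN'
    rw [hxz i, hxz j] at hN
    rw [hxz k, hxz l] at hN'
    exact hB z hzZ i j k l N N' (hunit i hi) (hunit j hj) (hunit k hk) (hunit l hl) hij hkl hli hlj hN hN'
  · intro e j k l N N' he hej hek hel hkl hlj hN hN'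
    have hj1 := hunit j fun h => hej (hatM e he j h)
    have hN0 : 0 < N := by
      rcases Nat.eq_zero_or_pos N with rfl | h
      · obtain ⟨τ, τ', h, -, -⟩ := hN
        rw [Nat.cast_zero, zero_mul] at h
        exact absurd h τ'.ne_zero
      · exact h
    have hbe := one_lt_of_isog hv hN hN0 (hbig j hj1)
    rw [hxz e] at hbe
    rw [hxz e, hxz j] at hN
    rw [hxz k, hxz l] at hN'
    exact hC z hzZ e j k l N N' he hj1 (hunit k fun h => hek (hatM e he k h))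
      (hunit l fun h => hel (hatM e he l h)) hbe hej hek hel hkl hlj hN hN'

/-- the modular polynomial after an affine substitution -/
noncomputable def affSubst (N : ℕ) (hN : 0 < N) (l₀ a₀ l₁ a₁ : ℂ) : MvPolynomial (Fin 2) ℂ :=
  aeval ![C l₀ * X 0 + C a₀, C l₁ * X 1 + C a₁] (hypPoly (n := 2) N hN 0 1)

lemma eval_affSubst {N : ℕ} (hN : 0 < N) (l₀ a₀ l₁ a₁ x y : ℂ) :
    eval ![x, y] (affSubst N hN l₀ a₀ l₁ a₁) = 0 ↔ CyclicIsog N (l₀ * x + a₀) (l₁ * y + a₁) := by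
  have h1 : eval ![x, y] (affSubst N hN l₀ a₀ l₁ a₁) = eval ![l₀ * x + a₀, l₁ * y + a₁] (hypPoly (n := 2) N hN 0 1) := by
    rw [affSubst]
    have h2 : ((aeval ![x, y] : MvPolynomial (Fin 2) ℂ →ₐ[ℂ] ℂ).comp
        (aeval ![C l₀ * X 0 + C a₀, C l₁ * X 1 + C a₁])) = aeval ![l₀ * x + a₀, l₁ * y + a₁] := by
      ext i
      fin_cases i <;> simp
    have h3 := DFunLike.congr_fun h2 (hypPoly (n := 2) N hN 0 1)
    simpa [aeval_eq_eval] using h3
  rw [h1, eval_hypPoly]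
  rfl

lemma totalDegree_affSubst_le {N : ℕ} (hN : 0 < N) (l₀ a₀ l₁ a₁ : ℂ) :
    (affSubst N hN l₀ a₀ l₁ a₁).totalDegree ≤ (hypPoly (n := 2) N hN 0 1).totalDegree := by
  classical
  rw [affSubst, aeval_def, eval₂_eq]
  refine (totalDegree_finsetSum _ _).trans ?_
  refine Finset.sup_le fun d hd => ?_
  refine (totalDegree_mul _ _).trans ?_
  have hlin : ∀ i : Fin 2, (![C l₀ * X 0 + C a₀, C l₁ * X 1 + C a₁] i : MvPolynomial (Fin 2) ℂ).totalDegree ≤ 1 := by
    have h : ∀ (c b : ℂ) (i : Fin 2), (C c * X i + C b : MvPolynomial (Fin 2) ℂ).totalDegree ≤ 1 := by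
      intro c b i
      refine (totalDegree_add _ _).trans (max_le ?_ ?_)
      · refine (totalDegree_mul _ _).trans ?_
        rw [totalDegree_C, totalDegree_X]
      · rw [totalDegree_C]
        exact Nat.zero_le _
    intro i
    fin_cases i
    · exact h l₀ a₀ 0
    · exact h l₁ a₁ 1
  have h0 : (algebraMap ℂ (MvPolynomial (Fin 2) ℂ) (coeff d (hypPoly (n := 2) N hN 0 1))).totalDegree = 0 :=
    totalDegree_C _
  rw [h0, zero_add]
  refine (totalDegree_finsetProd _ _).trans ?_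
  refine le_trans ?_ (le_totalDegree hd)
  rw [Finsupp.sum]
  refine Finset.sum_le_sum fun i _ => ?_
  refine (totalDegree_pow _ _).trans ?_
  exact (Nat.mul_le_mul_left _ (hlin i)).trans (mul_one _).le

/-- **the theorem on affine images, uniformly**, from the three cases and the number of zeros -/
theorem uniform_of_cases {Z : Set (Fin n → ℂ)} (hZ : IsSubvariety Z) (h1 : dim Z = 1)
    (hc : ∀ (i : Fin n) (c : ℂ), ∃ z ∈ Z, z i ≠ c) (hcor : CornerPos 1 Z) (hcount : Count Z)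
    (hcases : ∃ M : ℕ, 0 < M ∧ ∀ p : ℕ, p.Prime → ¬ p ∣ M → ∀ v : AbsoluteValue ℂ ℝ, IsNonarchimedean v →
      v (p : ℂ) < 1 → UnifA v p Z ∧ UnifB v p Z ∧ UnifC v p Z) :
    ∃ M : ℕ, 0 < M ∧ ∀ p : ℕ, p.Prime → ¬ p ∣ M → ∀ v : AbsoluteValue ℂ ℝ, IsNonarchimedean v →
      v (p : ℂ) < 1 → ∃ B : ℕ, ∀ (m : ℕ) (lam a : Fin n → ℂ), AffAt v p m lam a →
        {x ∈ affine lam a Z | ∃ S : SpecialData n, dim S.carrier + 2 ≤ n ∧ x ∈ S.carrier}.Finite ∧
        {x ∈ affine lam a Z | ∃ S : SpecialData n, dim S.carrier + 2 ≤ n ∧ x ∈ S.carrier}.ncard ≤ B ∧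
        {A | IsAtypical (affine lam a Z) A ∧
          ∀ B, IsAtypical (affine lam a Z) B → A ⊆ B → B = A}.Finite ∧
        ∀ S : SpecialData n, dim S.carrier < n → ¬ affine lam a Z ⊆ S.carrier := by
  classical
  obtain ⟨M, hM, hcases⟩ := hcases
  obtain ⟨M', hM', hcor'⟩ := corners_dilate hcor
  refine ⟨M * M', Nat.mul_pos hM hM', fun p hp hpM v hv hvp => ?_⟩
  have hvp0 : 0 < v (p : ℂ) := (AbsoluteValue.pos_iff v).2 (by exact_mod_cast hp.ne_zero)
  obtain ⟨⟨B₁, hA⟩, ⟨B₂, hB⟩, ⟨B₃, hC⟩⟩ := hcases p hp (fun h => hpM (h.mul_right _)) v hv hvp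
  set K := max B₁ (max B₂ B₃) with hK
  -- the number of points
  have hcount' : ∀ q : Fin n × Fin n × ℕ, ∃ B : ℕ, ∀ (hN : 0 < q.2.2), q.1 ≠ q.2.1 → ∀ l₀ a₀ l₁ a₁ : ℂ,
      (∃ z ∈ Z, eval ![z q.1, z q.2.1] (affSubst q.2.2 hN l₀ a₀ l₁ a₁) ≠ 0) →
        {z ∈ Z | eval ![z q.1, z q.2.1] (affSubst q.2.2 hN l₀ a₀ l₁ a₁) = 0}.Finite ∧
          {z ∈ Z | eval ![z q.1, z q.2.1] (affSubst q.2.2 hN l₀ a₀ l₁ a₁) = 0}.ncard ≤ B := by
    rintro ⟨k, l, N⟩
    by_cases hN : 0 < N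
    · by_cases hkl : k = l
      · exact ⟨0, fun _ h => absurd hkl h⟩
      · obtain ⟨B, hB⟩ := hcount k l (hypPoly (n := 2) N hN 0 1).totalDegree hkl
        refine ⟨B, fun _ _ l₀ a₀ l₁ a₁ h => hB _ ?_ ?_ h⟩
        · exact (degreeOf_le_totalDegree _ _).trans (totalDegree_affSubst_le hN l₀ a₀ l₁ a₁)
        · exact (degreeOf_le_totalDegree _ _).trans (totalDegree_affSubst_le hN l₀ a₀ l₁ a₁)
    · exact ⟨0, fun h => absurd h hN⟩
  choose Bc hBc using hcount'
  set I : Finset (Fin n × Fin n × ℕ) := (univ : Finset (Fin n)) ×ˢ (univ : Finset (Fin n)) ×ˢ Finset.Icc 1 K with hI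
  refine ⟨∑ q ∈ I, Bc q, fun m lam a h => ?_⟩
  have hlam := h.one_lt hvp0 hvp
  have ha := h.a_lt hvp0 hvp
  have hl0 := h.lam_ne
  have hcorv := hcor' v hv (v_nat_eq_one hv hp hvp fun h => hpM (h.mul_left _)) lam
  have hdata : ∀ x ∈ affine lam a Z, ∃ E : Set (Fin n), PointData K E x := by
    intro x hx
    refine pointData_unif hv hlam ha hcorv ?_ ?_ ?_ hx
    · exact fun z hz i k l N h1 h2 h3 h4 h5 h6 h7 =>
        (hA m lam a h z hz i k l N h1 h2 h3 h4 h5 h6 h7).trans (le_max_left _ _)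
    · exact fun z hz i j k l N N' h1 h2 h3 h4 h5 h6 h7 h8 h9 h10 =>
        (hB m lam a h z hz i j k l N N' h1 h2 h3 h4 h5 h6 h7 h8 h9 h10).trans
          ((le_max_left _ _).trans (le_max_right _ _))
    · exact fun z hz e j k l N N' h1 h2 h3 h4 h5 h6 h7 h8 h9 h10 h11 h12 =>
        (hC m lam a h z hz e j k l N N' h1 h2 h3 h4 h5 h6 h7 h8 h9 h10 h11 h12).trans
          ((le_max_right _ _).trans (le_max_right _ _))
  have hsub := isSubvariety_affine hl0 a hZ
  have hdim : dim (affine lam a Z) = 1 := by rw [dim_affine hl0, h1]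
  obtain ⟨c1, c2, c3⟩ := conclude hsub hdim (fun i c => by
    obtain ⟨z, hz, hzc⟩ := hc i ((c - a i) / lam i)
    refine ⟨fun j => lam j * z j + a j, ?_, fun h => hzc ?_⟩
    · change (fun j => (lam j * z j + a j - a j) / lam j) ∈ Z
      rw [aff_inv hl0]
      exact hz
    · rw [eq_div_iff (hl0 i), ← h]
      ring) hdata
  refine ⟨c1, ?_, c2, c3⟩
  -- the number of points
  set T : Fin n × Fin n × ℕ → Set (Fin n → ℂ) := fun q =>
    if hq : 0 < q.2.2 ∧ q.1 ≠ q.2.1 then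
      (fun z i => lam i * z i + a i) '' {z ∈ Z | eval ![z q.1, z q.2.1]
        (affSubst q.2.2 hq.1 (lam q.1) (a q.1) (lam q.2.1) (a q.2.1)) = 0} else ∅ with hT
  have hT1 : ∀ q, (T q).Finite ∧ (T q).ncard ≤ Bc q := by
    intro q
    by_cases hq : 0 < q.2.2 ∧ q.1 ≠ q.2.1
    · have h2 : T q = (fun z i => lam i * z i + a i) '' {z ∈ Z | eval ![z q.1, z q.2.1]
          (affSubst q.2.2 hq.1 (lam q.1) (a q.1) (lam q.2.1) (a q.2.1)) = 0} := by
        rw [hT]
        exact dif_pos hq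
      have h3 : ∃ z ∈ Z, eval ![z q.1, z q.2.1]
          (affSubst q.2.2 hq.1 (lam q.1) (a q.1) (lam q.2.1) (a q.2.1)) ≠ 0 := by
        by_contra hcon
        push Not at hcon
        refine c3 _ (dim_hypData hq.1 hq.2) fun x hx => (mem_hypData hq.1 hq.2 x).2 ?_
        have h4 := (eval_affSubst hq.1 _ _ _ _ _ _).1 (hcon _ hx)
        have h5 : ∀ i, lam i * ((x i - a i) / lam i) + a i = x i := fun i => by
          rw [mul_div_cancel₀ _ (hl0 i), sub_add_cancel]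
        rwa [h5, h5] at h4
      obtain ⟨h4, h5⟩ := hBc q hq.1 hq.2 _ _ _ _ h3
      rw [h2]
      exact ⟨h4.image _, (Set.ncard_image_le h4).trans h5⟩
    · have h2 : T q = ∅ := by
        rw [hT]
        exact dif_neg hq
      rw [h2]
      exact ⟨Set.finite_empty, by rw [Set.ncard_empty]; exact Nat.zero_le _⟩
  have hsubset : {x ∈ affine lam a Z | ∃ S : SpecialData n, dim S.carrier + 2 ≤ n ∧ x ∈ S.carrier} ⊆
      ⋃ q ∈ I, T q := by
    rintro x ⟨hx, S, hS, hxS⟩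
    obtain ⟨E, hE⟩ := hdata x hx
    obtain ⟨i, j, N, hij, hN, hNM, hiso⟩ := exists_level hE S hxS hS
    rw [Set.mem_iUnion₂]
    refine ⟨(i, j, N), by rw [hI]; simp [hNM]; omega, ?_⟩
    have h2 : T (i, j, N) = (fun z i => lam i * z i + a i) '' {z ∈ Z | eval ![z i, z j]
        (affSubst N hN (lam i) (a i) (lam j) (a j)) = 0} := by
      rw [hT]
      exact dif_pos ⟨hN, hij⟩
    rw [h2]
    have h5 : ∀ i, lam i * ((x i - a i) / lam i) + a i = x i := fun i => by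
      rw [mul_div_cancel₀ _ (hl0 i), sub_add_cancel]
    refine ⟨fun i => (x i - a i) / lam i, ⟨hx, ?_⟩, funext h5⟩
    rw [eval_affSubst hN, h5, h5]
    exact hiso
  calc {x ∈ affine lam a Z | ∃ S : SpecialData n, dim S.carrier + 2 ≤ n ∧ x ∈ S.carrier}.ncard
      ≤ (⋃ q ∈ I, T q).ncard :=
        Set.ncard_le_ncard hsubset (Set.Finite.biUnion I.finite_toSet fun q _ => (hT1 q).1)
    _ ≤ ∑ q ∈ I, (T q).ncard := I.set_ncard_biUnion_le T
    _ ≤ ∑ q ∈ I, Bc q := Finset.sum_le_sum fun q _ => (hT1 q).2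

end Pool.Agent.Helper36.DL
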