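import Pool.Agent.Helper36.DL.UnifLoc

/-! # Affine images of all the curves in a given set, uniformly -/

open MvPolynomial Finset

namespace Pool.Agent.Helper36.DL
open Pool.Agent.Helper11.ZP Pool.Agent.Helper11.ZU Pool.Agent.Helper20.ZD Pool.Agent.Helper20.ZT
  Pool.Agent.Helper20.ZT.Prim Pool.Agent.Helper11.LC

variable {n : ℕ} {v : AbsoluteValue ℂ ℝ} {p m : ℕ}

/-- the number of zeros of the polynomials on `C` is bounded in terms of the degree -/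
def CountC (c : ℕ) (C : Set (Fin n → ℂ)) : Prop :=
  ∀ g : MvPolynomial (Fin n) ℂ, (∃ z ∈ C, eval z g ≠ 0) →
    {z ∈ C | eval z g = 0}.Finite ∧ {z ∈ C | eval z g = 0}.ncard ≤ c * (g.totalDegree + 1)

lemma eval_rename_two (k l : Fin n) (g : MvPolynomial (Fin 2) ℂ) (z : Fin n → ℂ) :
    eval z (rename ![k, l] g) = eval ![z k, z l] g := by
  rw [eval_rename]
  congr 1
  congr 1
  funext i
  fin_cases i <;> rfl

/-- two coordinates -/
lemma CountC.two {c : ℕ} {C : Set (Fin n → ℂ)} (h : CountC c C) (k l : Fin n) {D : ℕ}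
    (g : MvPolynomial (Fin 2) ℂ) (hg : g.totalDegree ≤ D) (hne : ∃ z ∈ C, eval ![z k, z l] g ≠ 0) :
    {z ∈ C | eval ![z k, z l] g = 0}.Finite ∧ {z ∈ C | eval ![z k, z l] g = 0}.ncard ≤ c * (D + 1) := by
  obtain ⟨h1, h2⟩ := h (rename ![k, l] g) (by simpa only [eval_rename_two] using hne)
  simp only [eval_rename_two] at h1 h2
  exact ⟨h1, h2.trans (Nat.mul_le_mul_left _ (Nat.add_le_add_right ((totalDegree_rename_le _ _).trans hg) _))⟩

/-- **the theorem on affine images of all the curves `C ⊆ Z`**, from the three cases for `Z` -/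
theorem uniform_fam (hv : IsNonarchimedean v) {Z : Set (Fin n → ℂ)}
    (hcor : ∀ z ∈ Z, ∀ i j, i ≠ j → v (z i) = 1 ∨ v (z j) = 1) {𝒜 : (Fin n → ℂ) → (Fin n → ℂ) → Prop}
    (h𝒜 : ∀ lam a, 𝒜 lam a → (∀ i, 1 < v (lam i)) ∧ ∀ i, v (a i) < v (lam i))
    (huA : ∃ B : ℕ, ∀ lam a, 𝒜 lam a → ∀ z ∈ Z, ∀ (i k l : Fin n) (N : ℕ),
      v (lam i * z i + a i) ≤ 1 → v (z k) = 1 → v (z l) = 1 → i ≠ k → i ≠ l → k ≠ l →
        CyclicIsog N (lam k * z k + a k) (lam l * z l + a l) → N ≤ B)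
    (huB : ∃ B : ℕ, ∀ lam a, 𝒜 lam a → ∀ z ∈ Z, ∀ (i j k l : Fin n) (N N' : ℕ),
      v (z i) = 1 → v (z j) = 1 → v (z k) = 1 → v (z l) = 1 → i ≠ j → k ≠ l → l ≠ i → l ≠ j →
        CyclicIsog N (lam i * z i + a i) (lam j * z j + a j) →
          CyclicIsog N' (lam k * z k + a k) (lam l * z l + a l) → N' ≤ B)
    (huC : ∃ B : ℕ, ∀ lam a, 𝒜 lam a → ∀ z ∈ Z, ∀ (e j k l : Fin n) (N N' : ℕ),
      v (z e) ≠ 1 → v (z j) = 1 → v (z k) = 1 → v (z l) = 1 → 1 < v (lam e * z e + a e) →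
        e ≠ j → e ≠ k → e ≠ l → k ≠ l → l ≠ j → CyclicIsog N (lam e * z e + a e) (lam j * z j + a j) →
          CyclicIsog N' (lam k * z k + a k) (lam l * z l + a l) → N' ≤ B) (c : ℕ) :
    ∃ B : ℕ, ∀ C : Set (Fin n → ℂ), C ⊆ Z → IsSubvariety C → dim C = 1 →
      (∀ (i : Fin n) (b : ℂ), ∃ z ∈ C, z i ≠ b) → CountC c C → ∀ lam a, 𝒜 lam a →
        {x ∈ affine lam a C | ∃ S : SpecialData n, dim S.carrier + 2 ≤ n ∧ x ∈ S.carrier}.Finite ∧
        {x ∈ affine lam a C | ∃ S : SpecialData n, dim S.carrier + 2 ≤ n ∧ x ∈ S.carrier}.ncard ≤ B ∧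
        {A | IsAtypical (affine lam a C) A ∧
          ∀ B, IsAtypical (affine lam a C) B → A ⊆ B → B = A}.Finite ∧
        ∀ S : SpecialData n, dim S.carrier < n → ¬ affine lam a C ⊆ S.carrier := by
  classical
  obtain ⟨B₁, hA⟩ := huA
  obtain ⟨B₂, hB⟩ := huB
  obtain ⟨B₃, hC'⟩ := huC
  set K := max B₁ (max B₂ B₃) with hK
  -- the number of points
  set Bc : Fin n × Fin n × ℕ → ℕ := fun q =>
    if hN : 0 < q.2.2 then c * ((hypPoly (n := 2) q.2.2 hN 0 1).totalDegree + 1) else 0 with hBcdef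
  set I : Finset (Fin n × Fin n × ℕ) := (univ : Finset (Fin n)) ×ˢ (univ : Finset (Fin n)) ×ˢ Finset.Icc 1 K with hI
  refine ⟨∑ q ∈ I, Bc q, fun C hCZ hC h1 hc hcount lam a h => ?_⟩
  have hBc : ∀ (q : Fin n × Fin n × ℕ) (hN : 0 < q.2.2), ∀ l₀ a₀ l₁ a₁ : ℂ,
      (∃ z ∈ C, eval ![z q.1, z q.2.1] (affSubst q.2.2 hN l₀ a₀ l₁ a₁) ≠ 0) →
        {z ∈ C | eval ![z q.1, z q.2.1] (affSubst q.2.2 hN l₀ a₀ l₁ a₁) = 0}.Finite ∧
          {z ∈ C | eval ![z q.1, z q.2.1] (affSubst q.2.2 hN l₀ a₀ l₁ a₁) = 0}.ncard ≤ Bc q := by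
    intro q hN l₀ a₀ l₁ a₁ h
    have h2 : Bc q = c * ((hypPoly (n := 2) q.2.2 hN 0 1).totalDegree + 1) := dif_pos hN
    rw [h2]
    exact hcount.two q.1 q.2.1 _ (totalDegree_affSubst_le hN l₀ a₀ l₁ a₁) h
  obtain ⟨hlam, ha⟩ := h𝒜 lam a h
  have hl0 : ∀ i, lam i ≠ 0 := fun i h => by
    have := hlam i
    rw [h, map_zero] at this
    exact absurd this (by norm_num)
  have hdata : ∀ x ∈ affine lam a C, ∃ E : Set (Fin n), PointData K E x := by
    intro x hx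
    refine pointData_loc hv hlam ha (fun z hz => hcor z (hCZ hz)) ?_ ?_ ?_ hx
    · exact fun z hz i k l N h1 h2 h3 h4 h5 h6 h7 =>
        (hA lam a h z (hCZ hz) i k l N h1 h2 h3 h4 h5 h6 h7).trans (le_max_left _ _)
    · exact fun z hz i j k l N N' h1 h2 h3 h4 h5 h6 h7 h8 h9 h10 =>
        (hB lam a h z (hCZ hz) i j k l N N' h1 h2 h3 h4 h5 h6 h7 h8 h9 h10).trans
          ((le_max_left _ _).trans (le_max_right _ _))
    · exact fun z hz e j k l N N' h1 h2 h3 h4 h5 h6 h7 h8 h9 h10 h11 h12 =>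
        (hC' lam a h z (hCZ hz) e j k l N N' h1 h2 h3 h4 h5 h6 h7 h8 h9 h10 h11 h12).trans
          ((le_max_right _ _).trans (le_max_right _ _))
  have hsub := isSubvariety_affine hl0 a hC
  have hdim : dim (affine lam a C) = 1 := by rw [dim_affine hl0, h1]
  obtain ⟨c1, c2, c3⟩ := conclude hsub hdim (fun i c => by
    obtain ⟨z, hz, hzc⟩ := hc i ((c - a i) / lam i)
    refine ⟨fun j => lam j * z j + a j, ?_, fun h => hzc ?_⟩
    · change (fun j => (lam j * z j + a j - a j) / lam j) ∈ C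
      rw [aff_inv hl0]
      exact hz
    · rw [eq_div_iff (hl0 i), ← h]
      ring) hdata
  refine ⟨c1, ?_, c2, c3⟩
  -- the number of points
  set T : Fin n × Fin n × ℕ → Set (Fin n → ℂ) := fun q =>
    if hq : 0 < q.2.2 ∧ q.1 ≠ q.2.1 then
      (fun z i => lam i * z i + a i) '' {z ∈ C | eval ![z q.1, z q.2.1]
        (affSubst q.2.2 hq.1 (lam q.1) (a q.1) (lam q.2.1) (a q.2.1)) = 0} else ∅ with hT
  have hT1 : ∀ q, (T q).Finite ∧ (T q).ncard ≤ Bc q := by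
    intro q
    by_cases hq : 0 < q.2.2 ∧ q.1 ≠ q.2.1
    · have h2 : T q = (fun z i => lam i * z i + a i) '' {z ∈ C | eval ![z q.1, z q.2.1]
          (affSubst q.2.2 hq.1 (lam q.1) (a q.1) (lam q.2.1) (a q.2.1)) = 0} := by
        rw [hT]
        exact dif_pos hq
      have h3 : ∃ z ∈ C, eval ![z q.1, z q.2.1]
          (affSubst q.2.2 hq.1 (lam q.1) (a q.1) (lam q.2.1) (a q.2.1)) ≠ 0 := by
        by_contra hcon
        push Not at hcon
        refine c3 _ (dim_hypData hq.1 hq.2) fun x hx => (mem_hypData hq.1 hq.2 x).2 ?_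
        have h4 := (eval_affSubst hq.1 _ _ _ _ _ _).1 (hcon _ hx)
        have h5 : ∀ i, lam i * ((x i - a i) / lam i) + a i = x i := fun i => by
          rw [mul_div_cancel₀ _ (hl0 i), sub_add_cancel]
        rwa [h5, h5] at h4
      obtain ⟨h4, h5⟩ := hBc q hq.1 _ _ _ _ h3
      rw [h2]
      exact ⟨h4.image _, (Set.ncard_image_le h4).trans h5⟩
    · have h2 : T q = ∅ := by
        rw [hT]
        exact dif_neg hq
      rw [h2]
      exact ⟨Set.finite_empty, by rw [Set.ncard_empty]; exact Nat.zero_le _⟩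
  have hsubset : {x ∈ affine lam a C | ∃ S : SpecialData n, dim S.carrier + 2 ≤ n ∧ x ∈ S.carrier} ⊆
      ⋃ q ∈ I, T q := by
    rintro x ⟨hx, S, hS, hxS⟩
    obtain ⟨E, hE⟩ := hdata x hx
    obtain ⟨i, j, N, hij, hN, hNM, hiso⟩ := exists_level hE S hxS hS
    rw [Set.mem_iUnion₂]
    refine ⟨(i, j, N), by rw [hI]; simp [hNM]; omega, ?_⟩
    have h2 : T (i, j, N) = (fun z i => lam i * z i + a i) '' {z ∈ C | eval ![z i, z j]
        (affSubst N hN (lam i) (a i) (lam j) (a j)) = 0} := by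
      rw [hT]
      exact dif_pos ⟨hN, hij⟩
    rw [h2]
    have h5 : ∀ i, lam i * ((x i - a i) / lam i) + a i = x i := fun i => by
      rw [mul_div_cancel₀ _ (hl0 i), sub_add_cancel]
    refine ⟨fun i => (x i - a i) / lam i, ⟨hx, ?_⟩, funext h5⟩
    rw [eval_affSubst hN, h5, h5]
    exact hiso
  calc {x ∈ affine lam a C | ∃ S : SpecialData n, dim S.carrier + 2 ≤ n ∧ x ∈ S.carrier}.ncard
      ≤ (⋃ q ∈ I, T q).ncard :=
        Set.ncard_le_ncard hsubset (Set.Finite.biUnion I.finite_toSet fun q _ => (hT1 q).1)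
    _ ≤ ∑ q ∈ I, (T q).ncard := I.set_ncard_biUnion_le T
    _ ≤ ∑ q ∈ I, Bc q := Finset.sum_le_sum fun q _ => (hT1 q).2

end Pool.Agent.Helper36.DL
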