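import Pool.Agent.Helper36.DL.Dilate

/-! # Dilates: the combinatorics of the two isogenies -/

open MvPolynomial Finset

namespace Pool.Agent.Helper36.DL
open Pool.Agent.Helper11.ZP Pool.Agent.Helper11.ZU Pool.Agent.Helper20.ZD Pool.Agent.Helper20.ZT
  Pool.Agent.Helper20.ZT.Prim

variable {n : ℕ}

/-- what is known at the point `x`: `E` is the set of the exceptional coordinates -/
structure PointData (M : ℕ) (E : Set (Fin n)) (x : Fin n → ℂ) : Prop where
  /-- there is at most one exceptional coordinate -/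
  atMost : ∀ i ∈ E, ∀ j ∈ E, i = j
  /-- special coordinates are exceptional -/
  special : ∀ i, IsSpecialPoint (x i) → i ∈ E
  /-- a special coordinate and an isogeny -/
  caseA : ∀ (i k l : Fin n) (N : ℕ), IsSpecialPoint (x i) → k ≠ i → l ≠ i → k ≠ l →
    CyclicIsog N (x k) (x l) → N ≤ M
  /-- two isogenies between coordinates which are not exceptional -/
  caseB : ∀ (i j k l : Fin n) (N N' : ℕ), i ∉ E → j ∉ E → k ∉ E → l ∉ E → i ≠ j → k ≠ l → l ≠ i → l ≠ j →
    CyclicIsog N (x i) (x j) → CyclicIsog N' (x k) (x l) → N' ≤ M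
  /-- one of the isogenies is between an exceptional coordinate and another one -/
  caseC : ∀ (e j k l : Fin n) (N N' : ℕ), e ∈ E → e ≠ j → e ≠ k → e ≠ l → k ≠ l → l ≠ j →
    CyclicIsog N (x e) (x j) → CyclicIsog N' (x k) (x l) → N' ≤ M

/-- two elements of a set of coordinates of a class -/
lemma exists_class_pair (S : SpecialData n) (T : Finset (Fin n)) (hT : dim S.carrier < T.card)
    (hcls : ∀ i ∈ T, S.cls i ≠ none) : ∃ i ∈ T, ∃ j ∈ T, i ≠ j ∧ ∃ s, S.cls i = some s ∧ S.cls j = some s := by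
  classical
  have hr := S.le_dim
  have h : ∀ i : T, ∃ s, S.cls i = some s := fun i => Option.ne_none_iff_exists'.1 (hcls i.1 i.2)
  choose s hs using h
  obtain ⟨i, -, j, -, hij, hsij⟩ := Finset.exists_ne_map_eq_of_card_lt_of_maps_to
    (s := (univ : Finset T)) (t := (univ : Finset (Fin S.r)))
    (by rw [card_univ, card_univ, Fintype.card_fin, Fintype.card_coe]; omega)
    (f := s) (fun i _ => mem_coe.2 (mem_univ _))
  exact ⟨i.1, i.2, j.1, j.2, fun h => hij (Subtype.ext h), s i, hs i, by rw [hsij]; exact hs j⟩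

/-- **the level is bounded** -/
theorem exists_level {M : ℕ} {E : Set (Fin n)} {x : Fin n → ℂ} (h : PointData M E x) (S : SpecialData n)
    (hxS : x ∈ S.carrier) (hd : dim S.carrier + 2 ≤ n) :
    ∃ (i j : Fin n) (N : ℕ), i ≠ j ∧ 0 < N ∧ N ≤ M ∧ CyclicIsog N (x i) (x j) := by
  classical
  have hcls : ∀ i, i ∉ E → S.cls i ≠ none := by
    intro i hi hn
    refine hi (h.special i ?_)
    rw [hxS.1 i hn]
    exact S.hc i hn
  by_cases hsp : ∃ i, S.cls i = none
  · obtain ⟨i, hi⟩ := hsp
    have hspi : IsSpecialPoint (x i) := by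
      rw [hxS.1 i hi]
      exact S.hc i hi
    have hiE := h.special i hspi
    obtain ⟨k, hk, l, hl, hkl, s, hks, hls⟩ := exists_class_pair S (univ.erase i)
      (by rw [card_erase_of_mem (mem_univ i), card_univ, Fintype.card_fin]; omega)
      (fun k hk => hcls k fun hkE => (mem_erase.1 hk).1 (h.atMost k hkE i hiE))
    obtain ⟨N, hN, hiso⟩ := class_isog S hks hls
    exact ⟨k, l, N, hkl, hN, h.caseA i k l N hspi (mem_erase.1 hk).1 (mem_erase.1 hl).1 hkl (hiso x hxS),
      hiso x hxS⟩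
  · push Not at hsp
    -- two coordinates which are not exceptional
    obtain ⟨k, l, hkE, hlE, hkl, s, hks, hls⟩ : ∃ k l, k ∉ E ∧ l ∉ E ∧ k ≠ l ∧
        ∃ s, S.cls k = some s ∧ S.cls l = some s := by
      by_cases hE : ∃ e, e ∈ E
      · obtain ⟨e, he⟩ := hE
        obtain ⟨k, hk, l, hl, hkl, s, hks, hls⟩ := exists_class_pair S (univ.erase e)
          (by rw [card_erase_of_mem (mem_univ e), card_univ, Fintype.card_fin]; omega)
          (fun k _ => hsp k)
        exact ⟨k, l, fun hkE => (mem_erase.1 hk).1 (h.atMost k hkE e he),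
          fun hlE => (mem_erase.1 hl).1 (h.atMost l hlE e he), hkl, s, hks, hls⟩
      · push Not at hE
        obtain ⟨k, hk, l, hl, hkl, s, hks, hls⟩ := exists_class_pair S univ
          (by rw [card_univ, Fintype.card_fin]; omega) (fun k _ => hsp k)
        exact ⟨k, l, hE k, hE l, hkl, s, hks, hls⟩
    obtain ⟨N', hN', hiso'⟩ := class_isog S hks hls
    refine ⟨k, l, N', hkl, hN', ?_, hiso' x hxS⟩
    obtain ⟨i, hi, j, hj, hij, t, hit, hjt⟩ := exists_class_pair S (univ.erase l)
      (by rw [card_erase_of_mem (mem_univ l), card_univ, Fintype.card_fin]; omega) (fun k _ => hsp k)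
    have hli : l ≠ i := (mem_erase.1 hi).1.symm
    have hlj : l ≠ j := (mem_erase.1 hj).1.symm
    by_cases hiE : i ∈ E
    · obtain ⟨N, hN, hiso⟩ := class_isog S hit hjt
      exact h.caseC i j k l N N' hiE hij (fun h2 => hkE (h2 ▸ hiE)) hli.symm hkl hlj
        (hiso x hxS) (hiso' x hxS)
    by_cases hjE : j ∈ E
    · obtain ⟨N, hN, hiso⟩ := class_isog S hjt hit
      exact h.caseC j i k l N N' hjE hij.symm (fun h2 => hkE (h2 ▸ hjE)) hlj.symm hkl hli
        (hiso x hxS) (hiso' x hxS)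
    obtain ⟨N, hN, hiso⟩ := class_isog S hit hjt
    exact h.caseB i j k l N N' hiE hjE hkE hlE hij hkl hli hlj (hiso x hxS) (hiso' x hxS)

/-- a curve without constant coordinates, at whose points at most one coordinate is special, is not
contained in a proper special subvariety -/
theorem not_special_of {C : Set (Fin n → ℂ)} (hC : IsSubvariety C) (h1 : dim C = 1)
    (hP : ∀ x ∈ C, ∀ i j, IsSpecialPoint (x i) → IsSpecialPoint (x j) → i = j)
    (hc : ∀ (i : Fin n) (c : ℂ), ∃ x ∈ C, x i ≠ c)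
    (S : SpecialData n) (hS : dim S.carrier < n) : ¬ C ⊆ S.carrier := by
  classical
  intro hCS
  have hcls : ∀ i, S.cls i ≠ none := by
    intro i h
    obtain ⟨x, hx, hx2⟩ := hc i (S.c i)
    exact absurd ((hCS hx).1 i h) hx2
  obtain ⟨i, -, j, -, hij, s, hi, hj⟩ := exists_class_pair S univ
    (by rw [card_univ, Fintype.card_fin]; exact hS) (fun k _ => hcls k)
  obtain ⟨x, hx, hxi⟩ := exists_spec' hC infinite_special {i} (by rw [card_singleton, h1])
    (fun f hf hf2 => transc_of_nonconst hC (hc i) hf hf2)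
  have hxi' : IsSpecialPoint (x i) := hxi i (mem_singleton_self i)
  exact hij (hP x hx i j hxi' (special_of_class S hi hj (hCS hx) hxi'))

/-- the Zilber–Pink conjecture for a curve follows from the plain finiteness -/
theorem finite_max_of {C : Set (Fin n → ℂ)} (hC : IsSubvariety C) (h1 : dim C = 1)
    (hfin : {x ∈ C | ∃ S : SpecialData n, dim S.carrier + 2 ≤ n ∧ x ∈ S.carrier}.Finite)
    (hCS : ∀ S : SpecialData n, dim S.carrier < n → ¬ C ⊆ S.carrier) :
    {A | IsAtypical C A ∧ ∀ B, IsAtypical C B → A ⊆ B → B = A}.Finite := by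
  refine (hfin.finite_subsets).subset ?_
  rintro A ⟨hA, -⟩ z hz
  have hne : A ≠ C := by
    rintro rfl
    obtain ⟨S, ⟨-, hAS, -⟩, hlt⟩ := hA
    exact hCS S (by omega) fun z hz => (hAS hz).2
  obtain ⟨S, hS, hAS⟩ := atypical_curve hC h1 hA hne
  exact ⟨(hAS hz).1, S, by omega, (hAS hz).2⟩

/-- **the conclusions from bounds for the levels** -/
theorem conclude {C : Set (Fin n → ℂ)} (hC : IsSubvariety C) (h1 : dim C = 1)
    (hc : ∀ (i : Fin n) (c : ℂ), ∃ x ∈ C, x i ≠ c) {M : ℕ}
    (h : ∀ x ∈ C, ∃ E : Set (Fin n), PointData M E x) :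
    {x ∈ C | ∃ S : SpecialData n, dim S.carrier + 2 ≤ n ∧ x ∈ S.carrier}.Finite ∧
      {A | IsAtypical C A ∧ ∀ B, IsAtypical C B → A ⊆ B → B = A}.Finite ∧
      ∀ S : SpecialData n, dim S.carrier < n → ¬ C ⊆ S.carrier := by
  have hCS : ∀ S : SpecialData n, dim S.carrier < n → ¬ C ⊆ S.carrier :=
    not_special_of hC h1 (fun x hx i j hi hj => by
      obtain ⟨E, hE⟩ := h x hx
      exact hE.atMost i (hE.special i hi) j (hE.special j hj)) hc
  have hfin : {x ∈ C | ∃ S : SpecialData n, dim S.carrier + 2 ≤ n ∧ x ∈ S.carrier}.Finite := by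
    have hf : levelPoly n M ∉ vanishingIdeal ℂ C := by
      intro hcon
      obtain ⟨i, j, N, hij, hN, -, h⟩ := exists_of_levelPoly (M := M) hC hcon
      exact hCS _ (dim_hypData hN hij) fun x hx => (mem_hypData hN hij x).2 (h x hx)
    refine (finite_section hC h1.le hf).subset ?_
    rintro x ⟨hx, S, hS, hxS⟩
    obtain ⟨E, hE⟩ := h x hx
    obtain ⟨i, j, N, hij, hN, hNM, hiso⟩ := exists_level hE S hxS hS
    exact ⟨hx, eval_levelPoly hij hN hNM hiso⟩
  exact ⟨hfin, finite_max_of hC h1 hfin hCS, hCS⟩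

end Pool.Agent.Helper36.DL
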