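import Pool.Agent.Helper81.DL.DensP

/-! # Rational vectors indexed by a finite type -/

open Finset Filter MvPolynomial

namespace Pool.Agent.Helper36.DL
open Pool.Agent.Helper20.ZT

open Classical in
/-- the rational vectors of height at most `H` -/
noncomputable def boxS (σ : Type) [Fintype σ] (H : ℕ) : Finset (σ → ℚ) :=
  (Icc (1 : ℤ) H ×ˢ Fintype.piFinset fun _ : σ => Icc (-(H : ℤ)) H).image fun v i => (v.2 i : ℚ) / (v.1 : ℚ)

open Classical in
lemma boxS_eq {σ : Type} [Fintype σ] {N : ℕ} (e : Fin N ≃ σ) (H : ℕ) :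
    boxS σ H = (ratBox N H).image fun t => t ∘ e.symm := by
  ext s
  simp only [boxS, ratBox, mem_image, mem_product, Fintype.mem_piFinset, Prod.exists]
  constructor
  · rintro ⟨q, b, ⟨hq, hb⟩, rfl⟩
    exact ⟨_, ⟨q, b ∘ e, ⟨hq, fun i => hb _⟩, rfl⟩, by funext i; simp⟩
  · rintro ⟨_, ⟨q, b, ⟨hq, hb⟩, rfl⟩, rfl⟩
    exact ⟨q, b ∘ e.symm, ⟨hq, fun i => hb _⟩, rfl⟩

open Classical in
lemma card_filter_boxS {σ : Type} [Fintype σ] {N : ℕ} (e : Fin N ≃ σ) (H : ℕ) (Q : (σ → ℚ) → Prop) :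
    ((boxS σ H).filter Q).card = ((ratBox N H).filter fun t => Q (t ∘ e.symm)).card := by
  have hinj : Function.Injective (fun t : Fin N → ℚ => t ∘ e.symm) := by
    intro t t' h
    funext i
    have := congrFun h (e i)
    simpa using this
  rw [boxS_eq e, filter_image, card_image_of_injective _ hinj]

open Classical in
/-- **almost all rational vectors** are of the form `s' / (p q')` -/
theorem density_boxS {σ : Type} [Fintype σ] [Nonempty σ] {P : MvPolynomial σ ℤ} (hP : P ≠ 0) (p₀ : ℕ) :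
    Tendsto (fun H : ℕ => (((boxS σ H).filter fun s => ∃ (p : ℕ) (s' : σ → ℤ) (q' : ℤ), p.Prime ∧ p₀ ≤ p ∧
      ¬ (p : ℤ) ∣ q' ∧ ¬ (p : ℤ) ∣ eval s' P ∧ ∀ i, s i = (s' i : ℚ) / ((p : ℚ) * (q' : ℚ))).card : ℝ) /
        ((boxS σ H).card : ℝ)) atTop (nhds 1) := by
  set e : Fin (Fintype.card σ) ≃ σ := (Fintype.equivFin σ).symm
  have h := Helper81.DL.density_poly Fintype.card_pos e hP p₀
  refine h.congr fun H => ?_
  have h1 : (boxS σ H).card = (ratBox (Fintype.card σ) H).card := by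
    have h2 := card_filter_boxS e H fun _ => True
    simpa using h2
  rw [h1, card_filter_boxS e]
  congr 2
  congr 1
  apply filter_congr
  intro t _
  constructor
  · rintro ⟨p, s', q', h1, h2, h3, h4, h5⟩
    refine ⟨p, s', q', h1, h2, h3, h4, fun j => ?_⟩
    have := h5 (e.symm j)
    simpa using this
  · rintro ⟨p, s', q', h1, h2, h3, h4, h5⟩
    refine ⟨p, s', q', h1, h2, h3, h4, fun i => ?_⟩
    have := h5 (e i)
    simpa using this

end Pool.Agent.Helper36.DL
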