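import Pool.Agent.Helper92.ZT.Density
import Pool.Agent.Helper92.ZT.Height

/-! # Almost all rational vectors have a common valuation `-1` at a large prime -/

open Finset Filter

namespace Pool.Agent.Helper36.DL
open Pool.Agent.Helper20.ZT

/-- the vectors of units -/
def unitG (n : ℕ) (p : ℕ) : Set (Fin n → ℤ) := {u | ∀ i, ¬ (p : ℤ) ∣ u i}

lemma card_unit_Ico {p : ℕ} (hp : p.Prime) :
    ((Ico (0 : ℤ) ((p : ℤ) ^ 2)).filter fun x => ¬ (p : ℤ) ∣ x).card = p ^ 2 - p := by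
  have h1 : ((Ico (0 : ℤ) ((p : ℤ) ^ 2)).filter fun x => (p : ℤ) ∣ x).card = p := by
    have h2 : (Ico (0 : ℤ) ((p : ℤ) ^ 2)).filter (fun x => (p : ℤ) ∣ x) =
        (Ico (0 : ℤ) p).image fun x => (p : ℤ) * x := by
      have hp0 : (0 : ℤ) < p := by exact_mod_cast hp.pos
      ext x
      rw [mem_filter, mem_Ico, mem_image]
      constructor
      · rintro ⟨⟨h3, h4⟩, y, rfl⟩
        refine ⟨y, mem_Ico.2 ⟨?_, ?_⟩, rfl⟩
        · exact nonneg_of_mul_nonneg_right h3 hp0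
        · rw [pow_two] at h4
          exact lt_of_mul_lt_mul_left h4 hp0.le
      · rintro ⟨y, hy, rfl⟩
        rw [mem_Ico] at hy
        refine ⟨⟨mul_nonneg hp0.le hy.1, ?_⟩, dvd_mul_right _ _⟩
        rw [pow_two]
        exact mul_lt_mul_of_pos_left hy.2 hp0
    rw [h2, card_image_of_injective, Int.card_Ico]
    · simp
    · intro a b hab
      have hp0 : (p : ℤ) ≠ 0 := by exact_mod_cast hp.ne_zero
      exact mul_left_cancel₀ hp0 hab
  have h3 := card_filter_add_card_filter_not (s := Ico (0 : ℤ) ((p : ℤ) ^ 2)) (fun x => (p : ℤ) ∣ x)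
  rw [h1, Int.card_Ico] at h3
  have h4 : ((p : ℤ) ^ 2 - 0).toNat = p ^ 2 := by
    rw [sub_zero]
    exact_mod_cast Int.toNat_natCast (p ^ 2)
  rw [h4] at h3
  omega

lemma card_unitG {n p : ℕ} (hp : p.Prime) (hpn : 2 * n ≤ p) :
    ((p : ℝ) ^ 2) ^ n / 2 ≤ (Set.ncard {u | (∀ i, 0 ≤ u i ∧ u i < (p : ℤ) ^ 2) ∧ u ∈ unitG n p} : ℝ) := by
  classical
  have h1 : {u | (∀ i, 0 ≤ u i ∧ u i < (p : ℤ) ^ 2) ∧ u ∈ unitG n p} =
      ((Fintype.piFinset fun _ : Fin n => (Ico (0 : ℤ) ((p : ℤ) ^ 2)).filter fun x => ¬ (p : ℤ) ∣ x :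
        Finset (Fin n → ℤ)) : Set (Fin n → ℤ)) := by
    ext u
    rw [mem_coe, Fintype.mem_piFinset]
    simp only [mem_filter, mem_Ico, Set.mem_ofPred_eq, unitG]
    constructor
    · rintro ⟨h2, h3⟩ i
      exact ⟨h2 i, h3 i⟩
    · intro h
      exact ⟨fun i => (h i).1, fun i => (h i).2⟩
  rw [h1, Set.ncard_coe_finset, Fintype.card_piFinset, prod_const, card_univ, Fintype.card_fin, card_unit_Ico hp]
  have hp1 : (1 : ℝ) ≤ p := by exact_mod_cast hp.pos
  have hle : p ≤ p ^ 2 := by nlinarith [hp.pos]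
  rw [Nat.cast_pow, Nat.cast_sub hle, Nat.cast_pow]
  have h2 : ((p : ℝ) ^ 2 - p) = (p : ℝ) ^ 2 * (1 + -(1 / p)) := by
    field_simp
    ring
  rw [h2, mul_pow, div_eq_mul_inv]
  refine mul_le_mul_of_nonneg_left ?_ (by positivity)
  have h3 : (-2 : ℝ) ≤ -(1 / (p : ℝ)) := by
    have : 1 / (p : ℝ) ≤ 1 := by rw [div_le_one (by linarith)]; exact hp1
    linarith
  have h4 := one_add_mul_le_pow h3 n
  refine le_trans ?_ h4
  have h5 : (n : ℝ) * (1 / p) ≤ 1 / 2 := by
    rw [mul_one_div, div_le_iff₀ (by linarith)]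
    have : (2 * n : ℝ) ≤ p := by exact_mod_cast hpn
    linarith
  linarith

open Classical in
/-- **almost all rational vectors** have the valuation `-1` in all coordinates at a prime `p ≥ p₀` -/
theorem density_lam {n : ℕ} (hn : 0 < n) (p₀ : ℕ) :
    Tendsto (fun H : ℕ => (((ratBox n H).filter fun lam => ∃ p : ℕ, p.Prime ∧ p₀ ≤ p ∧
      ∀ i, padicValRat p (lam i) = -1).card : ℝ) / ((ratBox n H).card : ℝ)) atTop (nhds 1) := by
  have key := density (n := n) (max p₀ (2 * n)) (unitG n) ?_ ?_ (fun q b => ∃ p : ℕ, p.Prime ∧ p₀ ≤ p ∧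
      ∀ i, padicValRat p ((b i : ℚ) / (q : ℚ)) = -1) ?_
  · exact to_height hn (fun lam => ∃ p : ℕ, p.Prime ∧ p₀ ≤ p ∧ ∀ i, padicValRat p (lam i) = -1) key
  · intro p u w h hu i hd
    apply hu i
    have h1 : (p : ℤ) ∣ u i - w i := (dvd_pow_self _ two_ne_zero).trans (h i)
    have h2 : u i = (u i - w i) + w i := by ring
    rw [h2]
    exact dvd_add h1 hd
  · intro p hp hpp
    exact card_unitG hp (le_trans (le_max_right _ _) hpp)
  · intro q b p q' u hp hpp hq hqq hq' hb hu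
    refine ⟨p, hp, le_trans (le_max_left _ _) hpp, fun i => ?_⟩
    have := Fact.mk hp
    have hp0 : (p : ℤ) ≠ 0 := by exact_mod_cast hp.ne_zero
    have hbi : ¬ (p : ℤ) ∣ b i := by
      intro hd
      have h1 : (p : ℤ) ∣ b i - q' * u i := (dvd_pow_self _ two_ne_zero).trans (hb i)
      have h2 : (p : ℤ) ∣ q' * u i := by
        have : q' * u i = b i - (b i - q' * u i) := by ring
        rw [this]
        exact dvd_sub hd h1
      rcases (Nat.prime_iff_prime_int.1 hp).dvd_or_dvd h2 with h3 | h3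
      · exact hq' h3
      · exact hu i h3
    have hb0 : (b i : ℚ) ≠ 0 := by
      have : b i ≠ 0 := fun h => hbi (h ▸ dvd_zero _)
      exact_mod_cast this
    have hq0 : (q : ℚ) ≠ 0 := by exact_mod_cast hq.ne'
    have hq'0 : (q' : ℚ) ≠ 0 := by
      have : q' ≠ 0 := fun h => hq' (h ▸ dvd_zero _)
      exact_mod_cast this
    have hpq : (p : ℚ) ≠ 0 := by exact_mod_cast hp.ne_zero
    change padicValRat p ((b i : ℚ) / (q : ℚ)) = -1
    rw [padicValRat.div hb0 hq0, padicValRat.of_int, padicValInt.eq_zero_of_not_dvd hbi, hqq]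
    push_cast
    rw [padicValRat.mul hpq hq'0, padicValRat.self hp.one_lt, padicValRat.of_int,
      padicValInt.eq_zero_of_not_dvd hq']
    simp

end Pool.Agent.Helper36.DL
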