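import Pool.Agent.Helper36.ZD.Good

/-! # Dilates of subvarieties -/

open MvPolynomial

namespace Pool.Agent.Helper36.DL
open Pool.Agent.Helper11.ZP Pool.Agent.Helper11.ZU Pool.Agent.Helper20.ZD

variable {n : ℕ}

/-- the dilate `lam · C` -/
def dilate (lam : Fin n → ℂ) (C : Set (Fin n → ℂ)) : Set (Fin n → ℂ) := {x | (fun i => x i / lam i) ∈ C}

/-- the automorphism `X_i ↦ X_i / lam_i` -/
noncomputable def scaleEquiv (lam : Fin n → ℂ) (h : ∀ i, lam i ≠ 0) :
    MvPolynomial (Fin n) ℂ ≃ₐ[ℂ] MvPolynomial (Fin n) ℂ :=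
  AlgEquiv.ofAlgHom (aeval fun i => C (lam i)⁻¹ * X i) (aeval fun i => C (lam i) * X i)
    (by
      ext i
      simp only [AlgHom.comp_apply, aeval_X, map_mul, aeval_C, algebraMap_eq, AlgHom.id_apply]
      rw [← mul_assoc, ← C_mul, mul_inv_cancel₀ (h i), C_1, one_mul])
    (by
      ext i
      simp only [AlgHom.comp_apply, aeval_X, map_mul, aeval_C, algebraMap_eq, AlgHom.id_apply]
      rw [← mul_assoc, ← C_mul, inv_mul_cancel₀ (h i), C_1, one_mul])

lemma eval_scale (lam : Fin n → ℂ) (h : ∀ i, lam i ≠ 0) (x : Fin n → ℂ) (f : MvPolynomial (Fin n) ℂ) :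
    eval x (scaleEquiv lam h f) = eval (fun i => x i / lam i) f := by
  change eval x (aeval (fun i => C (lam i)⁻¹ * X i) f) = _
  have h2 : ((aeval x : MvPolynomial (Fin n) ℂ →ₐ[ℂ] ℂ).comp
      (aeval fun i => C (lam i)⁻¹ * X i)) = aeval fun i => x i / lam i := by
    ext i
    simp [div_eq_inv_mul]
  have h3 := DFunLike.congr_fun h2 f
  simpa [aeval_eq_eval] using h3

lemma van_dilate (lam : Fin n → ℂ) (h : ∀ i, lam i ≠ 0) (Z : Set (Fin n → ℂ)) :
    vanishingIdeal ℂ Z = (vanishingIdeal ℂ (dilate lam Z)).comap (scaleEquiv lam h) := by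
  ext f
  rw [Ideal.mem_comap, mem_van, mem_van]
  constructor
  · intro hf x hx
    rw [eval_scale]
    exact hf _ hx
  · intro hf x hx
    have h1 := hf (fun i => lam i * x i) (by
      change (fun i => lam i * x i / lam i) ∈ Z
      have : (fun i => lam i * x i / lam i) = x := by
        funext i
        rw [mul_comm, mul_div_assoc, div_self (h i), mul_one]
      rw [this]
      exact hx)
    rw [eval_scale] at h1
    have : (fun i => lam i * x i / lam i) = x := by
      funext i
      rw [mul_comm, mul_div_assoc, div_self (h i), mul_one]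
    rwa [this] at h1

theorem isSubvariety_dilate {lam : Fin n → ℂ} (h : ∀ i, lam i ≠ 0) {Z : Set (Fin n → ℂ)}
    (hZ : IsSubvariety Z) : IsSubvariety (dilate lam Z) := by
  obtain ⟨I, hI, rfl⟩ := hZ
  refine ⟨I.comap (scaleEquiv lam h).symm, hI.comap _, ?_⟩
  ext x
  change (fun i => x i / lam i) ∈ zeroLocus ℂ I ↔ _
  rw [mem_zeroLocus_iff, mem_zeroLocus_iff]
  constructor
  · intro hx f hf
    rw [aeval_eq_eval]
    have h1 := hx _ (Ideal.mem_comap.1 hf)
    rw [aeval_eq_eval] at h1
    change eval (fun i => x i / lam i) ((scaleEquiv lam h).symm f) = 0 at h1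
    rw [← eval_scale lam h, AlgEquiv.apply_symm_apply] at h1
    exact h1
  · intro hx f hf
    have h1 := hx (scaleEquiv lam h f) (by
      rw [Ideal.mem_comap]
      change (scaleEquiv lam h).symm (scaleEquiv lam h f) ∈ I
      rwa [AlgEquiv.symm_apply_apply])
    rw [aeval_eq_eval] at h1 ⊢
    change eval x (scaleEquiv lam h f) = 0 at h1
    rw [eval_scale] at h1
    exact h1

theorem dim_dilate {lam : Fin n → ℂ} (h : ∀ i, lam i ≠ 0) (Z : Set (Fin n → ℂ)) :
    dim (dilate lam Z) = dim Z := by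
  have h1 : Ideal.map (scaleEquiv lam h) (vanishingIdeal ℂ Z) = vanishingIdeal ℂ (dilate lam Z) := by
    rw [van_dilate lam h Z, Ideal.map_comap_of_surjective _ (scaleEquiv lam h).surjective]
  rw [dim, dim, (Ideal.quotientEquivAlg _ _ (scaleEquiv lam h) h1.symm).trdeg_eq]

end Pool.Agent.Helper36.DL
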