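import Pool.Agent.Helper36.DL.LineA

/-! # The number of parameters -/

open MvPolynomial

namespace Pool.Agent.Helper36.DL
open Pool.Agent.Helper11.ZP

variable {n : ℕ}

/-- the number of parameters -/
lemma ncard_param_aff {γ δ : Fin n → ℂ} (hn : 0 < n) (hγδ : ∀ i, γ i ≠ δ i) {lam : Fin n → ℂ}
    (hl : ∀ i, lam i ≠ 0) (a : Fin n → ℂ) {T : Set (Fin n → ℂ)}
    (hT : (affine lam a (moebius γ δ (diag n)) ∩ T).Finite) :
    {t : ℂ | (fun i => lam i * ((t - γ i) / (t - δ i)) + a i) ∈ T}.ncard ≤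
      (affine lam a (moebius γ δ (diag n)) ∩ T).ncard + n := by
  classical
  set i₀ : Fin n := ⟨0, hn⟩
  set x : ℂ → Fin n → ℂ := fun t i => lam i * ((t - γ i) / (t - δ i)) + a i with hx
  set D : Set ℂ := {t : ℂ | ∃ i, t = δ i} with hD
  set U : Set ℂ := {t : ℂ | (∀ i, t ≠ δ i) ∧ x t ∈ affine lam a (moebius γ δ (diag n)) ∩ T} with hU
  have h1 : D.Finite := (Set.finite_range δ).subset fun t ⟨i, hi⟩ => ⟨i, hi.symm⟩
  have h1' : D.ncard ≤ n := by
    have h2 : D = ((Finset.univ : Finset (Fin n)).image δ : Finset ℂ) := by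
      ext t
      rw [Finset.mem_coe, Finset.mem_image]
      constructor
      · rintro ⟨i, hi⟩
        exact ⟨i, Finset.mem_univ i, hi.symm⟩
      · rintro ⟨i, -, hi⟩
        exact ⟨i, hi.symm⟩
    rw [h2, Set.ncard_coe_finset]
    exact Finset.card_image_le.trans (by rw [Finset.card_univ, Fintype.card_fin])
  have hinj : Set.InjOn x U := by
    rintro s ⟨hs, -⟩ t ⟨ht, -⟩ hst
    have h3 := congrFun hst i₀
    simp only [hx] at h3
    have h4 := mul_left_cancel₀ (hl i₀) (add_right_cancel h3)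
    rw [div_eq_div_iff (sub_ne_zero.2 (hs i₀)) (sub_ne_zero.2 (ht i₀))] at h4
    have h5 : (γ i₀ - δ i₀) * (s - t) = 0 := by linear_combination h4
    rcases mul_eq_zero.1 h5 with h6 | h6
    · exact absurd (sub_eq_zero.1 h6) (hγδ i₀)
    · exact sub_eq_zero.1 h6
  have himg : x '' U ⊆ affine lam a (moebius γ δ (diag n)) ∩ T := by
    rintro _ ⟨t, ⟨-, ht⟩, rfl⟩
    exact ht
  have h2 : U.Finite := Set.Finite.of_finite_image (hT.subset himg) hinj
  have h2' : U.ncard ≤ (affine lam a (moebius γ δ (diag n)) ∩ T).ncard := by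
    rw [← hinj.ncard_image]
    exact Set.ncard_le_ncard himg hT
  have hsub : {t : ℂ | (fun i => lam i * ((t - γ i) / (t - δ i)) + a i) ∈ T} ⊆ D ∪ U := by
    intro t ht
    by_cases hd : ∃ i, t = δ i
    · exact Or.inl hd
    · push Not at hd
      refine Or.inr ⟨hd, ?_, ht⟩
      change (fun i => (lam i * ((t - γ i) / (t - δ i)) + a i - a i) / lam i) ∈ moebius γ δ (diag n)
      rw [aff_inv hl]
      exact zeroLocus_vanishingIdeal_le _ ⟨fun _ => t, ⟨t, fun _ => rfl⟩, fun i => ⟨hd i, rfl⟩⟩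
  calc {t : ℂ | (fun i => lam i * ((t - γ i) / (t - δ i)) + a i) ∈ T}.ncard ≤ (D ∪ U).ncard :=
        Set.ncard_le_ncard hsub (h1.union h2)
    _ ≤ D.ncard + U.ncard := Set.ncard_union_le _ _
    _ ≤ (affine lam a (moebius γ δ (diag n)) ∩ T).ncard + n := by omega

end Pool.Agent.Helper36.DL
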