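import Pool.Agent.Helper36.DL.PolyImage

/-! # Members of linear systems -/

open MvPolynomial Finset

namespace Pool.Agent.Helper36.DL
open Pool.Agent.Helper11.ZP Pool.Agent.Helper11.ZU Pool.Agent.Helper20.ZD

variable {r n : ℕ}

/-- multiples -/
lemma pClosure_smul {L L' : Fin n → MvPolynomial (Fin r) ℂ} {V : Set (Fin r → ℂ)} {c : ℂ} (hc : c ≠ 0)
    (h : ∀ i w, eval w (L' i) = c * eval w (L i)) :
    pClosure L' V = affine (fun _ => c) (fun _ => 0) (pClosure L V) := by
  have hc' : ∀ _ : Fin n, c ≠ 0 := fun _ => hc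
  ext x
  change x ∈ pClosure L' V ↔ (fun i => (x i - 0) / c) ∈ pClosure L V
  rw [pClosure, pClosure, mem_zeroLocus_iff, mem_zeroLocus_iff]
  constructor
  · intro hx g hg
    have h1 := hx (affEquiv (fun _ => c) (fun _ => 0) hc' g) (by
      rw [mem_van]
      rintro _ ⟨w, hw, rfl⟩
      rw [eval_aff]
      have h2 : (fun i => (eval w (L' i) - 0) / c) = fun i => eval w (L i) := by
        funext i
        rw [h, sub_zero, mul_comm, mul_div_assoc, div_self hc, mul_one]
      rw [h2]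
      exact mem_van.1 hg _ ⟨w, hw, rfl⟩)
    rw [aeval_eq_eval] at h1 ⊢
    rwa [eval_aff] at h1
  · intro hx f hf
    have h0 := (affEquiv (fun _ => c) (fun _ => 0) hc').apply_symm_apply f
    have h1 := hx ((affEquiv (fun _ => c) (fun _ => 0) hc').symm f) (by
      rw [mem_van]
      rintro _ ⟨w, hw, rfl⟩
      have h2 := mem_van.1 hf _ ⟨w, hw, rfl⟩
      rw [← h0, eval_aff] at h2
      have h3 : (fun i => (eval w (L' i) - 0) / c) = fun i => eval w (L i) := by
        funext i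
        rw [h, sub_zero, mul_comm, mul_div_assoc, div_self hc, mul_one]
      rwa [h3] at h2)
    rw [aeval_eq_eval] at h1 ⊢
    rw [← eval_aff (fun _ => c) (fun _ => 0) hc', h0] at h1
    exact h1

/-- the linear forms `s_i + ∑_{κ k = i} s_k X_k` -/
noncomputable def linPoly (κ : Fin r → Fin n) (s : Fin n ⊕ Fin r → ℂ) (i : Fin n) : MvPolynomial (Fin r) ℂ :=
  C (s (Sum.inl i)) + ∑ k with κ k = i, C (s (Sum.inr k)) * X k

lemma eval_linPoly (κ : Fin r → Fin n) (s : Fin n ⊕ Fin r → ℂ) (i : Fin n) (w : Fin r → ℂ) :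
    eval w (linPoly κ s i) = s (Sum.inl i) + ∑ k with κ k = i, s (Sum.inr k) * w k := by
  simp [linPoly]

/-- the closure of the image of `V` under `w ↦ (s_i + ∑_{κ k = i} s_k w_k)_i` -/
def member (κ : Fin r → Fin n) (V : Set (Fin r → ℂ)) (s : Fin n ⊕ Fin r → ℂ) : Set (Fin n → ℂ) :=
  pClosure (linPoly κ s) V

lemma member_smul (κ : Fin r → Fin n) (V : Set (Fin r → ℂ)) (s : Fin n ⊕ Fin r → ℂ) {c : ℂ} (hc : c ≠ 0) :
    member κ V (fun t => c * s t) = affine (fun _ => c) (fun _ => 0) (member κ V s) := by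
  refine pClosure_smul hc fun i w => ?_
  rw [eval_linPoly, eval_linPoly, mul_add, mul_sum]
  congr 1
  exact sum_congr rfl fun k _ => by ring

/-- for general integral `s` no coordinate is constant -/
theorem exists_nonConst {κ : Fin r → Fin n} (hκ : Function.Surjective κ) {V : Set (Fin r → ℂ)}
    (hc : ∀ (k : Fin r) (c : ℂ), ∃ w ∈ V, w k ≠ c) :
    ∃ P : MvPolynomial (Fin n ⊕ Fin r) ℤ, P ≠ 0 ∧ ∀ s : Fin n ⊕ Fin r → ℤ, eval s P ≠ 0 →
      ∀ i, ∃ w ∈ V, ∃ w' ∈ V, eval w (linPoly κ (fun t => (s t : ℂ)) i) ≠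
        eval w' (linPoly κ (fun t => (s t : ℂ)) i) := by
  classical
  have one : ∀ i : Fin n, ∃ P : MvPolynomial (Fin n ⊕ Fin r) ℤ, P ≠ 0 ∧ ∀ s : Fin n ⊕ Fin r → ℤ,
      eval s P ≠ 0 → ∃ w ∈ V, ∃ w' ∈ V, eval w (linPoly κ (fun t => (s t : ℂ)) i) ≠
        eval w' (linPoly κ (fun t => (s t : ℂ)) i) := by
    intro i
    obtain ⟨k₀, hk₀⟩ := hκ i
    obtain ⟨w, hw, -⟩ := hc k₀ 0
    obtain ⟨w', hw', hne⟩ := hc k₀ (w k₀)
    obtain ⟨ψ, hψ⟩ : ∃ ψ : Module.Dual ℚ ℂ, ψ (w' k₀ - w k₀) ≠ 0 := by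
      by_contra hcon
      push Not at hcon
      exact sub_ne_zero.2 hne ((Module.forall_dual_apply_eq_zero_iff ℚ _).1 hcon)
    obtain ⟨D, hD⟩ := IsLocalization.exist_integer_multiples_of_finset (nonZeroDivisors ℤ)
      ((univ : Finset (Fin r)).image fun k => ψ (w' k - w k))
    have hD' : ∀ k, ∃ q : ℤ, ((q : ℤ) : ℚ) = ((D : ℤ) : ℚ) * ψ (w' k - w k) := by
      intro k
      obtain ⟨q, hq⟩ := hD _ (mem_image_of_mem _ (mem_univ k))
      refine ⟨q, ?_⟩
      rw [zsmul_eq_mul] at hq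
      simpa using hq
    choose q hq using hD'
    have hD0 : ((D : ℤ) : ℚ) ≠ 0 := by exact_mod_cast nonZeroDivisors.ne_zero D.2
    have hq0 : q k₀ ≠ 0 := by
      intro h0
      have h1 := hq k₀
      rw [h0, Int.cast_zero] at h1
      exact mul_ne_zero hD0 hψ h1.symm
    refine ⟨∑ k with κ k = i, C (q k) * X (Sum.inr k), ?_, ?_⟩
    · intro h0
      have h1 := congrArg (eval (fun t => if t = Sum.inr k₀ then (1 : ℤ) else 0)) h0
      rw [map_sum, map_zero] at h1
      rw [sum_eq_single k₀] at h1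
      · simp at h1
        exact hq0 h1
      · intro k _ hk
        simp [hk]
      · intro h2
        exact absurd (mem_filter.2 ⟨mem_univ k₀, hk₀⟩) h2
    · intro s hs
      refine ⟨w', hw', w, hw, fun heq => hs ?_⟩
      rw [eval_linPoly, eval_linPoly, add_right_inj] at heq
      have h1 : ∑ k with κ k = i, ((s (Sum.inr k) : ℤ) : ℂ) * (w' k - w k) = 0 := by
        have h2 : ∑ k with κ k = i, ((s (Sum.inr k) : ℤ) : ℂ) * (w' k - w k) =
            ∑ k with κ k = i, ((s (Sum.inr k) : ℤ) : ℂ) * w' k -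
              ∑ k with κ k = i, ((s (Sum.inr k) : ℤ) : ℂ) * w k := by
          rw [← sum_sub_distrib]
          exact sum_congr rfl fun k _ => by ring
        rw [h2, heq, sub_self]
      have h3 := congrArg ψ h1
      rw [map_sum, map_zero] at h3
      have h4 : ∑ k with κ k = i, ((s (Sum.inr k) : ℤ) : ℚ) * ψ (w' k - w k) = 0 := by
        rw [← h3]
        refine sum_congr rfl fun k _ => ?_
        have h5 : ((s (Sum.inr k) : ℤ) : ℂ) * (w' k - w k) = ((s (Sum.inr k) : ℤ) : ℚ) • (w' k - w k) := by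
          rw [Algebra.smul_def]
          norm_cast
        rw [h5, map_smul, smul_eq_mul]
      have h6 : ((eval s (∑ k with κ k = i, C (q k) * X (Sum.inr k)) : ℤ) : ℚ) = 0 := by
        rw [map_sum]
        push_cast
        have h7 : ∑ k with κ k = i, ((eval s (C (q k) * X (Sum.inr k)) : ℤ) : ℚ) =
            ((D : ℤ) : ℚ) * ∑ k with κ k = i, ((s (Sum.inr k) : ℤ) : ℚ) * ψ (w' k - w k) := by
          rw [mul_sum]
          refine sum_congr rfl fun k _ => ?_
          rw [map_mul, eval_C, eval_X]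
          push_cast
          rw [hq k]
          ring
        rw [h7, h4, mul_zero]
      exact_mod_cast h6
  choose P hP hPs using one
  refine ⟨∏ i, P i, prod_ne_zero_iff.2 fun i _ => hP i, fun s hs i => hPs i s fun h0 => hs ?_⟩
  rw [map_prod]
  exact prod_eq_zero (mem_univ i) h0

end Pool.Agent.Helper36.DL
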