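import Pool.Agent.Helper36.DL.Dilate
import Pool.Agent.Helper11.LC.Dil

/-! # Images of subvarieties under coordinatewise Möbius transformations -/

open MvPolynomial Finset

namespace Pool.Agent.Helper36.DL
open Pool.Agent.Helper11.ZP Pool.Agent.Helper11.ZU Pool.Agent.Helper11.LC Pool.Agent.Helper20.ZD

variable {n : ℕ}

/-- the image of `V` under `z_i ↦ (z_i - γ_i) / (z_i - δ_i)` -/
def image (γ δ : Fin n → ℂ) (V : Set (Fin n → ℂ)) : Set (Fin n → ℂ) :=
  {w | ∃ z ∈ V, ∀ i, z i ≠ δ i ∧ w i = (z i - γ i) / (z i - δ i)}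

/-- the Zariski closure of the image of `V` under `z_i ↦ (z_i - γ_i) / (z_i - δ_i)` -/
def moebius (γ δ : Fin n → ℂ) (V : Set (Fin n → ℂ)) : Set (Fin n → ℂ) :=
  zeroLocus ℂ (vanishingIdeal ℂ (image γ δ V))

/-- homogenization -/
noncomputable def homog (A B : Fin n → MvPolynomial (Fin n) ℂ) (f : MvPolynomial (Fin n) ℂ) :
    MvPolynomial (Fin n) ℂ :=
  ∑ m ∈ f.support, C (f.coeff m) * ∏ i, A i ^ m i * B i ^ (f.degreeOf i - m i)

lemma map_homog {K : Type*} [Field K] [Algebra ℂ K] (φ : MvPolynomial (Fin n) ℂ →ₐ[ℂ] K)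
    (A B : Fin n → MvPolynomial (Fin n) ℂ) (hB : ∀ i, φ (B i) ≠ 0) (f : MvPolynomial (Fin n) ℂ) :
    φ (homog A B f) = (∏ i, φ (B i) ^ f.degreeOf i) * aeval (fun i => φ (A i) / φ (B i)) f := by
  rw [homog, map_sum, aeval_def, eval₂_eq', Finset.mul_sum]
  refine Finset.sum_congr rfl fun m hm => ?_
  rw [map_mul, map_prod, ← algebraMap_eq, AlgHom.commutes, ← mul_assoc, mul_comm (∏ i, φ (B i) ^ f.degreeOf i),
    mul_assoc, ← Finset.prod_mul_distrib]
  congr 1
  refine Finset.prod_congr rfl fun i _ => ?_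
  have h1 : m i ≤ f.degreeOf i := monomial_le_degreeOf i hm
  rw [map_mul, map_pow, map_pow, div_pow]
  obtain ⟨k, hk⟩ := Nat.exists_eq_add_of_le h1
  rw [hk, Nat.add_sub_cancel_left, pow_add]
  field_simp [hB i]

section field

variable {V : Set (Fin n → ℂ)}

/-- no coordinate is constant -/
def NonConst (V : Set (Fin n → ℂ)) : Prop := ∀ (i : Fin n) (c : ℂ), ∃ z ∈ V, z i ≠ c

lemma sub_notMem (hc : NonConst V) (i : Fin n) (c : ℂ) : (X i - C c : MvPolynomial (Fin n) ℂ) ∉ vanishingIdeal ℂ V := by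
  intro h
  obtain ⟨z, hz, hzc⟩ := hc i c
  have := mem_van.1 h z hz
  rw [map_sub, eval_X, eval_C, sub_eq_zero] at this
  exact hzc this

lemma lin_notMem (hc : NonConst V) (i : Fin n) {a b : ℂ} (hab : a ≠ 0 ∨ b ≠ 0) :
    (C a * X i + C b : MvPolynomial (Fin n) ℂ) ∉ vanishingIdeal ℂ V := by
  intro h
  obtain ⟨z, hz, hzc⟩ := hc i (-b / a)
  have := mem_van.1 h z hz
  rw [map_add, map_mul, eval_X, eval_C, eval_C] at this
  by_cases ha : a = 0
  · rw [ha, zero_mul, zero_add] at this
    rcases hab with h | h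
    · exact h ha
    · exact h this
  · apply hzc
    rw [eq_div_iff ha]
    linear_combination this

/-- the polynomial `f((z_i - γ_i) / (z_i - δ_i)) ∏ (z_i - δ_i) ^ (deg_i f)` -/
noncomputable def pull (γ δ : Fin n → ℂ) (f : MvPolynomial (Fin n) ℂ) : MvPolynomial (Fin n) ℂ :=
  homog (fun i => X i - C (γ i)) (fun i => X i - C (δ i)) f

lemma eval_pull {γ δ : Fin n → ℂ} {z : Fin n → ℂ} (hz : ∀ i, z i ≠ δ i) (f : MvPolynomial (Fin n) ℂ) :
    eval z (pull γ δ f) = (∏ i, (z i - δ i) ^ f.degreeOf i) * eval (fun i => (z i - γ i) / (z i - δ i)) f := by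
  have h := map_homog (K := ℂ) (aeval z) (fun i => X i - C (γ i)) (fun i => X i - C (δ i)) (fun i => by
    simpa [sub_eq_zero] using hz i) f
  simpa [aeval_eq_eval, pull] using h

lemma mem_van_image_iff (hV : IsSubvariety V) (hc : NonConst V) {γ δ : Fin n → ℂ} {f : MvPolynomial (Fin n) ℂ} :
    f ∈ vanishingIdeal ℂ (image γ δ V) ↔ pull γ δ f ∈ vanishingIdeal ℂ V := by
  have hI := van_prime hV
  constructor
  · intro h
    have h1 : pull γ δ f * ∏ i, (X i - C (δ i)) ∈ vanishingIdeal ℂ V := by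
      refine mem_van.2 fun z hz => ?_
      rw [map_mul]
      by_cases hzd : ∀ i, z i ≠ δ i
      · rw [eval_pull hzd, mem_van.1 h _ ⟨z, hz, fun i => ⟨hzd i, rfl⟩⟩, mul_zero, zero_mul]
      · push Not at hzd
        obtain ⟨i, hi⟩ := hzd
        rw [map_prod, Finset.prod_eq_zero (mem_univ i) (by rw [map_sub, eval_X, eval_C, hi, sub_self]), mul_zero]
    rcases hI.mem_or_mem h1 with h2 | h2
    · exact h2
    · rw [hI.prod_mem_iff] at h2
      obtain ⟨i, -, h3⟩ := h2
      exact absurd h3 (sub_notMem hc i _)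
  · rintro h
    refine mem_van.2 ?_
    rintro w ⟨z, hz, hw⟩
    have h1 := mem_van.1 h z hz
    rw [eval_pull fun i => (hw i).1, mul_eq_zero] at h1
    have h2 : w = fun i => (z i - γ i) / (z i - δ i) := funext fun i => (hw i).2
    rw [h2]
    refine h1.resolve_left (Finset.prod_ne_zero_iff.2 fun i _ => pow_ne_zero _ (sub_ne_zero.2 (hw i).1))

/-- the coordinate ring -/
abbrev coordRing (V : Set (Fin n → ℂ)) : Type := MvPolynomial (Fin n) ℂ ⧸ vanishingIdeal ℂ V

variable (hV : IsSubvariety V)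

/-- the function field -/
noncomputable abbrev funField (V : Set (Fin n → ℂ)) [(vanishingIdeal ℂ V).IsPrime] : Type :=
  FractionRing (coordRing V)

variable [(vanishingIdeal ℂ V).IsPrime]

/-- the restriction of polynomials -/
noncomputable def toFun : MvPolynomial (Fin n) ℂ →ₐ[ℂ] funField V :=
  (IsScalarTower.toAlgHom ℂ (coordRing V) (funField V)).comp (Ideal.Quotient.mkₐ ℂ (vanishingIdeal ℂ V))

lemma toFun_eq_zero {f : MvPolynomial (Fin n) ℂ} : (toFun (V := V) f) = 0 ↔ f ∈ vanishingIdeal ℂ V := by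
  have h : toFun (V := V) f = algebraMap (coordRing V) (funField V) (Ideal.Quotient.mk _ f) := rfl
  rw [h, map_eq_zero_iff _ (IsFractionRing.injective (coordRing V) (funField V)), Ideal.Quotient.eq_zero_iff_mem]

lemma toFun_C (c : ℂ) : toFun (V := V) (C c) = algebraMap ℂ (funField V) c := (toFun (V := V)).commutes c

lemma toFun_sub_ne (hc : NonConst V) (i : Fin n) (c : ℂ) : toFun (V := V) (X i - C c) ≠ 0 := fun h =>
  sub_notMem hc i c (toFun_eq_zero.1 h)

/-- the coordinates of the image in the function field -/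
noncomputable def wfun (γ δ : Fin n → ℂ) (i : Fin n) : funField V :=
  toFun (V := V) (X i - C (γ i)) / toFun (V := V) (X i - C (δ i))

/-- substitution -/
noncomputable def subst (V : Set (Fin n → ℂ)) [(vanishingIdeal ℂ V).IsPrime] (γ δ : Fin n → ℂ) :
    MvPolynomial (Fin n) ℂ →ₐ[ℂ] funField V := aeval (wfun γ δ)

lemma ker_subst (hV : IsSubvariety V) (hc : NonConst V) (γ δ : Fin n → ℂ) :
    RingHom.ker (subst V γ δ) = vanishingIdeal ℂ (image γ δ V) := by
  ext f
  rw [RingHom.mem_ker, mem_van_image_iff hV hc, ← toFun_eq_zero, pull,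
    map_homog _ _ _ (fun i => toFun_sub_ne hc i (δ i)), mul_eq_zero]
  constructor
  · exact fun h => Or.inr h
  · intro h
    refine h.resolve_left (Finset.prod_ne_zero_iff.2 fun i _ => pow_ne_zero _ (toFun_sub_ne hc i (δ i)))

lemma wfun_spec (hc : NonConst V) {γ δ : Fin n → ℂ} (i : Fin n) :
    (1 - wfun (V := V) γ δ i) * toFun (V := V) (X i) =
      algebraMap ℂ _ (γ i) - algebraMap ℂ _ (δ i) * wfun (V := V) γ δ i := by
  have h1 := toFun_sub_ne hc i (δ i)
  rw [wfun]
  rw [map_sub, toFun_C] at h1 ⊢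
  rw [map_sub, toFun_C]
  field_simp
  ring

lemma wfun_ne_one (hc : NonConst V) {γ δ : Fin n → ℂ} {i : Fin n} (h : γ i ≠ δ i) :
    1 - wfun (V := V) γ δ i ≠ 0 := by
  intro h0
  have h1 := wfun_spec hc (γ := γ) (δ := δ) i
  rw [h0, zero_mul] at h1
  have h2 : wfun (V := V) γ δ i = 1 := (sub_eq_zero.1 h0).symm
  rw [h2, mul_one, ← map_sub] at h1
  exact h (sub_eq_zero.1 ((map_eq_zero (algebraMap ℂ (funField V))).1 h1.symm))

/-- the function field is algebraic over the ring generated by the coordinates of the image -/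
lemma isAlgebraic_range (hc : NonConst V) {γ δ : Fin n → ℂ} (h : ∀ i, γ i ≠ δ i) :
    Algebra.IsAlgebraic (subst V γ δ).range (funField V) := by
  set S := (subst V γ δ).range with hS
  have hw : ∀ i, IsAlgebraic S (wfun (V := V) γ δ i) := fun i => by
    have : wfun (V := V) γ δ i = algebraMap S (funField V) ⟨wfun (V := V) γ δ i, X i, aeval_X _ _⟩ := rfl
    rw [this]
    exact isAlgebraic_algebraMap _
  have hc' : ∀ c : ℂ, IsAlgebraic S (algebraMap ℂ (funField V) c) := fun c => by
    rw [IsScalarTower.algebraMap_apply ℂ S (funField V)]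
    exact isAlgebraic_algebraMap _
  have h1 : IsAlgebraic S (1 : funField V) := by
    rw [← map_one (algebraMap S (funField V))]
    exact isAlgebraic_algebraMap _
  have hx : ∀ i, IsAlgebraic S (toFun (V := V) (X i)) := by
    intro i
    have h2 : toFun (V := V) (X i) = (algebraMap ℂ _ (γ i) - algebraMap ℂ _ (δ i) * wfun (V := V) γ δ i) *
        (1 - wfun (V := V) γ δ i)⁻¹ := by
      rw [← wfun_spec hc, mul_comm (1 - wfun (V := V) γ δ i), mul_assoc,
        mul_inv_cancel₀ (wfun_ne_one hc (h i)), mul_one]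
    rw [h2]
    exact ((hc' _).sub ((hc' _).mul (hw i))).mul (h1.sub (hw i)).inv
  have hp : ∀ f : MvPolynomial (Fin n) ℂ, IsAlgebraic S (toFun (V := V) f) := by
    intro f
    induction f using MvPolynomial.induction_on with
    | C a => rw [toFun_C]; exact hc' a
    | add f g hf hg => rw [map_add]; exact hf.add hg
    | mul_X f i hf => rw [map_mul]; exact hf.mul (hx i)
  refine ⟨fun x => ?_⟩
  obtain ⟨a, b, hb, rfl⟩ := IsFractionRing.div_surjective (A := coordRing V) x
  obtain ⟨f, rfl⟩ := Ideal.Quotient.mk_surjective a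
  obtain ⟨g, rfl⟩ := Ideal.Quotient.mk_surjective b
  exact (hp f).mul (hp g).inv

end field

theorem isSubvariety_moebius {V : Set (Fin n → ℂ)} (hV : IsSubvariety V) (hc : NonConst V) (γ δ : Fin n → ℂ) :
    IsSubvariety (moebius γ δ V) := by
  have := van_prime hV
  refine ⟨RingHom.ker (subst V γ δ), RingHom.ker_isPrime _, ?_⟩
  rw [ker_subst hV hc, moebius]

lemma van_moebius {V : Set (Fin n → ℂ)} (γ δ : Fin n → ℂ) :
    vanishingIdeal ℂ (moebius γ δ V) = vanishingIdeal ℂ (image γ δ V) := by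
  apply le_antisymm
  · exact vanishingIdeal_anti_mono (zeroLocus_vanishingIdeal_le _)
  · exact le_vanishingIdeal_zeroLocus _

theorem dim_moebius {V : Set (Fin n → ℂ)} (hV : IsSubvariety V) (hc : NonConst V) {γ δ : Fin n → ℂ}
    (h : ∀ i, γ i ≠ δ i) : dim (moebius γ δ V) = dim V := by
  have hI := van_prime hV
  have h1 : Algebra.trdeg ℂ (coordRing V) = Algebra.trdeg ℂ (funField V) := by
    have h2 := _root_.trdeg_add_eq ℂ (coordRing V) (A := funField V)
    have h4 : Algebra.IsAlgebraic (coordRing V) (funField V) :=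
      IsLocalization.isAlgebraic _ (nonZeroDivisors (coordRing V))
    have h3 : Algebra.trdeg (coordRing V) (funField V) = 0 := trdeg_eq_zero
    rw [h3, add_zero] at h2
    exact h2
  have h4 : Algebra.trdeg ℂ (subst V γ δ).range = Algebra.trdeg ℂ (funField V) := by
    have := isAlgebraic_range hc h
    have hf : FaithfulSMul ℂ (subst V γ δ).range := by
      rw [faithfulSMul_iff_algebraMap_injective]
      exact (algebraMap ℂ (subst V γ δ).range).injective
    have h2 := _root_.trdeg_add_eq ℂ (subst V γ δ).range (A := funField V)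
    have h3 : Algebra.trdeg (subst V γ δ).range (funField V) = 0 := trdeg_eq_zero
    rw [h3, add_zero] at h2
    exact h2
  rw [dim, dim, van_moebius, ← ker_subst hV hc, h1, ← h4]
  congr 1
  exact (Ideal.quotientKerEquivRange (subst V γ δ)).trdeg_eq

theorem nonConst_moebius {V : Set (Fin n → ℂ)} (hV : IsSubvariety V) (hc : NonConst V) {γ δ : Fin n → ℂ}
    (h : ∀ i, γ i ≠ δ i) : NonConst (moebius γ δ V) := by
  intro i c
  have hI := van_prime hV
  have h1 : (∏ j, (X j - C (δ j))) * (C (1 - c) * X i + C (c * δ i - γ i)) ∉ vanishingIdeal ℂ V := by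
    intro hmem
    rcases hI.mem_or_mem hmem with h2 | h2
    · rw [hI.prod_mem_iff] at h2
      obtain ⟨j, -, h3⟩ := h2
      exact absurd h3 (sub_notMem hc j _)
    · refine lin_notMem hc i ?_ h2
      by_cases hc1 : c = 1
      · right
        rw [hc1, one_mul]
        exact fun h0 => h i (sub_eq_zero.1 h0).symm
      · left
        exact fun h0 => hc1 (sub_eq_zero.1 h0).symm
  rw [mem_van] at h1
  push Not at h1
  obtain ⟨z, hz, hz2⟩ := h1
  rw [map_mul, map_prod] at hz2
  have hz3 := left_ne_zero_of_mul hz2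
  have hz4 := right_ne_zero_of_mul hz2
  rw [Finset.prod_ne_zero_iff] at hz3
  have hz5 : ∀ j, z j ≠ δ j := fun j => by
    have := hz3 j (mem_univ j)
    rwa [map_sub, eval_X, eval_C, sub_ne_zero] at this
  refine ⟨fun j => (z j - γ j) / (z j - δ j), ?_, ?_⟩
  · exact zeroLocus_vanishingIdeal_le _ ⟨z, hz, fun j => ⟨hz5 j, rfl⟩⟩
  · intro h2
    rw [div_eq_iff (sub_ne_zero.2 (hz5 i))] at h2
    apply hz4
    rw [map_add, map_mul, eval_X, eval_C, eval_C]
    linear_combination h2

/-! ### Corners -/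

/-- the coefficients of a product of polynomials in one variable -/
lemma coeff_prod_one (Q : Fin n → Polynomial ℂ) (m : Fin n →₀ ℕ) :
    (∏ i, Polynomial.aeval (X i : MvPolynomial (Fin n) ℂ) (Q i)).coeff m = ∏ i, (Q i).coeff (m i) := by
  classical
  set N : ℕ := (∑ i, (Q i).natDegree) + ∑ i, m i with hN
  have hQ : ∀ i, Polynomial.aeval (X i : MvPolynomial (Fin n) ℂ) (Q i) =
      ∑ k ∈ range (N + 1), C ((Q i).coeff k) * X i ^ k := by
    intro i
    rw [Polynomial.aeval_eq_sum_range' (n := N + 1)]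
    · exact Finset.sum_congr rfl fun k _ => by rw [smul_eq_C_mul]
    · have := Finset.single_le_sum (f := fun i => (Q i).natDegree) (fun i _ => Nat.zero_le _) (mem_univ i)
      omega
  simp only [hQ]
  rw [Finset.prod_univ_sum, coeff_sum]
  have h1 : ∀ κ : Fin n → ℕ, (∏ i, (C ((Q i).coeff (κ i)) * X i ^ κ i : MvPolynomial (Fin n) ℂ)) =
      monomial (Finsupp.equivFunOnFinite.symm κ) (∏ i, (Q i).coeff (κ i)) := by
    intro κ
    rw [Finset.prod_mul_distrib, ← map_prod, monomial_eq, Finsupp.prod_fintype _ _ (fun i => pow_zero _)]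
    rfl
  simp only [h1, coeff_monomial]
  rw [Finset.sum_eq_single (fun i => m i)]
  · rw [if_pos (by ext i; rfl)]
  · intro κ _ hκ
    rw [if_neg]
    intro h
    apply hκ
    funext i
    rw [← h]
    rfl
  · intro h
    exfalso
    apply h
    rw [Fintype.mem_piFinset]
    intro i
    rw [Finset.mem_range]
    have := Finset.single_le_sum (f := fun i => m i) (fun i _ => Nat.zero_le _) (mem_univ i)
    omega

/-- the polynomial `f((γ_i - δ_i w_i) / (1 - w_i)) ∏ (1 - w_i) ^ (deg_i f)` in `w` -/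
noncomputable def push (γ δ : Fin n → ℂ) (f : MvPolynomial (Fin n) ℂ) : MvPolynomial (Fin n) ℂ :=
  homog (fun i => C (γ i) - C (δ i) * X i) (fun i => 1 - X i) f

/-- one factor -/
noncomputable def fac (γ δ : ℂ) (a d : ℕ) : Polynomial ℂ :=
  (Polynomial.C γ - Polynomial.C δ * Polynomial.X) ^ a * (1 - Polynomial.X) ^ (d - a)

lemma natDegree_fac (γ δ : ℂ) {a d : ℕ} (h : a ≤ d) : (fac γ δ a d).natDegree ≤ d := by
  refine Polynomial.natDegree_mul_le.trans ?_
  have h1 : (Polynomial.C γ - Polynomial.C δ * Polynomial.X : Polynomial ℂ).natDegree ≤ 1 := by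
    compute_degree
  have h2 : (1 - Polynomial.X : Polynomial ℂ).natDegree ≤ 1 := by
    compute_degree
  have h3 := Polynomial.natDegree_pow_le_of_le a h1
  have h4 := Polynomial.natDegree_pow_le_of_le (d - a) h2
  omega

lemma coeff_fac_top (γ δ : ℂ) {a d : ℕ} (h : a ≤ d) : (fac γ δ a d).coeff d = (-1) ^ d * δ ^ a := by
  have h1 : (Polynomial.C γ - Polynomial.C δ * Polynomial.X : Polynomial ℂ).natDegree ≤ 1 := by
    compute_degree
  have h2 : (1 - Polynomial.X : Polynomial ℂ).natDegree ≤ 1 := by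
    compute_degree
  have h3 := Polynomial.natDegree_pow_le_of_le a h1
  have h4 := Polynomial.natDegree_pow_le_of_le (d - a) h2
  have h5 := Polynomial.coeff_mul_add_eq_of_natDegree_le h3 h4
  rw [show a * 1 + (d - a) * 1 = d by omega] at h5
  have h6 := Polynomial.coeff_pow_of_natDegree_le h1 (m := a)
  have h7 := Polynomial.coeff_pow_of_natDegree_le h2 (m := d - a)
  rw [mul_one] at h6 h7
  rw [fac, h5, mul_one a, mul_one (d - a), h6, h7]
  simp only [Polynomial.coeff_sub, Polynomial.coeff_C_mul, Polynomial.coeff_X_one, Polynomial.coeff_C,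
    Polynomial.coeff_one]
  norm_num
  rw [neg_pow, mul_right_comm, ← pow_add, show a + (d - a) = d by omega]

lemma coeff_fac_zero (γ δ : ℂ) (a d : ℕ) : (fac γ δ a d).coeff 0 = γ ^ a := by
  rw [fac, Polynomial.mul_coeff_zero, Polynomial.coeff_zero_eq_eval_zero, Polynomial.coeff_zero_eq_eval_zero]
  simp

lemma push_coeff (γ δ : Fin n → ℂ) (f : MvPolynomial (Fin n) ℂ) (e : Fin n →₀ ℕ) :
    (push γ δ f).coeff e = ∑ m ∈ f.support, f.coeff m * ∏ i, (fac (γ i) (δ i) (m i) (f.degreeOf i)).coeff (e i) := by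
  rw [push, homog, coeff_sum]
  refine Finset.sum_congr rfl fun m _ => ?_
  have h1 : (∏ i, (C (γ i) - C (δ i) * X i) ^ m i * (1 - X i) ^ (f.degreeOf i - m i) : MvPolynomial (Fin n) ℂ) =
      ∏ i, Polynomial.aeval (X i : MvPolynomial (Fin n) ℂ) (fac (γ i) (δ i) (m i) (f.degreeOf i)) := by
    refine Finset.prod_congr rfl fun i _ => ?_
    rw [fac]
    simp only [map_mul, map_pow, map_sub, Polynomial.aeval_C, Polynomial.aeval_X, map_one, algebraMap_eq]
  rw [h1, coeff_C_mul, coeff_prod_one]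

lemma push_degreeOf_le (γ δ : Fin n → ℂ) (f : MvPolynomial (Fin n) ℂ) (i : Fin n) :
    (push γ δ f).degreeOf i ≤ f.degreeOf i := by
  rw [degreeOf_le_iff]
  intro e he
  by_contra hcon
  push Not at hcon
  rw [mem_support_iff, push_coeff] at he
  apply he
  refine Finset.sum_eq_zero fun m hm => ?_
  rw [Finset.prod_eq_zero (mem_univ i), mul_zero]
  exact Polynomial.coeff_eq_zero_of_natDegree_lt
    ((natDegree_fac _ _ (monomial_le_degreeOf i hm)).trans_lt hcon)

/-- the corner coefficients are the values of `f` at the points with coordinates `γ_i` or `δ_i` -/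
lemma push_corner (γ δ : Fin n → ℂ) (f : MvPolynomial (Fin n) ℂ) (I : Finset (Fin n)) :
    (push γ δ f).coeff (corner f I) =
      (∏ i ∈ I, (-1) ^ f.degreeOf i) * eval (fun i => if i ∈ I then δ i else γ i) f := by
  classical
  rw [push_coeff, eval_eq', Finset.mul_sum]
  refine Finset.sum_congr rfl fun m hm => ?_
  have h1 : ∀ i, (fac (γ i) (δ i) (m i) (f.degreeOf i)).coeff (corner f I i) =
      (if i ∈ I then (-1 : ℂ) ^ f.degreeOf i else 1) * (if i ∈ I then δ i else γ i) ^ m i := by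
    intro i
    have h2 : corner f I i = if i ∈ I then f.degreeOf i else 0 := rfl
    rw [h2]
    split_ifs with hi
    · exact coeff_fac_top _ _ (monomial_le_degreeOf i hm)
    · rw [coeff_fac_zero, one_mul]
  simp only [h1]
  rw [Finset.prod_mul_distrib, Finset.prod_ite_mem, Finset.univ_inter]
  ring

lemma push_mem {V : Set (Fin n → ℂ)} {γ δ : Fin n → ℂ} (h : ∀ i, γ i ≠ δ i) {f : MvPolynomial (Fin n) ℂ}
    (hf : ∀ z ∈ V, eval z f = 0) : ∀ w ∈ moebius γ δ V, eval w (push γ δ f) = 0 := by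
  have h1 : push γ δ f ∈ vanishingIdeal ℂ (moebius γ δ V) := by
    rw [van_moebius, mem_van]
    rintro w ⟨z, hz, hw⟩
    have hw1 : ∀ i, 1 - w i ≠ 0 := by
      intro i h0
      have h2 := (hw i).2
      rw [← sub_eq_zero.1 h0, eq_div_iff (sub_ne_zero.2 (hw i).1), one_mul] at h2
      apply h i
      linear_combination h2
    have h2 := map_homog (K := ℂ) (aeval w) (fun i => C (γ i) - C (δ i) * X i) (fun i => 1 - X i) (fun i => by
      simpa using hw1 i) f
    have h3 : (fun i => (aeval w) (C (γ i) - C (δ i) * X i : MvPolynomial (Fin n) ℂ) /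
        (aeval w) (1 - X i : MvPolynomial (Fin n) ℂ)) = z := by
      funext i
      have h4 := sub_ne_zero.2 (hw i).1
      have h5 := hw1 i
      have h6 := (hw i).2
      have h7 : w i * (z i - δ i) = z i - γ i := by rw [h6, div_mul_cancel₀ _ h4]
      simp only [aeval_eq_eval, map_sub, map_mul, eval_C, eval_X, map_one]
      rw [div_eq_iff h5]
      linear_combination h7
    rw [h3, aeval_eq_eval, aeval_eq_eval, hf z hz, mul_zero] at h2
    exact h2
  exact mem_van.1 h1

/-- the values at the points with coordinates `γ_i` or `δ_i` -/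
noncomputable def cornerPoly (f : MvPolynomial (Fin n) ℂ) (I : Finset (Fin n)) :
    MvPolynomial (Fin n ⊕ Fin n) ℂ :=
  open Classical in rename (fun i => if i ∈ I then Sum.inr i else Sum.inl i) f

lemma cornerPoly_ne_zero {f : MvPolynomial (Fin n) ℂ} (hf : f ≠ 0) (I : Finset (Fin n)) :
    cornerPoly f I ≠ 0 := by
  classical
  have hinj : Function.Injective (fun i : Fin n => (if i ∈ I then Sum.inr i else Sum.inl i : Fin n ⊕ Fin n)) := by
    intro i j hij
    simp only at hij
    split_ifs at hij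
    · exact Sum.inr_injective hij
    · exact Sum.inl_injective hij
  rw [cornerPoly]
  exact fun h => hf (rename_injective _ hinj (by rw [h, map_zero]))

lemma eval_cornerPoly (f : MvPolynomial (Fin n) ℂ) (I : Finset (Fin n)) (γ δ : Fin n → ℂ) :
    eval (Sum.elim γ δ) (cornerPoly f I) = eval (fun i => if i ∈ I then δ i else γ i) f := by
  classical
  rw [cornerPoly, eval_rename]
  congr 2
  funext i
  simp only [Function.comp_apply]
  split_ifs <;> rfl

/-- one polynomial -/
lemma push_spec {J : Finset (Fin n)} {f : MvPolynomial (Fin n) ℂ} (hvars : f.vars ⊆ J)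
    (halg : ∀ m, IsAlgebraic ℚ (f.coeff m)) {γ δ : Fin n → ℂ} (hγ : ∀ i, IsAlgebraic ℚ (γ i))
    (hδ : ∀ i, IsAlgebraic ℚ (δ i)) (h : ∀ I ⊆ J, eval (fun i => if i ∈ I then δ i else γ i) f ≠ 0) :
    (push γ δ f).vars ⊆ J ∧ (∀ m, IsAlgebraic ℚ ((push γ δ f).coeff m)) ∧
      ∀ I ⊆ J, (push γ δ f).coeff (corner (push γ δ f) I) ≠ 0 := by
  classical
  have hne : ∀ I ⊆ J, (push γ δ f).coeff (corner f I) ≠ 0 := by
    intro I hI
    rw [push_corner]
    exact mul_ne_zero (Finset.prod_ne_zero_iff.2 fun i _ => pow_ne_zero _ (by norm_num)) (h I hI)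
  have hdeg : ∀ i, (push γ δ f).degreeOf i = f.degreeOf i := by
    intro i
    refine le_antisymm (push_degreeOf_le γ δ f i) ?_
    by_cases hi : i ∈ J
    · have h1 := monomial_le_degreeOf i (mem_support_iff.2 (hne J le_rfl))
      have h2 : corner f J i = f.degreeOf i := by
        change (if i ∈ J then f.degreeOf i else 0) = _
        rw [if_pos hi]
      rwa [h2] at h1
    · have h1 : f.degreeOf i = 0 := by
        rw [← Nat.le_zero, degreeOf_le_iff]
        intro m hm
        by_contra hcon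
        exact hi (hvars ((mem_vars_iff_mem_support i).2 ⟨m, hm, Finsupp.mem_support_iff.2 (by omega)⟩))
      omega
  refine ⟨fun i hi => ?_, fun e => ?_, fun I hI => ?_⟩
  · obtain ⟨e, he, hei⟩ := (mem_vars_iff_mem_support i).1 hi
    have h1 := monomial_le_degreeOf i he
    rw [hdeg] at h1
    rw [Finsupp.mem_support_iff] at hei
    by_contra hcon
    apply hcon
    apply hvars
    have h2 : f.degreeOf i ≠ 0 := by omega
    by_contra hcon2
    apply h2
    rw [← Nat.le_zero, degreeOf_le_iff]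
    intro m hm
    by_contra hcon3
    exact hcon2 ((mem_vars_iff_mem_support i).2 ⟨m, hm, Finsupp.mem_support_iff.2 (by omega)⟩)
  · have hQ : ∀ x, x ∈ algebraicClosure ℚ ℂ ↔ IsAlgebraic ℚ x := fun x => mem_algebraicClosure_iff
    rw [push_coeff, ← hQ]
    refine sum_mem fun m _ => mul_mem ((hQ _).2 (halg m)) (prod_mem fun i _ => ?_)
    have hlift : ∃ q : Polynomial (algebraicClosure ℚ ℂ),
        q.map (algebraMap (algebraicClosure ℚ ℂ) ℂ) = fac (γ i) (δ i) (m i) (f.degreeOf i) := by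
      refine ⟨(Polynomial.C ⟨γ i, (hQ _).2 (hγ i)⟩ - Polynomial.C ⟨δ i, (hQ _).2 (hδ i)⟩ * Polynomial.X) ^ m i *
        (1 - Polynomial.X) ^ (f.degreeOf i - m i), ?_⟩
      rw [fac]
      simp only [Polynomial.map_mul, Polynomial.map_pow, Polynomial.map_sub, Polynomial.map_C, Polynomial.map_X,
        Polynomial.map_one]
      rfl
    obtain ⟨q, hq⟩ := hlift
    rw [← hq, Polynomial.coeff_map]
    exact (q.coeff (e i)).2
  · have h1 : corner (push γ δ f) I = corner f I := by
      ext i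
      change (if i ∈ I then (push γ δ f).degreeOf i else 0) = if i ∈ I then f.degreeOf i else 0
      rw [hdeg]
    rw [h1]
    exact hne I hI

/-- every `d + 1` coordinates satisfy an equation with algebraic coefficients -/
def AlgDependent (d : ℕ) (V : Set (Fin n → ℂ)) : Prop :=
  ∀ J : Finset (Fin n), J.card = d + 1 → ∃ g : MvPolynomial (Fin n) ℂ, g ≠ 0 ∧ g.vars ⊆ J ∧
    (∀ m, IsAlgebraic ℚ (g.coeff m)) ∧ ∀ z ∈ V, eval z g = 0

/-- **the hypothesis holds after a general coordinatewise Möbius transformation** -/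
theorem cornerPos_moebius {d : ℕ} {V : Set (Fin n → ℂ)} (hV : AlgDependent d V) :
    ∃ P : MvPolynomial (Fin n ⊕ Fin n) ℂ, P ≠ 0 ∧ ∀ γ δ : Fin n → ℂ, (∀ i, IsAlgebraic ℚ (γ i)) →
      (∀ i, IsAlgebraic ℚ (δ i)) → eval (Sum.elim γ δ) P ≠ 0 →
        (∀ i, γ i ≠ δ i) ∧ CornerPos d (moebius γ δ V) := by
  classical
  have hg : ∀ J : Finset (Fin n), ∃ g : MvPolynomial (Fin n) ℂ, g ≠ 0 ∧ (J.card = d + 1 →
      g.vars ⊆ J ∧ (∀ m, IsAlgebraic ℚ (g.coeff m)) ∧ ∀ z ∈ V, eval z g = 0) := by
    intro J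
    by_cases hJ : J.card = d + 1
    · obtain ⟨g, h1, h2⟩ := hV J hJ
      exact ⟨g, h1, fun _ => h2⟩
    · exact ⟨1, one_ne_zero, fun h => absurd h hJ⟩
  choose g hg0 hg using hg
  refine ⟨(∏ i : Fin n, (X (Sum.inl i) - X (Sum.inr i))) *
    ∏ J : Finset (Fin n), ∏ I : Finset (Fin n), cornerPoly (g J) I, ?_, fun γ δ hγ hδ hP => ?_⟩
  · refine mul_ne_zero (Finset.prod_ne_zero_iff.2 fun i _ => ?_) (Finset.prod_ne_zero_iff.2 fun J _ =>
      Finset.prod_ne_zero_iff.2 fun I _ => cornerPoly_ne_zero (hg0 J) I)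
    intro h
    rw [sub_eq_zero] at h
    exact absurd (X_injective h) (by simp)
  · rw [map_mul, map_prod, map_prod] at hP
    have h1 := left_ne_zero_of_mul hP
    have h2 := right_ne_zero_of_mul hP
    rw [Finset.prod_ne_zero_iff] at h1 h2
    have h3 : ∀ i, γ i ≠ δ i := by
      intro i
      have := h1 i (mem_univ i)
      rwa [map_sub, eval_X, eval_X, Sum.elim_inl, Sum.elim_inr, sub_ne_zero] at this
    refine ⟨h3, fun J hJ => ?_⟩
    obtain ⟨h4, h5, h6⟩ := hg J hJ
    have h7 := h2 J (mem_univ J)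
    rw [map_prod, Finset.prod_ne_zero_iff] at h7
    obtain ⟨h8, h9, h10⟩ := push_spec h4 h5 hγ hδ fun I _ => by
      rw [← eval_cornerPoly]
      exact h7 I (mem_univ I)
    exact ⟨push γ δ (g J), h8, h9, h10, push_mem h3 h6⟩

end Pool.Agent.Helper36.DL
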