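import Pool.Agent.Helper36.DL.ZpLem
import Pool.Agent.Helper36.DL.Place
import Pool.Agent.Helper22.DL.ET

/-! # Places at which a transcendental number is a `p`-adic number -/

open Cardinal

namespace Pool.Agent.Helper36.DL
open Pool.Agent.Helper11.ZP Pool.Agent.Helper20.ZD Pool.Agent.Helper20.DL Pool.Agent.Helper69.DL

/-- `x` is a limit of rational numbers -/
def InCl (v : AbsoluteValue ℂ ℝ) (x : ℂ) : Prop := ∀ ε : ℝ, 0 < ε → ∃ q : ℚ, v (x - q) < ε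

lemma InCl.rat {v : AbsoluteValue ℂ ℝ} (q : ℚ) : InCl v (q : ℂ) := fun ε hε => ⟨q, by
  rw [sub_self, map_zero]; exact hε⟩

lemma InCl.mul_rat {v : AbsoluteValue ℂ ℝ} {x : ℂ} (hx : InCl v x) (r : ℚ) : InCl v (x * r) := by
  intro ε hε
  by_cases hr : (r : ℂ) = 0
  · exact ⟨0, by rw [hr, mul_zero, Rat.cast_zero, sub_zero, map_zero]; exact hε⟩
  · have hr0 : 0 < v (r : ℂ) := (AbsoluteValue.pos_iff v).2 hr
    obtain ⟨q, hq⟩ := hx (ε / v (r : ℂ)) (div_pos hε hr0)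
    refine ⟨q * r, ?_⟩
    have h1 : x * r - ((q * r : ℚ) : ℂ) = (x - q) * r := by push_cast; ring
    rw [h1, map_mul]
    exact (lt_div_iff₀ hr0).1 hq

/-- a limit of rational numbers of absolute value at most one is a `p`-adic integer -/
lemma InCl.zp {v : AbsoluteValue ℂ ℝ} (hv : IsNonarchimedean v) {p : ℕ} (hp : p.Prime) (hvp : v (p : ℂ) < 1)
    {x : ℂ} (hx : InCl v x) (h1 : v x ≤ 1) : Zp v p x := by
  intro k
  have hp0 : 0 < v (p : ℂ) := (AbsoluteValue.pos_iff v).2 (by exact_mod_cast hp.ne_zero)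
  obtain ⟨q, hq⟩ := hx (v (p : ℂ) ^ k) (pow_pos hp0 k)
  have h2 : v (q : ℂ) ≤ 1 := by
    have h3 : (q : ℂ) = x - (x - q) := by ring
    rw [h3]
    exact (v_sub_le hv _ _).trans (max_le h1 (hq.le.trans (pow_le_one₀ hp0.le hvp.le)))
  obtain ⟨r, hr⟩ := Zp.rat hv hp hvp h2 k
  refine ⟨r, ?_⟩
  have h3 : x - r = (x - q) + (q - r) := by ring
  rw [h3]
  exact (hv _ _).trans (max_le hq.le hr)

lemma exists_transcendental_padic (p : ℕ) [Fact p.Prime] (m : ℕ) :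
    ∃ τ : ℚ_[p], Transcendental ℤ τ ∧ ‖τ‖ = (p : ℝ) ^ m := by
  have h1 : ¬ (Set.univ : Set ℚ_[p]) ⊆ {x | IsAlgebraic ℤ x} := by
    intro h
    have h2 : (Set.univ : Set ℚ_[p]).Countable := (Algebraic.countable ℤ ℚ_[p]).mono h
    have h3 := mk_padic p
    rw [Set.countable_univ_iff, ← Cardinal.mk_le_aleph0_iff, h3] at h2
    exact absurd h2 (not_le.2 Cardinal.aleph0_lt_continuum)
  obtain ⟨τ, -, hτ⟩ := Set.not_subset.1 h1
  have hτ' : Transcendental ℤ τ := hτ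
  have hτ0 : τ ≠ 0 := by
    rintro rfl
    exact hτ' isAlgebraic_zero
  obtain ⟨k, hk⟩ := (Padic.padicNormE.image hτ0)
  have hpQ : (p : ℚ_[p]) ≠ 0 := by exact_mod_cast (Fact.out : p.Prime).ne_zero
  refine ⟨τ * (p : ℚ_[p]) ^ (-k - (m : ℤ)), ?_, ?_⟩
  · intro halg
    apply hτ'
    have h2 : τ = τ * (p : ℚ_[p]) ^ (-k - (m : ℤ)) * (p : ℚ_[p]) ^ (k + (m : ℤ)) := by
      rw [mul_assoc, ← zpow_add₀ hpQ]
      simp
    rw [h2]
    refine halg.mul ?_
    have h3 : IsAlgebraic ℚ ((p : ℚ_[p]) ^ (k + (m : ℤ))) := by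
      have h4 : (p : ℚ_[p]) ^ (k + (m : ℤ)) = algebraMap ℚ ℚ_[p] ((p : ℚ) ^ (k + (m : ℤ))) := by
        rw [map_zpow₀, map_natCast]
      rw [h4]
      exact isAlgebraic_algebraMap _
    exact (IsFractionRing.isAlgebraic_iff ℤ ℚ ℚ_[p]).2 h3
  · have hp0 : (p : ℝ) ≠ 0 := by exact_mod_cast (Fact.out : p.Prime).ne_zero
    rw [norm_mul, hk, Padic.norm_p_zpow, Rat.cast_zpow, Rat.cast_natCast, ← zpow_add₀ hp0, ← zpow_natCast]
    congr 1
    ring

/-- **a transcendental number is a `p`-adic number of given absolute value for some place of `ℂ`** -/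
theorem exists_place_trans {p : ℕ} (hp : p.Prime) {t : ℂ} (ht : Transcendental ℤ t) (m : ℕ) :
    ∃ v : AbsoluteValue ℂ ℝ, IsNonarchimedean v ∧ v (p : ℂ) = (p : ℝ)⁻¹ ∧ InCl v t ∧ v t = (p : ℝ) ^ m := by
  have := Fact.mk hp
  obtain ⟨τ, hτ, hτm⟩ := exists_transcendental_padic p m
  obtain ⟨e⟩ := IsAlgClosed.ringEquiv_of_equiv_of_charZero (K := ℂ) (L := PadicAlgCl p)
    (by rw [Cardinal.mk_complex]; exact Cardinal.aleph0_lt_continuum)
    (Cardinal.eq.1 (by rw [Cardinal.mk_complex, mk_padicAlgCl]))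
  have hnorm : ∀ x : ℚ_[p], ‖algebraMap ℚ_[p] (PadicAlgCl p) x‖ = ‖x‖ := fun x => PadicAlgCl.norm_extends p x
  have hτ' : Transcendental ℤ (e.symm (algebraMap ℚ_[p] (PadicAlgCl p) τ)) := by
    have h1 : Transcendental ℤ (algebraMap ℚ_[p] (PadicAlgCl p) τ) := by
      rw [transcendental_algebraMap_iff (algebraMap ℚ_[p] (PadicAlgCl p)).injective]
      exact hτ
    intro halg
    apply h1
    have h2 := halg.algHom (e : ℂ →+* PadicAlgCl p).toIntAlgHom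
    rw [RingHom.toIntAlgHom_apply, RingEquiv.coe_toRingHom, e.apply_symm_apply] at h2
    convert h2
    exact Subsingleton.elim _ _
  obtain ⟨σ, hσ⟩ := Helper22.DL.exists_conj_transcendental ht hτ'
  have hval : e (σ t) = algebraMap ℚ_[p] (PadicAlgCl p) τ := by rw [hσ, e.apply_symm_apply]
  refine ⟨⟨⟨fun x => ‖e (σ x)‖, fun x y => ?_⟩, fun x => norm_nonneg _, fun x => ?_, fun x y => ?_⟩, ?_, ?_, ?_, ?_⟩
  · rw [map_mul, map_mul, norm_mul]
  · change ‖e (σ x)‖ = 0 ↔ x = 0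
    rw [norm_eq_zero, EmbeddingLike.map_eq_zero_iff, EmbeddingLike.map_eq_zero_iff]
  · change ‖e (σ (x + y))‖ ≤ ‖e (σ x)‖ + ‖e (σ y)‖
    rw [map_add, map_add]
    exact norm_add_le _ _
  · intro x y
    change ‖e (σ (x + y))‖ ≤ max ‖e (σ x)‖ ‖e (σ y)‖
    rw [map_add, map_add]
    exact PadicAlgCl.isNonarchimedean p _ _
  · change ‖e (σ (p : ℂ))‖ = _
    rw [map_natCast, map_natCast, ← map_natCast (algebraMap ℚ_[p] (PadicAlgCl p)), hnorm, Padic.norm_p]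
  · intro ε hε
    obtain ⟨r, hr⟩ := Padic.rat_dense p τ hε
    refine ⟨r, ?_⟩
    change ‖e (σ (t - r))‖ < ε
    rw [map_sub, map_sub, hval, map_ratCast, map_ratCast, ← map_ratCast (algebraMap ℚ_[p] (PadicAlgCl p)),
      ← map_sub, hnorm]
    exact hr
  · change ‖e (σ t)‖ = _
    rw [hval, hnorm, hτm]

end Pool.Agent.Helper36.DL
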